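import Pool.Agent.W_0649c_h65.MDefs

/-! MP_0649d4_al, disproof of Q1: the choices of representatives, and the failure of the
inequality. -/

namespace MND

open MNF

variable {G : Type*} [Group G] {k : Type*} [Field k]

/-- Choices for the computation of `k(F, α)`: a set `X` of elements of `S` and, for every `x`, a
set `Y x` of subgroups. -/
structure KReps (S : Subgroup G) where
  X : Finset S
  Y : S → Finset (Subgroup G)

variable {S : Subgroup G} (F : FusionSystem S)

/-- `X` is a set `[S/F]` of representatives as in the problem, and `Y x` is a set of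
representatives of the `C_F(x)`-centric subgroups, for all `x` in `X`. -/
def KReps.Valid (r : KReps S) : Prop :=
  IsElementTransversal F r.X ∧ ∀ x ∈ r.X, IsCentricTransversal (F.cent x) (r.Y x)

/-- Choices for the computation of `m(F, α, e)`: sets `R` of subgroups, `C Q` of chains and
`M Q σ` of characters. -/
structure MReps where
  R : Finset (Subgroup G)
  C : ∀ Q : Subgroup G, Finset (Finset (Subgroup (F.Out Q)))
  M : ∀ Q : Subgroup G, Finset (Subgroup (F.Out Q)) → Finset (Q → ℂ)

/-- `R`, `C Q`, `M Q σ` are representatives as in the problem. -/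
def MReps.Valid (p e : ℕ) (s : MReps F) : Prop := IsMTransversal F p e s.R s.C s.M

/-- `k(F, α) > c([S, S]) m(F, α, d)`: representatives exist, and the inequality holds for all
choices of them. -/
def Exceeds (p d : ℕ) (α : ∀ P : Subgroup G, Cocycle (F.Out P) k) : Prop :=
  (∃ r : KReps S, r.Valid F) ∧ (∃ s : MReps F, s.Valid F p d) ∧
    ∀ (r : KReps S) (s : MReps F), r.Valid F → s.Valid F p d →
      (Nat.card (ConjClasses (commutator S)) : ℤ) * mInv F α s.R s.C s.M < kInv F α r.X r.Y

end MND
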