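import Pool.Agent.W_0649c_h65.ZAbA

/-! MP_0649d4_al, disproof of Q1: the outer automorphism group of `C_S(x)` in `C_F(x)`,
`F = F_S(G)`. -/

namespace MND

open MNF

variable {G : Type*} [Group G]

/-- Conjugation by the elements of `C` on the subgroup `T` normalised by `C`. -/
def centConj (T C : Subgroup G) (h1 : ∀ g ∈ C, ∀ y ∈ T, g * y * g⁻¹ ∈ T) : C →* MulAut T where
  toFun g :=
    { toFun := fun y => ⟨g * y * (g : G)⁻¹, h1 g g.2 y y.2⟩
      invFun := fun y => ⟨(g : G)⁻¹ * y * g, by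
        have := h1 (g : G)⁻¹ (inv_mem g.2) y y.2
        rwa [inv_inv] at this⟩
      left_inv := fun y => by
        apply Subtype.ext
        show (g : G)⁻¹ * (g * y * (g : G)⁻¹) * g = y
        group
      right_inv := fun y => by
        apply Subtype.ext
        show (g : G) * ((g : G)⁻¹ * y * g) * (g : G)⁻¹ = y
        group
      map_mul' := fun y z => by
        apply Subtype.ext
        show (g : G) * (y * z) * (g : G)⁻¹ = g * y * (g : G)⁻¹ * (g * z * (g : G)⁻¹)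
        group }
  map_one' := by
    ext y
    show (1 : G) * y * (1 : G)⁻¹ = y
    group
  map_mul' a b := by
    ext y
    show ((a : G) * b) * y * ((a : G) * b)⁻¹ = a * (b * y * (b : G)⁻¹) * (a : G)⁻¹
    group

theorem centConj_apply (T C : Subgroup G) (h1 : ∀ g ∈ C, ∀ y ∈ T, g * y * g⁻¹ ∈ T) (g : C)
    (y : T) : (centConj T C h1 g y : G) = g * y * (g : G)⁻¹ := rfl

theorem mem_cS_zpowers {S : Subgroup G} {x y : G} :
    y ∈ cS S (Subgroup.zpowers x) ↔ y ∈ S ∧ y * x = x * y := by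
  unfold cS
  rw [Subgroup.mem_inf, Subgroup.mem_centralizer_iff]
  constructor
  · rintro ⟨h, h'⟩
    exact ⟨h, (h' x (Subgroup.mem_zpowers x)).symm⟩
  · rintro ⟨h, h'⟩
    refine ⟨h, fun z hz => ?_⟩
    obtain ⟨m, rfl⟩ := Subgroup.mem_zpowers_iff.1 hz
    have : Commute x y := h'.symm
    exact this.zpow_left m

/-- The automorphisms `c_g`, `g ∈ C = C_G(x)`, are in `Aut_{C_F(x)}(C_S(x))`. -/
theorem centConj_mem_aut (S : Subgroup G) (x : S) (C : Subgroup G)
    (hC : ∀ g : G, g ∈ C ↔ g * x = x * g)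
    (h1 : ∀ g ∈ C, ∀ y ∈ cS S (Subgroup.zpowers (x : G)), g * y * g⁻¹ ∈
      cS S (Subgroup.zpowers (x : G))) (g : C) :
    centConj _ C h1 g ∈ ((grpFus S).cent x).aut (cS S (Subgroup.zpowers (x : G))) := by
  have hDS : cS S (Subgroup.zpowers (x : G)) ≤ S := fun y hy => hy.1
  refine Or.inr ⟨le_rfl, le_rfl, _, _, centConj _ C h1 g, le_rfl,
    mem_cS_zpowers.2 ⟨x.2, rfl⟩, ⟨hDS, hDS, g, fun y => rfl⟩, ?_, fun y => rfl⟩
  rw [centConj_apply]
  show (g : G) * x * (g : G)⁻¹ = x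
  rw [(hC g).1 g.2]
  group

/-- `F = F_S(G)`, `T = C_S(x)` normal in `C = C_G(x)`, `C/T` abelian of order prime to `p`,
`C_C(T) ≤ T`: then `Out_{C_F(x)}(T) ≅ C/T` and `z(k Out) ≥ |C : T|`. Proof: for `g ∈ C`
conjugation by `g` is in `Aut_{C_F(x)}(T)` (in the definition of `centIso` take
`P' = Q' = T`, note `x ∈ T`); this gives `f : C →* (F.cent x).Out T`. `f` is surjective: an
automorphism in `centIso x T T` extends to `ψ : P' ≃ Q'` with `x ∈ P'`, `ψ x = x`, given by
conjugation with some `g : G`, so `g ∈ C`. Kernel of `f`: if `c_g` is inner on `T`, `c_g = c_y`,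
`y ∈ T`, then `y⁻¹ g ∈ C_C(T) ≤ T`; so the kernel is `T`. The cocycle is `1`; `card_le_zNum`. -/
theorem relIndex_le_zNum [Finite G] {k : Type*} [Field k] [IsAlgClosed k] (p : ℕ) [Fact p.Prime]
    [CharP k p]
    (S : Subgroup G) (x : S) (T C : Subgroup G) (hT : T = cS S (Subgroup.zpowers (x : G)))
    (hC : ∀ g : G, g ∈ C ↔ g * x = x * g)
    (h1 : ∀ g ∈ C, ∀ y ∈ T, g * y * g⁻¹ ∈ T)
    (h2 : ∀ g ∈ C, ∀ h ∈ C, g * h * g⁻¹ * h⁻¹ ∈ T)
    (h3 : ∀ g ∈ C, (∀ y ∈ T, g * y = y * g) → g ∈ T)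
    (h4 : ¬ p ∣ T.relIndex C) :
    T.relIndex C ≤ zNum (TwAlg (centFam (grpFus S) (trivFam (grpFus S) k) x
      (cS S (Subgroup.zpowers (x : G))))) := by
  classical
  subst hT
  set D : Subgroup G := cS S (Subgroup.zpowers (x : G)) with hD
  let f0 : C →* ((grpFus S).cent x).aut D :=
    (centConj D C h1).codRestrict _ (centConj_mem_aut S x C hC h1)
  let f : C →* ((grpFus S).cent x).Out D := (QuotientGroup.mk' _).comp f0
  have hDC : ∀ y ∈ D, y ∈ C := fun y hy => (hC y).2 (mem_cS_zpowers.1 hy).2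
  have hker : ∀ g : C, f g = 1 ↔ (g : G) ∈ D := by
    intro g
    have e1 : f g = 1 ↔ f0 g ∈ ((grpFus S).cent x).inn D :=
      QuotientGroup.eq_one_iff (N := ((grpFus S).cent x).inn D) (f0 g)
    rw [e1]
    have e2 : f0 g ∈ ((grpFus S).cent x).inn D ↔
        ((f0 g : ((grpFus S).cent x).aut D) : MulAut D) ∈ (MulAut.conj (G := D)).range :=
      Subgroup.mem_subgroupOf
    rw [e2]
    constructor
    · rintro ⟨y, hy⟩
      have h5 : ∀ z : D, (y : G) * z * (y : G)⁻¹ = g * z * (g : G)⁻¹ := by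
        intro z
        have h6 := congrArg (fun φ : MulAut D => ((φ z : D) : G)) hy
        exact h6
      have h6 : (y : G)⁻¹ * g ∈ D := by
        refine h3 _ (mul_mem (inv_mem (hDC y y.2)) g.2) ?_
        intro z hz
        have h7 := h5 ⟨z, hz⟩
        have h8 : (y : G) * z * (y : G)⁻¹ = g * z * (g : G)⁻¹ := h7
        calc (y : G)⁻¹ * g * z = (y : G)⁻¹ * (g * z * (g : G)⁻¹) * g := by group
          _ = (y : G)⁻¹ * ((y : G) * z * (y : G)⁻¹) * g := by rw [h8]
          _ = z * ((y : G)⁻¹ * g) := by group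
      have h9 := mul_mem y.2 h6
      rwa [mul_inv_cancel_left] at h9
    · intro hg
      refine ⟨⟨g, hg⟩, ?_⟩
      ext z
      rfl
  have hsurj : Function.Surjective f := by
    intro q
    obtain ⟨a, rfl⟩ := QuotientGroup.mk_surjective q
    rcases a.2 with h | ⟨hP, hQ, P', Q', ψ, h, hx, ⟨hP', hQ', g, hg⟩, hψx, hφψ⟩
    · refine ⟨1, ?_⟩
      rw [map_one]
      have h5 : a = 1 := Subtype.ext h
      rw [h5]
      rfl
    · have hgC : g ∈ C := by
        rw [hC]
        have h5 := hg ⟨x, hx⟩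
        rw [hψx] at h5
        have h6 : (x : G) = g * x * g⁻¹ := h5
        calc g * (x : G) = g * x * g⁻¹ * g := by group
          _ = x * g := by rw [← h6]
      refine ⟨⟨g, hgC⟩, ?_⟩
      have h5 : f0 ⟨g, hgC⟩ = a := by
        apply Subtype.ext
        ext y
        show g * y * g⁻¹ = _
        rw [hφψ y, hg]
      show QuotientGroup.mk' _ (f0 ⟨g, hgC⟩) = _
      rw [h5]
      rfl
  have hkerD : f.ker = D.subgroupOf C := by
    ext g
    rw [MonoidHom.mem_ker, hker, Subgroup.mem_subgroupOf]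
  have hcard : Nat.card (((grpFus S).cent x).Out D) = D.relIndex C := by
    unfold Subgroup.relIndex
    rw [← hkerD, Subgroup.index_ker, MonoidHom.range_eq_top.2 hsurj]
    exact (Nat.card_congr (Subgroup.topEquiv).toEquiv).symm
  rw [← hcard]
  refine card_le_zNum (k := k) ?_ ?_ _ (fun _ _ => rfl)
  · rw [hcard, Ne, CharP.cast_eq_zero_iff k p]
    exact h4
  · intro a b
    obtain ⟨g, rfl⟩ := hsurj a
    obtain ⟨h, rfl⟩ := hsurj b
    have h5 : f (g * h * g⁻¹ * h⁻¹) = 1 := (hker _).2 (h2 g g.2 h h.2)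
    rw [map_mul, map_mul, map_mul, map_inv, map_inv] at h5
    rw [mul_inv_eq_one, mul_inv_eq_iff_eq_mul] at h5
    exact h5

end MND
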