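import Pool.Agent.W_0649c_h65.Grp

/-! MP_0649d4_al, disproof of Q1: the commutator subgroup of `S` and its class number. -/

namespace MND

variable {H : Type} [Group H] {Q Z : Subgroup H} {π : H →* Multiplicative (ZMod 3)}
  {i z : H}

/-- `⁅x, y⁆` modulo `Z`. -/
theorem ComA_swap (h : SLData H Q Z π i z) {x y : H} (hx : x ∈ Q) (hy : y ∈ Q) :
    ∃ c ∈ Z, x * y = c * (y * x) :=
  ⟨x * y * x⁻¹ * y⁻¹, h.comm_mem x hx y hy, by group⟩

/-- products of four elements of `Q` modulo `Z`, exchange of the two middle ones. -/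
theorem ComA_four (h : SLData H Q Z π i z) {a b c d : H} (hb : b ∈ Q) (hc : c ∈ Q) :
    ∃ e ∈ Z, (a * c) * (b * d) = e * ((a * b) * (c * d)) := by
  obtain ⟨e, he, hce⟩ := ComA_swap h hc hb
  refine ⟨e, he, ?_⟩
  calc (a * c) * (b * d) = a * (c * b) * d := by group
    _ = a * (e * (b * c)) * d := by rw [hce]
    _ = (a * e) * (b * c) * d := by group
    _ = (e * a) * (b * c) * d := by rw [h.central e he a]
    _ = e * ((a * b) * (c * d)) := by group

/-- the product of the two coordinates is a homomorphism modulo `Z`. -/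
theorem ComA_P (h : SLData H Q Z π i z) (n : ℕ) (u v : SS Q n) (j : Fin n) :
    ∃ e ∈ Z, ((u * v : SS Q n) : GG H n).l j * ((u * v : SS Q n) : GG H n).r j =
      e * (((u : GG H n).l j * (u : GG H n).r j) * ((v : GG H n).l j * (v : GG H n).r j)) := by
  obtain ⟨⟨a, b, s⟩, hg⟩ := u
  obtain ⟨⟨c, d, s'⟩, hg'⟩ := v
  cases s
  · show ∃ e ∈ Z, ((⟨a, b, false⟩ : GG H n) * ⟨c, d, s'⟩).l j *
        ((⟨a, b, false⟩ : GG H n) * ⟨c, d, s'⟩).r j = e * ((a j * b j) * (c j * d j))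
    rw [Wr.mul_ff]
    exact ComA_four h (hg j).2 (hg' j).1
  · show ∃ e ∈ Z, ((⟨a, b, true⟩ : GG H n) * ⟨c, d, s'⟩).l j *
        ((⟨a, b, true⟩ : GG H n) * ⟨c, d, s'⟩).r j = e * ((a j * b j) * (c j * d j))
    rw [Wr.mul_tt]
    show ∃ e ∈ Z, (a j * d j) * (b j * c j) = e * ((a j * b j) * (c j * d j))
    obtain ⟨e, he, h1⟩ := ComA_four h (a := a j) (d := c j) (hg j).2 (hg' j).2
    obtain ⟨e', he', h2⟩ := ComA_swap h (hg' j).2 (hg' j).1
    refine ⟨e * e', mul_mem he he', ?_⟩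
    calc (a j * d j) * (b j * c j) = e * ((a j * b j) * (d j * c j)) := h1
      _ = e * ((a j * b j) * (e' * (c j * d j))) := by
        show e * ((a j * b j) * (d j * c j)) = _
        have h3 : d j * c j = e' * (c j * d j) := h2
        rw [h3]
      _ = e * (((a j * b j) * e') * (c j * d j)) := by group
      _ = e * ((e' * (a j * b j)) * (c j * d j)) := by rw [h.central e' he' (a j * b j)]
      _ = e * e' * ((a j * b j) * (c j * d j)) := by group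

theorem ComA_comm (h : SLData H Q Z π i z) (n : ℕ) (u v : SS Q n) (j : Fin n) :
    ((u * v * u⁻¹ * v⁻¹ : SS Q n) : GG H n).l j * ((u * v * u⁻¹ * v⁻¹ : SS Q n) : GG H n).r j
      ∈ Z := by
  have inv : ∀ w : SS Q n, ∃ e ∈ Z, ((w⁻¹ : SS Q n) : GG H n).l j * ((w⁻¹ : SS Q n) : GG H n).r j =
      e * ((w : GG H n).l j * (w : GG H n).r j)⁻¹ := by
    intro w
    obtain ⟨e, he, h1⟩ := ComA_P h n w w⁻¹ j
    rw [mul_inv_cancel] at h1
    have h2 : (((1 : SS Q n) : GG H n).l j * ((1 : SS Q n) : GG H n).r j : H) = 1 := by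
      show (1 : H) * 1 = 1
      simp
    rw [h2] at h1
    refine ⟨e⁻¹, inv_mem he, ?_⟩
    set A := (w : GG H n).l j * (w : GG H n).r j
    set B := ((w⁻¹ : SS Q n) : GG H n).l j * ((w⁻¹ : SS Q n) : GG H n).r j
    have h3 : B = A⁻¹ * e⁻¹ := by
      have : e * A * B = 1 := by rw [mul_assoc]; exact h1.symm
      have h4 : B = (e * A)⁻¹ := eq_inv_of_mul_eq_one_right this
      rw [h4, mul_inv_rev]
    rw [h3, h.central _ (inv_mem he)]
  obtain ⟨e1, he1, h1⟩ := ComA_P h n (u * v * u⁻¹) v⁻¹ j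
  obtain ⟨e2, he2, h2⟩ := ComA_P h n (u * v) u⁻¹ j
  obtain ⟨e3, he3, h3⟩ := ComA_P h n u v j
  obtain ⟨e4, he4, h4⟩ := inv u
  obtain ⟨e5, he5, h5⟩ := inv v
  rw [h1, h2, h3, h4, h5]
  set A := (u : GG H n).l j * (u : GG H n).r j with hA
  set B := (v : GG H n).l j * (v : GG H n).r j with hB
  have hAQ : A ∈ Q := mul_mem (u.2 j).1 (u.2 j).2
  have hBQ : B ∈ Q := mul_mem (v.2 j).1 (v.2 j).2
  have h6 : e1 * (e2 * (e3 * (A * B) * (e4 * A⁻¹)) * (e5 * B⁻¹)) =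
      (e1 * e2 * e3 * e4 * e5) * (A * B * A⁻¹ * B⁻¹) := by
    calc e1 * (e2 * (e3 * (A * B) * (e4 * A⁻¹)) * (e5 * B⁻¹))
        = e1 * e2 * e3 * ((A * B) * e4) * (A⁻¹ * e5) * B⁻¹ := by group
      _ = e1 * e2 * e3 * (e4 * (A * B)) * (e5 * A⁻¹) * B⁻¹ := by
        rw [h.central e4 he4 (A * B), h.central e5 he5 A⁻¹]
      _ = e1 * e2 * e3 * e4 * ((A * B) * e5) * A⁻¹ * B⁻¹ := by group
      _ = e1 * e2 * e3 * e4 * (e5 * (A * B)) * A⁻¹ * B⁻¹ := by rw [h.central e5 he5 (A * B)]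
      _ = (e1 * e2 * e3 * e4 * e5) * (A * B * A⁻¹ * B⁻¹) := by group
  rw [h6]
  exact mul_mem (mul_mem (mul_mem (mul_mem (mul_mem he1 he2) he3) he4) he5)
    (h.comm_mem A hAQ B hBQ)

/-- `D = {(x, y) : x y ∈ Zⁿ}`. -/
def ComA_D (h : SLData H Q Z π i z) (n : ℕ) : Subgroup (SS Q n) where
  carrier := {g | (g : GG H n).s = false ∧ ∀ j, (g : GG H n).l j * (g : GG H n).r j ∈ Z}
  one_mem' := ⟨rfl, fun j => by
    show (1 : H) * 1 ∈ Z
    simp⟩
  mul_mem' := by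
    intro u v h1 h2
    refine ⟨?_, fun j => ?_⟩
    · obtain ⟨⟨a, b, s⟩, hg⟩ := u
      obtain ⟨⟨c, d, s'⟩, hg'⟩ := v
      obtain rfl : s = false := h1.1
      obtain rfl : s' = false := h2.1
      rfl
    · obtain ⟨e, he, h3⟩ := ComA_P h n u v j
      rw [h3]
      exact mul_mem he (mul_mem (h1.2 j) (h2.2 j))
  inv_mem' := by
    intro u h1
    refine ⟨?_, fun j => ?_⟩
    · obtain ⟨⟨a, b, s⟩, hg⟩ := u
      obtain rfl : s = false := h1.1
      rfl
    · obtain ⟨e, he, h3⟩ := ComA_P h n u u⁻¹ j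
      rw [mul_inv_cancel] at h3
      have h2 : (((1 : SS Q n) : GG H n).l j * ((1 : SS Q n) : GG H n).r j : H) ∈ Z := by
        show (1 : H) * 1 ∈ Z
        simp
      rw [h3] at h2
      have h4 := (Subgroup.mul_mem_cancel_left Z he).1 h2
      exact (Subgroup.mul_mem_cancel_left Z (h1.2 j)).1 h4

theorem ComA_le (h : SLData H Q Z π i z) (n : ℕ) : commutator (SS Q n) ≤ ComA_D h n := by
  rw [commutator_def, Subgroup.commutator_le]
  intro u _ v _
  rw [commutatorElement_def]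
  refine ⟨?_, fun j => ComA_comm h n u v j⟩
  obtain ⟨⟨a, b, s⟩, hg⟩ := u
  obtain ⟨⟨c, d, s'⟩, hg'⟩ := v
  show ((⟨a, b, s⟩ : GG H n) * ⟨c, d, s'⟩ * (⟨a, b, s⟩ : GG H n)⁻¹ * (⟨c, d, s'⟩ : GG H n)⁻¹).s
      = false
  cases s <;> cases s' <;> simp

theorem ComA_mem (n : ℕ) (u v : SS Q n) : u * v * u⁻¹ * v⁻¹ ∈ commutator (SS Q n) := by
  rw [← commutatorElement_def, commutator_def]
  exact Subgroup.commutator_mem_commutator (Subgroup.mem_top u) (Subgroup.mem_top v)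

variable [Finite H]

/-- `[S, S] = {(x, y) : x y ∈ Zⁿ}`. `≤`: `S/D` is abelian. `≥`: for `c ∈ Z` the element
`(single j c, 1)` is a commutator (`comm_eq`), also `(1, single j c)`; and
`(x, x⁻¹)` is the commutator of `(x, 1)` and `t`; every element of `D` is a product of such
elements. -/
theorem mem_commutator (h : SLData H Q Z π i z) (n : ℕ) (g : SS Q n) :
    g ∈ commutator (SS Q n) ↔ (g : GG H n).s = false ∧
      ∀ j, (g : GG H n).l j * (g : GG H n).r j ∈ Z := by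
  constructor
  · intro hg
    exact ComA_le h n hg
  · rintro ⟨h1, h2⟩
    obtain ⟨⟨a, b, s⟩, hg⟩ := g
    obtain rfl : s = false := h1
    have h3 : ∀ j, a j * b j ∈ Z := h2
    choose u hu v hv huv using fun j => h.comm_eq (a j * b j) (h3 j)
    let U : SS Q n := ⟨⟨1, u, false⟩, fun j => ⟨one_mem _, hu j⟩⟩
    let V : SS Q n := ⟨⟨1, v, false⟩, fun j => ⟨one_mem _, hv j⟩⟩
    let A : SS Q n := ⟨⟨a, 1, false⟩, fun j => ⟨(hg j).1, one_mem _⟩⟩
    have e1 : (⟨⟨a, b, false⟩, hg⟩ : SS Q n) = (A * tt Q n * A⁻¹ * (tt Q n)⁻¹) *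
        (U * V * U⁻¹ * V⁻¹) := by
      apply Subtype.ext
      show (⟨a, b, false⟩ : GG H n) = ((⟨a, 1, false⟩ : GG H n) * ⟨1, 1, true⟩ *
        (⟨a, 1, false⟩ : GG H n)⁻¹ * (⟨1, 1, true⟩ : GG H n)⁻¹) * ((⟨1, u, false⟩ : GG H n) *
        ⟨1, v, false⟩ * (⟨1, u, false⟩ : GG H n)⁻¹ * (⟨1, v, false⟩ : GG H n)⁻¹)
      have e2 : u * v * u⁻¹ * v⁻¹ = a * b := by
        funext j
        exact huv j
      simp only [Wr.mul_ff, Wr.mul_tt, Wr.inv_ff, Wr.inv_tt, inv_one, mul_one, one_mul, e2,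
        Bool.not_false, Bool.not_true, inv_mul_cancel_left]
    rw [e1]
    exact mul_mem (ComA_mem n A (tt Q n)) (ComA_mem n U V)

end MND
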