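import Pool.Agent.W_0649c_h65.ComA

/-! MP_0649d4_al, disproof of Q1: the commutator subgroup of `S` and its class number. -/

namespace MND

variable {H : Type} [Group H] [Finite H] {Q Z : Subgroup H} {π : H →* Multiplicative (ZMod 3)}
  {i z : H}

theorem ComS_mem (h : SLData H Q Z π i z) {n : ℕ} (g : commutator (SS Q n)) (j : Fin n) :
    ((g : SS Q n) : GG H n).l j ∈ Q ∧
      (((g : SS Q n) : GG H n).l j)⁻¹ * ((g : SS Q n) : GG H n).r j ∈ Z := by
  have h1 := (mem_commutator h n (g : SS Q n)).1 g.2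
  have h2 := (g : SS Q n).2 j
  refine ⟨h2.1, ?_⟩
  have e : (((g : SS Q n) : GG H n).l j)⁻¹ * ((g : SS Q n) : GG H n).r j =
      (((g : SS Q n) : GG H n).l j * ((g : SS Q n) : GG H n).l j)⁻¹ *
        (((g : SS Q n) : GG H n).l j * ((g : SS Q n) : GG H n).r j) := by group
  rw [e]
  exact mul_mem (inv_mem (h.sq_mem _ h2.1)) (h1.2 j)

/-- `[S, S] ≅ (Q × Z)ⁿ` by `(x, y) ↦ (x j, (x j)⁻¹ * y j)_j` (`x² ∈ Z`, `Z` central). -/
theorem commutator_equiv (h : SLData H Q Z π i z) (n : ℕ) :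
    Nonempty (commutator (SS Q n) ≃* (Fin n → Q × Z)) := by
  refine ⟨{
    toFun := fun g j => (⟨((g : SS Q n) : GG H n).l j, (ComS_mem h g j).1⟩,
      ⟨(((g : SS Q n) : GG H n).l j)⁻¹ * ((g : SS Q n) : GG H n).r j, (ComS_mem h g j).2⟩)
    invFun := fun f => ⟨⟨⟨fun j => ((f j).1 : H), fun j => ((f j).1 : H) * ((f j).2 : H), false⟩,
      fun j => ⟨(f j).1.2, mul_mem (f j).1.2 (h.Z_le (f j).2.2)⟩⟩, ?_⟩
    left_inv := ?_
    right_inv := ?_
    map_mul' := ?_ }⟩
  · rw [mem_commutator h]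
    refine ⟨rfl, fun j => ?_⟩
    show ((f j).1 : H) * (((f j).1 : H) * ((f j).2 : H)) ∈ Z
    rw [← mul_assoc]
    exact mul_mem (h.sq_mem _ (f j).1.2) (f j).2.2
  · intro g
    have h1 := (mem_commutator h n (g : SS Q n)).1 g.2
    apply Subtype.ext
    apply Subtype.ext
    apply Wr.ext
    · rfl
    · funext j
      show ((g : SS Q n) : GG H n).l j * ((((g : SS Q n) : GG H n).l j)⁻¹ *
        ((g : SS Q n) : GG H n).r j) = ((g : SS Q n) : GG H n).r j
      group
    · exact h1.1.symm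
  · intro f
    funext j
    apply Prod.ext
    · rfl
    · apply Subtype.ext
      show ((f j).1 : H)⁻¹ * (((f j).1 : H) * ((f j).2 : H)) = ((f j).2 : H)
      group
  · intro g g'
    have h1 := (mem_commutator h n (g : SS Q n)).1 g.2
    have h1' := (mem_commutator h n (g' : SS Q n)).1 g'.2
    have hl : ∀ j, (((g * g' : commutator (SS Q n)) : SS Q n) : GG H n).l j =
        ((g : SS Q n) : GG H n).l j * ((g' : SS Q n) : GG H n).l j := by
      intro j
      show (((g : SS Q n) : GG H n) * ((g' : SS Q n) : GG H n)).l j = _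
      rw [Wr.mul_def, h1.1]
      rfl
    have hr : ∀ j, (((g * g' : commutator (SS Q n)) : SS Q n) : GG H n).r j =
        ((g : SS Q n) : GG H n).r j * ((g' : SS Q n) : GG H n).r j := by
      intro j
      show (((g : SS Q n) : GG H n) * ((g' : SS Q n) : GG H n)).r j = _
      rw [Wr.mul_def, h1.1]
      rfl
    funext j
    apply Prod.ext
    · apply Subtype.ext
      exact hl j
    · apply Subtype.ext
      show ((((g * g' : commutator (SS Q n)) : SS Q n) : GG H n).l j)⁻¹ *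
        (((g * g' : commutator (SS Q n)) : SS Q n) : GG H n).r j =
        ((((g : SS Q n) : GG H n).l j)⁻¹ * ((g : SS Q n) : GG H n).r j) *
        ((((g' : SS Q n) : GG H n).l j)⁻¹ * ((g' : SS Q n) : GG H n).r j)
      rw [hl, hr]
      obtain ⟨x, hx⟩ : ∃ x, x = ((g : SS Q n) : GG H n).l j := ⟨_, rfl⟩
      obtain ⟨y, hy⟩ : ∃ y, y = ((g : SS Q n) : GG H n).r j := ⟨_, rfl⟩
      obtain ⟨x', hx'⟩ : ∃ x', x' = ((g' : SS Q n) : GG H n).l j := ⟨_, rfl⟩
      obtain ⟨y', hy'⟩ : ∃ y', y' = ((g' : SS Q n) : GG H n).r j := ⟨_, rfl⟩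
      have hz : x⁻¹ * y ∈ Z := by
        rw [hx, hy]
        exact (ComS_mem h g j).2
      rw [← hx, ← hy, ← hx', ← hy']
      have hc := h.central _ hz x'⁻¹
      calc (x * x')⁻¹ * (y * y') = (x'⁻¹ * (x⁻¹ * y)) * y' := by group
        _ = ((x⁻¹ * y) * x'⁻¹) * y' := by rw [hc]
        _ = (x⁻¹ * y) * (x'⁻¹ * y') := by rw [mul_assoc]

theorem ComS_conj {A B : Type} [Group A] [Group B] [Finite A] (e : A ≃* B) :
    Nat.card (ConjClasses A) = Nat.card (ConjClasses B) := by
  have : Finite B := Finite.of_equiv _ e.toEquiv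
  apply le_antisymm
  · exact Nat.card_le_card_of_surjective (ConjClasses.map e.symm.toMonoidHom)
      (ConjClasses.map_surjective e.symm.surjective)
  · exact Nat.card_le_card_of_surjective (ConjClasses.map e.toMonoidHom)
      (ConjClasses.map_surjective e.surjective)

/-- `c([S, S]) = 10 ^ n`: `commProb_pi`, `commProb_prod`, `commProb_def'`. -/
theorem card_classes (h : SLData H Q Z π i z) (n : ℕ) :
    Nat.card (ConjClasses (commutator (SS Q n))) = 10 ^ n := by
  obtain ⟨e⟩ := commutator_equiv h n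
  rw [ComS_conj e]
  have hZ : commProb Z = 1 := by
    rw [commProb_eq_one_iff]
    exact ⟨⟨fun a b => Subtype.ext (h.central _ b.2 _)⟩⟩
  have hQ : commProb Q = 5 / 8 := by
    rw [commProb_def', h.classes, h.cardQ]
    norm_num
  have h1 : commProb (Fin n → Q × Z) = (5 / 8) ^ n := by
    rw [commProb_function, commProb_prod, hZ, hQ, mul_one, Fintype.card_fin]
  have h2 : Nat.card (Fin n → Q × Z) = 16 ^ n := by
    rw [Nat.card_pi]
    simp [Nat.card_prod, h.cardQ, h.cardZ]
  rw [commProb_def', h2] at h1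
  have h3 : ((16 ^ n : ℕ) : ℚ) ≠ 0 := by positivity
  rw [div_eq_iff h3] at h1
  have h4 : (Nat.card (ConjClasses (Fin n → Q × Z)) : ℚ) = ((10 ^ n : ℕ) : ℚ) := by
    rw [h1]
    push_cast
    rw [← mul_pow]
    norm_num
  exact_mod_cast h4

end MND
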