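import Mathlib

/-! MP_0649d4_al: irreducible representations of `p`-groups of degree prime to `p`. -/

namespace MND

open scoped commutatorElement

/-- Schur's lemma: a linear map which commutes with an irreducible representation is a scalar. -/
theorem DegOne_scalar {Q : Type*} [Group Q] {n : ℕ}
    (ρ : Q →* ((Fin n → ℂ) →ₗ[ℂ] (Fin n → ℂ))) (hn : 0 < n)
    (hirr : ∀ W : Submodule ℂ (Fin n → ℂ), (∀ g, ∀ w ∈ W, ρ g w ∈ W) → W = ⊥ ∨ W = ⊤)
    (z : (Fin n → ℂ) →ₗ[ℂ] (Fin n → ℂ)) (hz : ∀ g w, z (ρ g w) = ρ g (z w)) :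
    ∃ μ : ℂ, ∀ w, z w = μ • w := by
  have hne : Nonempty (Fin n) := ⟨⟨0, hn⟩⟩
  have hnt : Nontrivial (Fin n → ℂ) := inferInstance
  obtain ⟨μ, hμ⟩ := Module.End.exists_eigenvalue (K := ℂ) (V := Fin n → ℂ) z
  refine ⟨μ, fun w => ?_⟩
  have h1 := hirr (Module.End.eigenspace z μ) (by
    intro g w hw
    rw [Module.End.mem_eigenspace_iff] at hw ⊢
    rw [hz, hw, map_smul])
  rcases h1 with h1 | h1
  · exact absurd h1 hμ
  · have h2 : w ∈ Module.End.eigenspace z μ := by
      rw [h1]
      trivial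
    exact Module.End.mem_eigenspace_iff.1 h2

/-- An irreducible representation of a finite `p`-group of degree prime to `p` has degree `1`.
Proof: let `P = range ρ` (a finite `p`-group). If `P` is not abelian, then
`[P, P] ∩ Z(P) ≠ 1` (a non-trivial normal subgroup of a `p`-group meets the centre); let `z ≠ 1` be
in it. By Schur's lemma (an eigenspace of `z` is invariant) `z` is a scalar `ζ`; `det z = 1` because
`z` is a product of commutators, so `ζ ^ n = 1`, and `ζ ^ (p ^ a) = 1`, so `ζ = 1`, `z = 1`,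
contradiction. So `P` is abelian, all its elements are scalars, every subspace is invariant and
`n = 1`. -/
theorem degree_one (p : ℕ) [Fact p.Prime] {Q : Type*} [Group Q] [Finite Q] (hQ : IsPGroup p Q)
    (n : ℕ) (ρ : Q →* ((Fin n → ℂ) →ₗ[ℂ] (Fin n → ℂ))) (hn : 0 < n)
    (hirr : ∀ W : Submodule ℂ (Fin n → ℂ), (∀ g, ∀ w ∈ W, ρ g w ∈ W) → W = ⊥ ∨ W = ⊤)
    (hp : ¬ p ∣ n) : n = 1 := by
  have hpp : p.Prime := Fact.out
  have hne : Nonempty (Fin n) := ⟨⟨0, hn⟩⟩
  have hnt : Nontrivial (Fin n → ℂ) := inferInstance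
  -- the image as a group of units
  let u : Q →* (Module.End ℂ (Fin n → ℂ))ˣ := MonoidHom.toHomUnits ρ
  have hu : ∀ g, ((u g : (Module.End ℂ (Fin n → ℂ))ˣ) : Module.End ℂ (Fin n → ℂ)) = ρ g :=
    fun g => rfl
  have hPfin : Finite u.range := Finite.of_surjective _ u.rangeRestrict_surjective
  have hP : IsPGroup p u.range := hQ.of_surjective _ u.rangeRestrict_surjective
  have hnil : Group.IsNilpotent u.range := hP.isNilpotent
  -- the image is abelian
  have hab : commutator u.range = ⊥ := by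
    by_contra hcon
    have hk : ¬ Group.nilpotencyClass u.range ≤ 1 := by
      intro h
      apply hcon
      rw [← Subgroup.top_lowerCentralSeries_one]
      exact (Subgroup.lowerCentralSeries_eq_bot_iff_nilpotencyClass_le).2 h
    obtain ⟨k, hk1⟩ : ∃ k, Group.nilpotencyClass u.range = k + 2 :=
      ⟨Group.nilpotencyClass u.range - 2, by omega⟩
    have h1 : Subgroup.lowerCentralSeries (⊤ : Subgroup u.range) (k + 1) ≠ ⊥ := by
      intro h
      have := (Subgroup.lowerCentralSeries_eq_bot_iff_nilpotencyClass_le).1 h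
      omega
    have h2 : Subgroup.lowerCentralSeries (⊤ : Subgroup u.range) (k + 2) = ⊥ :=
      (Subgroup.lowerCentralSeries_eq_bot_iff_nilpotencyClass_le).2 (by omega)
    obtain ⟨z, hz, hz1⟩ := (Subgroup.bot_or_exists_ne_one _).resolve_left h1
    -- `z` is central
    have hcen : ∀ g : u.range, z * g = g * z := by
      intro g
      have h3 : ⁅z, g⁆ ∈ Subgroup.lowerCentralSeries (⊤ : Subgroup u.range) (k + 2) :=
        Subgroup.commutator_mem_commutator hz (Subgroup.mem_top g)
      rw [h2, Subgroup.mem_bot] at h3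
      exact commutatorElement_eq_one_iff_mul_comm.1 h3
    -- `z` has determinant one
    have hcom : z ∈ commutator u.range := by
      rw [← Subgroup.top_lowerCentralSeries_one]
      exact Subgroup.lowerCentralSeries_antitone _ (by omega) hz
    let f : u.range →* ℂˣ :=
      (Units.map (LinearMap.det : Module.End ℂ (Fin n → ℂ) →* ℂ)).comp u.range.subtype
    have hdet : f z = 1 := Abelianization.commutator_subset_ker f hcom
    have hdet' : LinearMap.det ((z : (Module.End ℂ (Fin n → ℂ))ˣ) : Module.End ℂ (Fin n → ℂ)) = 1 := by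
      have h3 := congrArg (fun t : ℂˣ => (t : ℂ)) hdet
      simpa [f] using h3
    -- `z` is a scalar
    obtain ⟨μ, hμ⟩ := DegOne_scalar ρ hn hirr
      ((z : (Module.End ℂ (Fin n → ℂ))ˣ) : Module.End ℂ (Fin n → ℂ)) (by
        intro g w
        have h3 := hcen ⟨u g, ⟨g, rfl⟩⟩
        have h4 := congrArg (fun t : u.range => ((t : (Module.End ℂ (Fin n → ℂ))ˣ) :
          Module.End ℂ (Fin n → ℂ)) w) h3
        simpa [hu] using h4)
    have hzμ : ((z : (Module.End ℂ (Fin n → ℂ))ˣ) : Module.End ℂ (Fin n → ℂ)) =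
        μ • (1 : Module.End ℂ (Fin n → ℂ)) := by
      refine LinearMap.ext fun w => ?_
      rw [hμ]
      rfl
    have hμn : μ ^ n = 1 := by
      rw [hzμ, LinearMap.det_smul] at hdet'
      simpa using hdet'
    obtain ⟨a, ha⟩ := hP z
    have hμp : μ ^ (p ^ a) = 1 := by
      have h3 := congrArg (fun t : u.range => ((t : (Module.End ℂ (Fin n → ℂ))ˣ) :
          Module.End ℂ (Fin n → ℂ))) ha
      have h4 : (μ • (1 : Module.End ℂ (Fin n → ℂ))) ^ (p ^ a) = 1 := by
        rw [← hzμ]
        simpa using h3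
      rw [smul_pow, one_pow] at h4
      obtain ⟨v, hv⟩ := exists_ne (0 : Fin n → ℂ)
      have h5 := congrArg (fun t : Module.End ℂ (Fin n → ℂ) => t v) h4
      have h6 : μ ^ (p ^ a) • v = (1 : ℂ) • v := by simpa using h5
      exact smul_left_injective ℂ hv h6
    have hμ1 : μ = 1 := by
      have h3 : orderOf μ ∣ n := orderOf_dvd_of_pow_eq_one hμn
      have h4 : orderOf μ ∣ p ^ a := orderOf_dvd_of_pow_eq_one hμp
      have h5 : Nat.Coprime n (p ^ a) :=
        (Nat.Coprime.pow_left a ((Nat.Prime.coprime_iff_not_dvd hpp).2 hp)).symm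
      have h6 := Nat.dvd_gcd h3 h4
      rw [h5.gcd_eq_one, Nat.dvd_one] at h6
      exact orderOf_eq_one_iff.1 h6
    apply hz1
    apply Subtype.ext
    apply Units.ext
    rw [hzμ, hμ1, one_smul]
    rfl
  -- all elements of the image are scalars
  have hsc : ∀ g, ∃ μ : ℂ, ∀ w, ρ g w = μ • w := by
    intro g
    refine DegOne_scalar ρ hn hirr (ρ g) fun h w => ?_
    have h1 : ⁅(⟨u g, ⟨g, rfl⟩⟩ : u.range), (⟨u h, ⟨h, rfl⟩⟩ : u.range)⁆ ∈ commutator u.range :=
      Subgroup.commutator_mem_commutator (Subgroup.mem_top _) (Subgroup.mem_top _)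
    rw [hab, Subgroup.mem_bot] at h1
    have h3 := commutatorElement_eq_one_iff_mul_comm.1 h1
    have h4 := congrArg (fun t : u.range => ((t : (Module.End ℂ (Fin n → ℂ))ˣ) :
          Module.End ℂ (Fin n → ℂ)) w) h3
    simpa [hu] using h4
  obtain ⟨v, hv⟩ := exists_ne (0 : Fin n → ℂ)
  rcases hirr (Submodule.span ℂ {v}) (by
    intro g w hw
    obtain ⟨μ, hμ⟩ := hsc g
    rw [hμ]
    exact Submodule.smul_mem _ _ hw) with h | h
  · exfalso
    rw [Submodule.span_singleton_eq_bot] at h
    exact hv h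
  · have h1 := finrank_span_singleton (K := ℂ) hv
    rw [h, finrank_top, Module.finrank_fin_fun] at h1
    exact h1

end MND
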