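import Pool.Agent.W_0649c_h65.LinA

/-! MP_0649d4_al, disproof of Q1: the orbits of `Out_F(S)` on the linear characters of `S`. -/

namespace MND

open MNF

variable {H : Type} [Group H] [Finite H] {Q Z : Subgroup H} {π : H →* Multiplicative (ZMod 3)}
  {i z : H} {n : ℕ}

omit [Finite H] in
/-- Conjugation of `t` by `(l, r, 1)`. -/
theorem LinC_conj_tt (l r : Fin n → H) :
    (⟨l, r, false⟩ : GG H n) * (⟨1, 1, true⟩ : GG H n) * (⟨l, r, false⟩ : GG H n)⁻¹ =
      ⟨l * r⁻¹, r * l⁻¹, true⟩ := by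
  rw [Wr.mul_ff, Wr.inv_ff, Wr.mul_tt, mul_one, mul_one]
  rfl

omit [Finite H] in
/-- Conjugation of `(single j q, 1, 1)` by `(l, r, 1)`. -/
theorem LinC_conj_single (l r : Fin n → H) (j : Fin n) (q : H) :
    (⟨l, r, false⟩ : GG H n) * (⟨Pi.mulSingle j q, 1, false⟩ : GG H n) *
      (⟨l, r, false⟩ : GG H n)⁻¹ = ⟨Pi.mulSingle j (l j * q * (l j)⁻¹), 1, false⟩ := by
  rw [Wr.mul_ff, Wr.inv_ff, Wr.mul_ff, mul_one, mul_inv_cancel]
  congr 1
  funext m
  by_cases hm : m = j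
  · subst hm
    rw [Pi.mulSingle_eq_same, Pi.mul_apply, Pi.mul_apply, Pi.mulSingle_eq_same, Pi.inv_apply]
  · rw [Pi.mulSingle_eq_of_ne hm, Pi.mul_apply, Pi.mul_apply, Pi.mulSingle_eq_of_ne hm,
      Pi.inv_apply, mul_one, mul_inv_cancel]

omit [Finite H] in
/-- Two automorphisms in `Aut_F(S)` which are conjugations by `g`, `g u`, `u ∈ S`, have the same
class in `Out_F(S)`. -/
theorem LinC_same (a b : (FF Q n).aut (SS Q n)) (g g' : GG H n)
    (ha : ∀ y : SS Q n, (((a : MulAut (SS Q n)) y : SS Q n) : GG H n) = g * y * g⁻¹)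
    (hb : ∀ y : SS Q n, (((b : MulAut (SS Q n)) y : SS Q n) : GG H n) = g' * y * g'⁻¹)
    (hu : g⁻¹ * g' ∈ SS Q n) :
    (QuotientGroup.mk a : (FF Q n).Out (SS Q n)) = QuotientGroup.mk b := by
  rw [QuotientGroup.eq]
  refine Subgroup.mem_subgroupOf.mpr ⟨⟨g⁻¹ * g', hu⟩, ?_⟩
  have h1 : (a : MulAut (SS Q n)) * MulAut.conj (⟨g⁻¹ * g', hu⟩ : SS Q n) =
      (b : MulAut (SS Q n)) := by
    refine MulEquiv.ext fun y => Subtype.ext ?_
    show (((a : MulAut (SS Q n)) ((⟨g⁻¹ * g', hu⟩ : SS Q n) * y * (⟨g⁻¹ * g', hu⟩ : SS Q n)⁻¹) :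
      SS Q n) : GG H n) = (((b : MulAut (SS Q n)) y : SS Q n) : GG H n)
    rw [ha, hb]
    show g * ((g⁻¹ * g') * (y : GG H n) * (g⁻¹ * g')⁻¹) * g⁻¹ = g' * (y : GG H n) * g'⁻¹
    group
  show MulAut.conj (⟨g⁻¹ * g', hu⟩ : SS Q n) = (a : MulAut (SS Q n))⁻¹ * (b : MulAut (SS Q n))
  rw [← h1, inv_mul_cancel_left]

omit [Finite H] in
/-- Every element of `I(μ)` is the class of some `a` with `μ ∘ a = μ` which is conjugation by
some `(l, r, 1)`. -/
theorem LinC_rep (μ : SS Q n →* ℂˣ) (x : (FF Q n).Out (SS Q n)) (hx : x ∈ linStab (FF Q n) μ) :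
    ∃ (l r : Fin n → H) (a : (FF Q n).aut (SS Q n)), QuotientGroup.mk a = x ∧
      (∀ y : SS Q n, (((a : MulAut (SS Q n)) y : SS Q n) : GG H n) =
        (⟨l, r, false⟩ : GG H n) * y * (⟨l, r, false⟩ : GG H n)⁻¹) ∧
      ∀ y : SS Q n, μ ((a : MulAut (SS Q n)) y) = μ y := by
  obtain ⟨a, ha, hax⟩ := hx
  have hμ : ∀ y : SS Q n, μ ((a : MulAut (SS Q n)) y) = μ y := ha
  have hg : ∃ g : GG H n, ∀ y : SS Q n,
      (((a : MulAut (SS Q n)) y : SS Q n) : GG H n) = g * y * g⁻¹ := by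
    rcases a.2 with h1 | h1
    · refine ⟨1, fun y => ?_⟩
      have h2 : (a : MulAut (SS Q n)) = 1 := h1
      rw [h2]
      show (y : GG H n) = 1 * (y : GG H n) * 1⁻¹
      group
    · exact h1.2.2
  obtain ⟨⟨l, r, s⟩, hg⟩ := hg
  cases s
  · exact ⟨l, r, a, hax, hg, hμ⟩
  · have htt : MulAut.conj (tt Q n) ∈ (FF Q n).aut (SS Q n) :=
      Or.inr ⟨le_rfl, le_rfl, (tt Q n : GG H n), fun y => rfl⟩
    refine ⟨l, r, a * ⟨MulAut.conj (tt Q n), htt⟩, ?_, fun y => ?_, fun y => ?_⟩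
    · have h3 : (QuotientGroup.mk a : (FF Q n).Out (SS Q n)) =
          QuotientGroup.mk (a * ⟨MulAut.conj (tt Q n), htt⟩) := by
        rw [QuotientGroup.eq, inv_mul_cancel_left]
        exact Subgroup.mem_subgroupOf.mpr ⟨tt Q n, rfl⟩
      rw [← h3]
      exact hax
    · show (((a : MulAut (SS Q n)) (tt Q n * y * (tt Q n)⁻¹) : SS Q n) : GG H n) = _
      rw [hg]
      have h4 : (⟨l, r, true⟩ : GG H n) = (⟨l, r, false⟩ : GG H n) * (tt Q n : GG H n) := by
        show (⟨l, r, true⟩ : GG H n) = (⟨l, r, false⟩ : GG H n) * (⟨1, 1, true⟩ : GG H n)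
        rw [Wr.mul_ff, mul_one, mul_one]
      have h5 : (tt Q n : GG H n) * (tt Q n : GG H n) = 1 := by
        show ((tt Q n * tt Q n : SS Q n) : GG H n) = 1
        rw [LinA_tt_mul]
        rfl
      have h6 : (tt Q n : GG H n)⁻¹ = (tt Q n : GG H n) := inv_eq_of_mul_eq_one_left h5
      rw [h4]
      show (⟨l, r, false⟩ : GG H n) * (tt Q n : GG H n) *
        ((tt Q n : GG H n) * (y : GG H n) * (tt Q n : GG H n)⁻¹) *
          ((⟨l, r, false⟩ : GG H n) * (tt Q n : GG H n))⁻¹ = _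
      rw [mul_inv_rev, h6]
      calc (⟨l, r, false⟩ : GG H n) * (tt Q n : GG H n) *
            ((tt Q n : GG H n) * (y : GG H n) * (tt Q n : GG H n)) *
              ((tt Q n : GG H n) * (⟨l, r, false⟩ : GG H n)⁻¹)
          = (⟨l, r, false⟩ : GG H n) * ((tt Q n : GG H n) * (tt Q n : GG H n)) *
            (y : GG H n) * ((tt Q n : GG H n) * (tt Q n : GG H n)) *
              (⟨l, r, false⟩ : GG H n)⁻¹ := by simp only [mul_assoc]
        _ = _ := by rw [h5, mul_one, mul_one]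
    · show μ ((a : MulAut (SS Q n)) (tt Q n * y * (tt Q n)⁻¹)) = μ y
      rw [hμ, map_mul, map_mul, map_inv, mul_inv_cancel_comm]

omit [Finite H] in
/-- If conjugation by `(l, r, 1)` maps `t` into `S` then `π ∘ l = π ∘ r`. -/
theorem LinC_lr (h : SLData H Q Z π i z) (l r : Fin n → H)
    (hm : (⟨l, r, false⟩ : GG H n) * (⟨1, 1, true⟩ : GG H n) * (⟨l, r, false⟩ : GG H n)⁻¹ ∈
      SS Q n) (j : Fin n) : π (l j) = π (r j) := by
  rw [LinC_conj_tt, mem_SS] at hm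
  have h1 : l j * (r j)⁻¹ ∈ Q := (hm j).1
  rw [← h.ker, map_mul, map_inv] at h1
  exact mul_inv_eq_one.mp h1

omit [Finite H] in
/-- If `μ ∘ a = μ`, `a` = conjugation by `(l, r, 1)`, then `π (l j) = 1` for `j` in the support. -/
theorem LinC_supp (h : SLData H Q Z π i z) (μ : SS Q n →* ℂˣ) (a : MulAut (SS Q n))
    (l r : Fin n → H)
    (ha : ∀ y : SS Q n, ((a y : SS Q n) : GG H n) =
      (⟨l, r, false⟩ : GG H n) * y * (⟨l, r, false⟩ : GG H n)⁻¹)
    (hμ : ∀ y : SS Q n, μ (a y) = μ y) (j : Fin n) (hj : j ∈ supp μ) : π (l j) = 1 := by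
  classical
  have hj' : comp μ j ≠ 1 := by
    unfold supp at hj
    exact (Finset.mem_filter.1 hj).2
  rw [h.ker]
  refine h.lin_stab (comp μ j) hj' (l j) fun x y hxy => ?_
  have h1 : a (incl j x) = incl j y := by
    apply Subtype.ext
    rw [ha]
    show (⟨l, r, false⟩ : GG H n) * (⟨Pi.mulSingle j (x : H), 1, false⟩ : GG H n) *
      (⟨l, r, false⟩ : GG H n)⁻¹ = ⟨Pi.mulSingle j (y : H), 1, false⟩
    rw [LinC_conj_single, hxy]
  show μ (incl j y) = μ (incl j x)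
  rw [← h1, hμ]

/-- `|I(μ)| ≤ 3 ^ (n - |supp μ|)`. Every `a ∈ Aut_F(S)` is conjugation by some `g = (g₁, g₂, 1)`
(multiply by `t ∈ S`, which changes `a` by an inner automorphism); as `g t g⁻¹ ∈ S`,
`g₁ g₂⁻¹ ∈ Qⁿ`, i.e. `π (g₁ j) = π (g₂ j)`. If `g, g'` have the same `π ∘ g₁` then `a, a'` differ by
an inner automorphism. If `μ ∘ a = μ` then `g₁ j ∈ Q` for `j ∈ supp μ` (`lin_stab`). So `I(μ)`
injects into the functions `c : Fin n → C₃` with `c j = 1` on the support. -/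
theorem card_linStab (h : SLData H Q Z π i z) (μ : SS Q n →* ℂˣ) :
    Nat.card (linStab (FF Q n) μ) ≤ 3 ^ (n - (supp μ).card) := by
  classical
  have hrep : ∀ x : linStab (FF Q n) μ, _ := fun x => LinC_rep μ x.1 x.2
  choose l r a hax hconj hμ using hrep
  have hlr : ∀ x j, π (l x j) = π (r x j) := by
    intro x j
    refine LinC_lr h (l x) (r x) ?_ j
    have h1 := hconj x (tt Q n)
    have h2 : (⟨l x, r x, false⟩ : GG H n) * (⟨1, 1, true⟩ : GG H n) *
        (⟨l x, r x, false⟩ : GG H n)⁻¹ =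
          (((a x : MulAut (SS Q n)) (tt Q n) : SS Q n) : GG H n) := h1.symm
    rw [h2]
    exact ((a x : MulAut (SS Q n)) (tt Q n)).2
  have hsupp : ∀ x j, j ∈ supp μ → π (l x j) = 1 := fun x j hj =>
    LinC_supp h μ (a x : MulAut (SS Q n)) (l x) (r x) (hconj x) (hμ x) j hj
  let Ψ : linStab (FF Q n) μ → ({j // j ∉ supp μ} → Multiplicative (ZMod 3)) :=
    fun x j => π (l x j.1)
  have hinj : Function.Injective Ψ := by
    intro x x' hxx
    have h1 : ∀ j, π (l x j) = π (l x' j) := by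
      intro j
      by_cases hj : j ∈ supp μ
      · rw [hsupp x j hj, hsupp x' j hj]
      · exact congrFun hxx ⟨j, hj⟩
    have h2 : ∀ j, π (r x j) = π (r x' j) := fun j => by rw [← hlr, ← hlr, h1]
    apply Subtype.ext
    rw [← hax x, ← hax x']
    refine LinC_same (a x) (a x') _ _ (hconj x) (hconj x') ?_
    rw [Wr.inv_ff, Wr.mul_ff, mem_SS]
    intro j
    constructor
    · show (l x j)⁻¹ * l x' j ∈ Q
      rw [← h.ker, map_mul, map_inv, h1, inv_mul_cancel]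
    · show (r x j)⁻¹ * r x' j ∈ Q
      rw [← h.ker, map_mul, map_inv, h2, inv_mul_cancel]
  have hcard : Nat.card ({j // j ∉ supp μ} → Multiplicative (ZMod 3)) =
      3 ^ (n - (supp μ).card) := by
    rw [Nat.card_fun, Nat.card_eq_fintype_card (α := {j // j ∉ supp μ}),
      Fintype.card_subtype_compl, Fintype.card_fin, Fintype.card_coe]
    congr 1
    rw [Nat.card_congr Multiplicative.toAdd, Nat.card_zmod]
  rw [← hcard]
  exact Nat.card_le_card_of_injective Ψ hinj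

end MND
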