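import Pool.Agent.W_0649d4.Defs

/-! MP_0649d4_al, disproof of Q1: the fusion system of a finite group. -/

namespace MND

open MNF

variable {G : Type*} [Group G]

/-- The fusion system `F_S(G)`: all isomorphisms between subgroups of `S` which are conjugations by
elements of `G`. -/
def grpFus (S : Subgroup G) : FusionSystem S where
  iso P Q := {φ | P ≤ S ∧ Q ≤ S ∧ ∃ g : G, ∀ x : P, (φ x : G) = g * x * g⁻¹}
  le_left h := h.1
  conj_mem := by
    intro P Q s φ hs hP h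
    refine ⟨hP, ?_, s, h⟩
    intro y hy
    have h1 := h (φ.symm ⟨y, hy⟩)
    rw [MulEquiv.apply_symm_apply] at h1
    have h2 : y = s * (φ.symm ⟨y, hy⟩ : P) * s⁻¹ := h1
    rw [h2]
    exact mul_mem (mul_mem hs (hP (φ.symm ⟨y, hy⟩).2)) (inv_mem hs)
  symm_mem := by
    rintro P Q φ ⟨hP, hQ, g, h⟩
    refine ⟨hQ, hP, g⁻¹, fun y => ?_⟩
    have h1 := h (φ.symm y)
    rw [MulEquiv.apply_symm_apply] at h1
    rw [h1]
    group
  trans_mem := by
    rintro P Q R φ ψ ⟨hP, _, g, h⟩ ⟨_, hR, g', h'⟩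
    refine ⟨hP, hR, g' * g, fun y => ?_⟩
    rw [MulEquiv.trans_apply, h', h]
    group
  res_mem := by
    rintro P Q P' Q' φ ψ h ⟨hP, hQ, g, h1⟩ h2
    refine ⟨h.trans hP, ?_, g, fun x => ?_⟩
    · intro y hy
      have h3 := h2 (ψ.symm ⟨y, hy⟩)
      rw [MulEquiv.apply_symm_apply] at h3
      have h4 : y = (φ ⟨(ψ.symm ⟨y, hy⟩ : P'), h (ψ.symm ⟨y, hy⟩).2⟩ : G) := h3
      rw [h4]
      exact hQ (φ _).2
    · rw [h2, h1]

theorem mem_grpFus {S P Q : Subgroup G} {φ : P ≃* Q} :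
    φ ∈ (grpFus S).iso P Q ↔ P ≤ S ∧ Q ≤ S ∧ ∃ g : G, ∀ x : P, (φ x : G) = g * x * g⁻¹ := Iff.rfl

/-- Conjugation by `g` as an isomorphism of `P` onto `g P g⁻¹`. -/
noncomputable def conjIso (g : G) (P : Subgroup G) :
    P ≃* (P.map (MulAut.conj g).toMonoidHom : Subgroup G) :=
  P.equivMapOfInjective (MulAut.conj g).toMonoidHom (MulAut.conj g).injective

theorem conjIso_apply (g : G) (P : Subgroup G) (x : P) : (conjIso g P x : G) = g * x * g⁻¹ := rfl

/-- `F`-conjugate elements are `G`-conjugate, and conversely. -/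
theorem grpFus_conjEl {S : Subgroup G} {x y : G} (hx : x ∈ S) (hy : y ∈ S) :
    (grpFus S).ConjEl x y ↔ ∃ g : G, g * x * g⁻¹ = y := by
  constructor
  · rintro ⟨P, Q, φ, h, ⟨_, _, g, hg⟩, hxy⟩
    exact ⟨g, by rw [← hxy, hg]⟩
  · rintro ⟨g, hg⟩
    refine ⟨Subgroup.zpowers x, _, conjIso g _, Subgroup.mem_zpowers x, ⟨?_, ?_, g, fun z => rfl⟩,
      by rw [conjIso_apply]; exact hg⟩
    · rw [Subgroup.zpowers_le]; exact hx
    · rintro _ ⟨z, hz, rfl⟩
      obtain ⟨m, rfl⟩ := Subgroup.mem_zpowers_iff.1 hz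
      show g * x ^ m * g⁻¹ ∈ S
      rw [← conj_zpow, hg]
      exact zpow_mem hy m

/-- The trivial cocycle. -/
def trivC (H k : Type*) [Group H] [Field k] : Cocycle H k where
  toFun _ _ := 1
  cocycle _ _ _ := rfl

/-- The trivial family. -/
def trivFam {S : Subgroup G} (F : FusionSystem S) (k : Type*) [Field k] :
    ∀ P : Subgroup G, Cocycle (F.Out P) k := fun P => trivC (F.Out P) k

theorem compatible_trivFam {S : Subgroup G} (F : FusionSystem S) (k : Type*) [Field k] :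
    Compatible F (trivFam F k) := by
  intro Q R _ _ _ _
  refine ⟨fun _ => 1, fun a b _ _ a' b' _ _ => ?_⟩
  show (1 : kˣ) = 1 * (1 * 1 * 1⁻¹)
  simp

end MND
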