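import Pool.Agent.W_0649d4.AMaschke
import Pool.Agent.W_0649c_h65.GrpFus

/-! MP_0649d4_al, disproof of Q1: the numbers `z(k E)`. -/

namespace MND

open MNF

variable {k : Type*} [Field k]

private theorem ZAbB_aux1 (k : Type*) [Field k] (A : Type*) [Ring A] [Algebra k A]
    [FiniteDimensional k A] : lNum A ≤ Module.finrank k A := by
  classical
  have key : ∀ t : Finset (Quotient (simpleSetoid A)),
      Module.finrank k ((t.inf (fun c => (c.out.1 : Submodule A A))).restrictScalars k) + t.card ≤
        Module.finrank k A := by
    intro t
    induction t using Finset.induction_on with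
    | empty =>
      rw [Finset.card_empty, add_zero]
      exact Submodule.finrank_le _
    | insert c t hc ih =>
      rw [Finset.card_insert_of_notMem hc, Finset.inf_insert]
      set N := t.inf (fun c => (c.out.1 : Submodule A A)) with hN
      have h1 : ¬ N ≤ c.out.1 := by
        intro h
        obtain ⟨i, hi, ⟨e⟩⟩ := exists_iso_of_inf_le (fun c : Quotient (simpleSetoid A) =>
          (c.out.1 : Submodule A A)) (fun c => c.out.2) c.out.1 c.out.2 t h
        apply hc
        have h2 : i = c := by
          rw [← Quotient.out_eq i, ← Quotient.out_eq c]
          exact Quotient.sound ⟨e⟩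
        rw [← h2]; exact hi
      have h2 : (c.out.1 ⊓ N).restrictScalars k < N.restrictScalars k := by
        refine lt_of_le_of_ne (fun x hx => hx.2) ?_
        intro h3
        apply h1
        intro x hx
        have h4 : x ∈ N.restrictScalars k := hx
        rw [← h3] at h4
        exact h4.1
      have h3 := Submodule.finrank_lt_finrank_of_lt h2
      omega
  have := finite_simple k A
  have := Fintype.ofFinite (Quotient (simpleSetoid A))
  have h := key Finset.univ
  unfold lNum
  rw [Nat.card_eq_fintype_card]
  rw [Finset.card_univ] at h
  omega

/-- `z ≤ l ≤ dim`: see the proof of `finite_simple` in `W_0649d4.ABasic` (the intersection of `n`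
maximal left ideals with pairwise non-isomorphic quotients has codimension at least `n`). -/
theorem zNum_le_card {E : Type*} [Group E] [Finite E] (β : Cocycle E k) :
    zNum (TwAlg β) ≤ Nat.card E := by
  have h1 := zNum_le_lNum k (TwAlg β)
  have h2 := ZAbB_aux1 k (TwAlg β)
  have h3 : Module.finrank k (TwAlg β) = Nat.card E := by
    have := Fintype.ofFinite E
    have h4 : Module.finrank k (E →₀ k) = Nat.card E := by
      rw [Module.finrank_finsupp_self, Nat.card_eq_fintype_card]
    exact h4
  omega

end MND
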