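import Pool.Agent.W_0649c_h65.LinB
import Pool.Agent.W_0649c_h65.LinC
import Pool.Agent.W_0649c_h65.ZAbB

/-! MP_0649d4_al, disproof of Q1: the value of `m(F, 1, d)`. -/

namespace MND

open MNF

variable {H : Type} [Group H] [Finite H] {Q Z : Subgroup H} {π : H →* Multiplicative (ZMod 3)}
  {i z : H}

/-- `∑_J 3 ^ (n - |J|) = 4 ^ n`. -/
theorem MTop_sum (n : ℕ) : ∑ J : Finset (Fin n), 3 ^ (n - J.card) = 4 ^ n := by
  have h := Finset.sum_pow_mul_eq_add_pow (1 : ℕ) 3 (Finset.univ : Finset (Fin n))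
  rw [Finset.powerset_univ, Finset.card_univ, Fintype.card_fin] at h
  simp only [one_pow, one_mul] at h
  exact h

open Classical in
/-- The map `μ ↦ (supp μ, μ(t) = 1)`. -/
noncomputable def MTop_map {H : Type} [Group H] {Q : Subgroup H} {n : ℕ} (μ : SS Q n →* ℂˣ) :
    Finset (Fin n) × Bool := (supp μ, decide (μ (tt Q n) = 1))

/-- `μ ↦ (supp μ, μ(t) = 1)` is injective on the transversal. -/
theorem MTop_inj (h : SLData H Q Z π i z) (n : ℕ) (W : Finset (SS Q n →* ℂˣ))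
    (hW : IsLinTransversal (FF Q n) W) :
    ∀ μ ∈ W, ∀ ν ∈ W, MTop_map μ = MTop_map ν → μ = ν := by
  intro μ hμ ν hν hm
  have hs : supp μ = supp ν := congrArg Prod.fst hm
  have hd : decide (μ (tt Q n) = 1) = decide (ν (tt Q n) = 1) := congrArg Prod.snd hm
  have hd' : (μ (tt Q n) = 1) ↔ (ν (tt Q n) = 1) := by
    simpa only [decide_eq_decide] using hd
  have ht : μ (tt Q n) = ν (tt Q n) := by
    rcases lin_tt μ with h1 | h1
    · rw [h1, hd'.1 h1]
    · rcases lin_tt ν with h2 | h2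
      · rw [h2, hd'.2 h2]
      · rw [h1, h2]
  obtain ⟨a, ha⟩ := exists_aut h μ ν hs ht
  obtain ⟨ρ, -, huniq⟩ := hW μ
  have h1 : μ = ρ := huniq μ ⟨hμ, 1, fun y => rfl⟩
  have h2 : ν = ρ := huniq ν ⟨hν, a, ha⟩
  rw [h1, h2]

/-- `m ≤ 2 * 4 ^ n`: `zNum_le_card`, `card_linStab`; `μ ↦ (supp μ, μ(t) = 1)` is injective on `W`
(`exists_aut`, `lin_tt`, uniqueness in `IsLinTransversal`), and
`∑_J 3 ^ (n - |J|) = 4 ^ n` (`Finset.sum_pow_mul_eq_add_pow` or `Fintype.sum_pow_mul_eq_add_pow`). -/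
theorem mTop_le (h : SLData H Q Z π i z) (n : ℕ) {k : Type*} [Field k]
    (W : Finset (SS Q n →* ℂˣ)) (hW : IsLinTransversal (FF Q n) W) :
    mTop (FF Q n) (trivFam (FF Q n) k) W ≤ 2 * 4 ^ n := by
  classical
  unfold mTop
  have h1 : ∀ μ ∈ W, zNum (TwAlg ((trivFam (FF Q n) k (SS Q n)).comap
      (linStab (FF Q n) μ).subtype)) ≤ 3 ^ (n - (MTop_map μ).1.card) := by
    intro μ _
    exact (zNum_le_card _).trans (card_linStab h μ)
  refine (Finset.sum_le_sum h1).trans ?_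
  have h2 : ∑ μ ∈ W, 3 ^ (n - (MTop_map μ).1.card) =
      ∑ p ∈ W.image MTop_map, 3 ^ (n - p.1.card) := by
    rw [Finset.sum_image]
    intro μ hμ ν hν hm
    exact MTop_inj h n W hW μ hμ ν hν hm
  rw [h2]
  refine (Finset.sum_le_univ_sum_of_nonneg (fun p => Nat.zero_le _)).trans ?_
  rw [Fintype.sum_prod_type]
  simp only [Finset.sum_const, Finset.card_univ, Fintype.card_bool, smul_eq_mul]
  rw [← Finset.mul_sum, MTop_sum]

end MND
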