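import Pool.Agent.W_0649c_h65.Grp

/-! MP_0649d4_al, disproof of Q1: existence of `SL₂(3)`. -/

namespace MND

/-- The model of `SL₂(3) = Q₈ ⋊ C₃`: quadruples `(v₁, v₂, z, s)`. -/
def Model_T : Type := (Bool × Bool × Bool) × Fin 3

instance Model_fin : Fintype Model_T := inferInstanceAs (Fintype ((Bool × Bool × Bool) × Fin 3))

instance Model_dec : DecidableEq Model_T :=
  inferInstanceAs (DecidableEq ((Bool × Bool × Bool) × Fin 3))

/-- The action of `C₃`. -/
def Model_act (s : Fin 3) (x : Bool × Bool × Bool) : Bool × Bool × Bool :=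
  if s = 0 then x else if s = 1 then (x.2.1, xor x.1 x.2.1, x.2.2)
  else (xor x.1 x.2.1, x.1, x.2.2)

/-- The multiplication of `Q₈`. -/
def Model_q (x y : Bool × Bool × Bool) : Bool × Bool × Bool :=
  (xor x.1 y.1, xor x.2.1 y.2.1,
    xor (xor x.2.2 y.2.2) (xor (xor (x.1 && y.1) (x.1 && y.2.1)) (x.2.1 && y.2.1)))

/-- The inverse of `Q₈`. -/
def Model_qi (x : Bool × Bool × Bool) : Bool × Bool × Bool :=
  (x.1, x.2.1, xor x.2.2 (x.1 || x.2.1))

theorem Model_q_assoc : ∀ x y z : Bool × Bool × Bool,
    Model_q (Model_q x y) z = Model_q x (Model_q y z) := by decide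

theorem Model_act_q : ∀ (s : Fin 3) (x y : Bool × Bool × Bool),
    Model_act s (Model_q x y) = Model_q (Model_act s x) (Model_act s y) := by decide

theorem Model_act_add : ∀ (s t : Fin 3) (x : Bool × Bool × Bool),
    Model_act (s + t) x = Model_act s (Model_act t x) := by decide

theorem Model_one_q : ∀ x : Bool × Bool × Bool, Model_q (false, false, false) x = x := by decide

theorem Model_inv_q : ∀ (s : Fin 3) (x : Bool × Bool × Bool),
    Model_q (Model_act (-s) (Model_qi x)) (Model_act (-s) x) = (false, false, false) := by decide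

instance Model_grp : Group Model_T where
  mul x y := (Model_q x.1 (Model_act x.2 y.1), x.2 + y.2)
  one := ((false, false, false), 0)
  inv x := (Model_act (-x.2) (Model_qi x.1), -x.2)
  mul_assoc x y z := by
    refine Prod.ext ?_ ?_
    · change Model_q (Model_q x.1 (Model_act x.2 y.1)) (Model_act (x.2 + y.2) z.1) =
        Model_q x.1 (Model_act x.2 (Model_q y.1 (Model_act y.2 z.1)))
      rw [Model_act_add, Model_act_q, Model_q_assoc]
    · exact add_assoc _ _ _
  one_mul x := by
    refine Prod.ext ?_ ?_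
    · change Model_q (false, false, false) (Model_act 0 x.1) = x.1
      rw [Model_one_q]
      rfl
    · exact zero_add _
  mul_one x := by
    obtain ⟨x, s⟩ := x
    refine Prod.ext ?_ ?_
    · change Model_q x (Model_act s (false, false, false)) = x
      revert s x
      decide
    · exact add_zero _
  inv_mul_cancel x := by
    obtain ⟨x, s⟩ := x
    refine Prod.ext ?_ ?_
    · exact Model_inv_q s x
    · exact neg_add_cancel _

/-- The projection to `C₃`. -/
def Model_pi : Model_T →* Multiplicative (ZMod 3) where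
  toFun x := Multiplicative.ofAdd (x.2 : ZMod 3)
  map_one' := rfl
  map_mul' _ _ := rfl

/-- `O₂`. -/
def Model_Q : Subgroup Model_T where
  carrier := {x | x.2 = 0}
  one_mem' := rfl
  mul_mem' := by
    intro x y hx hy
    change x.2 + y.2 = 0
    rw [show x.2 = 0 from hx, show y.2 = 0 from hy]
    rfl
  inv_mem' := by
    intro x hx
    change -x.2 = 0
    rw [show x.2 = 0 from hx]
    rfl

/-- The centre. -/
def Model_Z : Subgroup Model_T where
  carrier := {x | x.2 = 0 ∧ x.1.1 = false ∧ x.1.2.1 = false}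
  one_mem' := ⟨rfl, rfl, rfl⟩
  mul_mem' := by
    have h : ∀ x y : Model_T, (x.2 = 0 ∧ x.1.1 = false ∧ x.1.2.1 = false) →
        (y.2 = 0 ∧ y.1.1 = false ∧ y.1.2.1 = false) →
        ((x * y).2 = 0 ∧ (x * y).1.1 = false ∧ (x * y).1.2.1 = false) := by decide +kernel
    exact fun {x y} => h x y
  inv_mem' := by
    have h : ∀ x : Model_T, (x.2 = 0 ∧ x.1.1 = false ∧ x.1.2.1 = false) →
        ((x⁻¹).2 = 0 ∧ (x⁻¹).1.1 = false ∧ (x⁻¹).1.2.1 = false) := by decide +kernel
    exact fun {x} => h x

instance Model_decQ : DecidablePred (· ∈ Model_Q) :=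
  fun x => inferInstanceAs (Decidable (x.2 = 0))

instance Model_decZ : DecidablePred (· ∈ Model_Z) :=
  fun x => inferInstanceAs (Decidable (x.2 = 0 ∧ x.1.1 = false ∧ x.1.2.1 = false))

/-- The element `i`. -/
def Model_i : Model_T := ((true, false, false), 0)

/-- The element `j`. -/
def Model_j : Model_T := ((false, true, false), 0)

/-- The element `z`. -/
def Model_z : Model_T := ((false, false, true), 0)

theorem Model_c1 : ∀ y ∈ Model_Z, ∀ h : Model_T, h * y = y * h := by decide +kernel

theorem Model_c2 : ∀ x ∈ Model_Q, ∀ y ∈ Model_Q, x * y * x⁻¹ * y⁻¹ ∈ Model_Z := by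
  decide +kernel

theorem Model_c3 : ∀ x ∈ Model_Q, x * x ∈ Model_Z := by decide +kernel

theorem Model_c4 : ∀ c ∈ Model_Z, ∃ x ∈ Model_Q, ∃ y ∈ Model_Q, x * y * x⁻¹ * y⁻¹ = c := by
  decide +kernel

theorem Model_c5 : ∀ x ∈ Model_Q, x ∉ Model_Z → ∀ h : Model_T, h * x = x * h → h ∈ Model_Q := by
  decide +kernel

/-- The class function with the five classes as fibres. -/
def Model_f (x : Model_Q) : Fin 5 :=
  if x.1.1.1 = false then
    (if x.1.1.2.1 = false then (if x.1.1.2.2 = false then 0 else 1) else 2)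
  else (if x.1.1.2.1 = false then 3 else 4)

theorem Model_f_iff : ∀ a b : Model_Q, (∃ c : Model_Q, c * a * c⁻¹ = b) ↔
    Model_f a = Model_f b := by decide +kernel

theorem Model_f_surj : ∀ k : Fin 5, ∃ a : Model_Q, Model_f a = k := by decide +kernel

theorem Model_classes : Nat.card (ConjClasses Model_Q) = 5 := by
  let F : ConjClasses Model_Q → Fin 5 := Quotient.lift Model_f (by
    intro a b h
    exact (Model_f_iff a b).1 (isConj_iff.1 h))
  have hF : Function.Bijective F := by
    constructor
    · intro x y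
      obtain ⟨a, rfl⟩ := ConjClasses.exists_rep x
      obtain ⟨b, rfl⟩ := ConjClasses.exists_rep y
      intro h
      exact ConjClasses.mk_eq_mk_iff_isConj.2 (isConj_iff.2 ((Model_f_iff a b).2 h))
    · intro k
      obtain ⟨a, ha⟩ := Model_f_surj k
      exact ⟨ConjClasses.mk a, ha⟩
  rw [Nat.card_congr (Equiv.ofBijective F hF), Nat.card_eq_fintype_card, Fintype.card_fin]

/-- `i` as an element of `Q`. -/
def Model_I : Model_Q := ⟨Model_i, rfl⟩

/-- `j` as an element of `Q`. -/
def Model_J : Model_Q := ⟨Model_j, rfl⟩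

/-- `z` as an element of `Q`. -/
def Model_W : Model_Q := ⟨Model_z, rfl⟩

theorem Model_W_eq : Model_W = Model_I * Model_J * Model_I⁻¹ * Model_J⁻¹ := by decide +kernel

theorem Model_I_sq : Model_I * Model_I = Model_W := by decide +kernel

theorem Model_J_sq : Model_J * Model_J = Model_W := by decide +kernel

theorem Model_gen : ∀ x : Model_Q, ∃ c : Bool,
    x = (if x.1.1.1 = true then Model_I else 1) * (if x.1.1.2.1 = true then Model_J else 1) *
      (if c = true then Model_W else 1) := by decide +kernel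

theorem Model_mu_W (μ : Model_Q →* ℂˣ) : μ Model_W = 1 := by
  rw [Model_W_eq]
  simp only [map_mul, map_inv]
  rw [mul_comm (μ Model_I) (μ Model_J)]
  simp

theorem Model_mu (μ : Model_Q →* ℂˣ) (x : Model_Q) :
    μ x = (if x.1.1.1 = true then μ Model_I else 1) *
      (if x.1.1.2.1 = true then μ Model_J else 1) := by
  obtain ⟨c, hc⟩ := Model_gen x
  have h := congrArg μ hc
  rw [map_mul, map_mul] at h
  rw [h]
  have h3 : μ (if c = true then Model_W else 1) = 1 := by
    split_ifs
    · exact Model_mu_W μ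
    · exact map_one μ
  rw [h3, mul_one]
  congr 1
  · split_ifs
    · rfl
    · exact map_one μ
  · split_ifs
    · rfl
    · exact map_one μ

theorem Model_unit (u : ℂˣ) (h : u * u = 1) : u = 1 ∨ u = -1 := by
  have h2 : (u : ℂ) * (u : ℂ) = 1 := by
    have := congrArg Units.val h
    simpa using this
  rcases mul_self_eq_one_iff.1 h2 with h3 | h3
  · left
    exact Units.ext (by simpa using h3)
  · right
    exact Units.ext (by simpa using h3)

theorem Model_pmI (μ : Model_Q →* ℂˣ) : μ Model_I = 1 ∨ μ Model_I = -1 := by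
  apply Model_unit
  rw [← map_mul, Model_I_sq, Model_mu_W]

theorem Model_pmJ (μ : Model_Q →* ℂˣ) : μ Model_J = 1 ∨ μ Model_J = -1 := by
  apply Model_unit
  rw [← map_mul, Model_J_sq, Model_mu_W]

theorem Model_ne (μ : Model_Q →* ℂˣ) (h : μ ≠ 1) (hI : μ Model_I = 1) (hJ : μ Model_J = 1) :
    False := by
  apply h
  ext x
  rw [Model_mu μ x, hI, hJ]
  simp

theorem Model_conj : ∀ (h : Model_T) (x y : Model_Q), (y : Model_T) = h * x * h⁻¹ →
    y.1.1.1 = (Model_act h.2 x.1.1).1 ∧ y.1.1.2.1 = (Model_act h.2 x.1.1).2.1 := by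
  decide +kernel

theorem Model_norm : ∀ (h : Model_T) (x : Model_Q), h * x * h⁻¹ ∈ Model_Q := by
  decide +kernel

theorem Model_mu_conj (μ : Model_Q →* ℂˣ) (h : Model_T) (x y : Model_Q)
    (hy : (y : Model_T) = h * x * h⁻¹) :
    μ y = (if (Model_act h.2 x.1.1).1 = true then μ Model_I else 1) *
      (if (Model_act h.2 x.1.1).2.1 = true then μ Model_J else 1) := by
  obtain ⟨h1, h2⟩ := Model_conj h x y hy
  rw [Model_mu μ y, h1, h2]

/-- The element `(0, s)`. -/
def Model_h (s : Fin 3) : Model_T := ((false, false, false), s)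

theorem Model_trans (μ ν : Model_Q →* ℂˣ) (s : Fin 3)
    (h : ∀ v w : Bool, (if v = true then ν Model_I else 1) * (if w = true then ν Model_J else 1) =
      (if (Model_act s (v, w, false)).1 = true then μ Model_I else 1) *
      (if (Model_act s (v, w, false)).2.1 = true then μ Model_J else 1)) :
    ∃ h : Model_T, ∀ x y : Model_Q, (y : Model_T) = h * x * h⁻¹ → ν x = μ y := by
  refine ⟨Model_h s, fun x y hy => ?_⟩
  rw [Model_mu ν x, Model_mu_conj μ _ x y hy, h]
  have e : ∀ (s : Fin 3) (v w c : Bool), (Model_act s (v, w, false)).1 =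
      (Model_act s (v, w, c)).1 ∧ (Model_act s (v, w, false)).2.1 =
      (Model_act s (v, w, c)).2.1 := by decide
  obtain ⟨e1, e2⟩ := e s x.1.1.1 x.1.1.2.1 x.1.1.2.2
  rw [e1, e2]
  rfl

theorem Model_lin_trans (μ ν : Model_Q →* ℂˣ) (hμ : μ ≠ 1) (hν : ν ≠ 1) :
    ∃ h : Model_T, ∀ x y : Model_Q, (y : Model_T) = h * x * h⁻¹ → ν x = μ y := by
  have key : ∃ s : Fin 3, ∀ v w : Bool,
      (if v = true then ν Model_I else 1) * (if w = true then ν Model_J else 1) =
      (if (Model_act s (v, w, false)).1 = true then μ Model_I else 1) *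
      (if (Model_act s (v, w, false)).2.1 = true then μ Model_J else 1) := by
    rcases Model_pmI μ with h1 | h1 <;> rcases Model_pmJ μ with h2 | h2 <;>
    rcases Model_pmI ν with h3 | h3 <;> rcases Model_pmJ ν with h4 | h4
    all_goals first
      | exact (Model_ne μ hμ h1 h2).elim
      | exact (Model_ne ν hν h3 h4).elim
      | (rw [h1, h2, h3, h4]
         first
         | (refine ⟨0, ?_⟩
            rintro (_ | _) (_ | _) <;> simp [Model_act]
            done)
         | (refine ⟨1, ?_⟩
            rintro (_ | _) (_ | _) <;> simp [Model_act]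
            done)
         | (refine ⟨2, ?_⟩
            rintro (_ | _) (_ | _) <;> simp [Model_act]
            done))
  obtain ⟨s, hs⟩ := key
  exact Model_trans μ ν s hs

theorem Model_lin_stab (μ : Model_Q →* ℂˣ) (hμ : μ ≠ 1) (h : Model_T)
    (hs : ∀ x y : Model_Q, (y : Model_T) = h * x * h⁻¹ → μ y = μ x) : h ∈ Model_Q := by
  obtain ⟨q, s⟩ := h
  change s = 0
  have hI := hs Model_I ⟨_, Model_norm (q, s) Model_I⟩ rfl
  have hJ := hs Model_J ⟨_, Model_norm (q, s) Model_J⟩ rfl
  rw [Model_mu_conj μ (q, s) Model_I ⟨_, Model_norm (q, s) Model_I⟩ rfl] at hI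
  rw [Model_mu_conj μ (q, s) Model_J ⟨_, Model_norm (q, s) Model_J⟩ rfl] at hJ
  have hcases : ∀ s : Fin 3, s = 0 ∨ s = 1 ∨ s = 2 := by decide
  rcases hcases s with h0 | h0 | h0
  · exact h0
  · exfalso
    subst h0
    simp [Model_act, Model_I, Model_J, Model_i, Model_j] at hI hJ
    change μ Model_J = μ Model_I at hI
    change μ Model_I = 1 at hJ
    exact Model_ne μ hμ hJ (hI.trans hJ)
  · exfalso
    subst h0
    simp [Model_act, Model_I, Model_J, Model_i, Model_j] at hI hJ
    change μ Model_J = 1 at hI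
    change μ Model_I = μ Model_J at hJ
    exact Model_ne μ hμ (hJ.trans hI) hI

/-- Take any model of `SL₂(3) = Q₈ ⋊ C₃` in which the statements can be decided, for instance
`Matrix.SpecialLinearGroup (Fin 2) (ZMod 3)`, or the semidirect product of
`V = ZMod 2 × ZMod 2 × ZMod 2` with `(v, z) (w, y) = (v + w, z + y + β(v, w))`,
`β(v, w) = v₁ w₁ + v₁ w₂ + v₂ w₂`, and `C₃` acting by `(v₁, v₂, z) ↦ (v₂, v₁ + v₂, z)`.
`lin_trans`: with `i, j ∈ Q` generating `Q` and `h` of order `3` with `h i h⁻¹ = j`,
`h j h⁻¹ = i j` (up to the centre): `μ` is trivial on `Z = Q'`, has values `± 1`, so it is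
determined by `(μ i, μ j) ≠ (1, 1)`, and conjugation by `h` acts as
`(-1, 1) → (1, -1) → (-1, -1) → (-1, 1)`. `lin_stab`: an element `h ∉ Q` permutes the three
nontrivial characters cyclically. -/
theorem exists_SL : ∃ (H : Type) (_ : Group H) (_ : Finite H) (Q Z : Subgroup H)
    (π : H →* Multiplicative (ZMod 3)) (i z : H), SLData H Q Z π i z := by
  refine ⟨Model_T, Model_grp, Finite.of_fintype _, Model_Q, Model_Z, Model_pi, Model_i, Model_z,
    ?_⟩
  exact
  { surj := fun s => ⟨Model_h (Multiplicative.toAdd s), rfl⟩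
    ker := fun h => Iff.rfl
    cardQ := by
      rw [Nat.card_eq_fintype_card]
      decide +kernel
    cardZ := by
      rw [Nat.card_eq_fintype_card]
      decide +kernel
    Z_le := fun x hx => hx.1
    z_mem := ⟨rfl, rfl, rfl⟩
    z_ne := by decide
    central := Model_c1
    comm_mem := Model_c2
    sq_mem := Model_c3
    comm_eq := Model_c4
    cent := Model_c5
    i_mem := rfl
    i_not := by decide
    classes := Model_classes
    lin_trans := Model_lin_trans
    lin_stab := Model_lin_stab }

end MND
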