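import Pool.Agent.W_0649c_h65.SatA

/-! MP_0649d4_al, disproof of Q1: the fusion system of a finite group on a Sylow subgroup is
saturated. -/

namespace MND

open MNF

variable {G : Type*} [Group G] [Finite G] (p : ℕ) [Fact p.Prime] (S : Subgroup G)

/-- `|N C : N| = |C : N ∩ C|` if `N C` normalises `C`. -/
theorem satC_relIndex (N C : Subgroup G) (h : N ⊔ C ≤ Subgroup.normalizer (C : Set G)) :
    N.relIndex (N ⊔ C) = N.relIndex C := by
  have hC : C ≤ N ⊔ C := le_sup_right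
  have hN : N ≤ N ⊔ C := le_sup_left
  have hnor : (C.subgroupOf (N ⊔ C)).Normal := (Subgroup.normal_subgroupOf_iff_le_normalizer hC).2 h
  have h1 := Subgroup.relIndex_sup_right (H := N.subgroupOf (N ⊔ C)) (K := C.subgroupOf (N ⊔ C))
  rw [← Subgroup.subgroupOf_sup hN hC, Subgroup.subgroupOf_self, Subgroup.relIndex_top_right,
    Subgroup.relIndex_subgroupOf hN] at h1
  -- `h1 : C.relIndex (N ⊔ C) = C.relIndex N`
  have h2 := Subgroup.relIndex_mul_relIndex (N ⊓ C) N (N ⊔ C) inf_le_left hN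
  have h3 := Subgroup.relIndex_mul_relIndex (N ⊓ C) C (N ⊔ C) inf_le_right hC
  rw [Subgroup.inf_relIndex_left] at h2
  rw [Subgroup.inf_relIndex_right] at h3
  have h4 : C.relIndex (N ⊔ C) = C.relIndex N := h1
  have h5 : C.relIndex N ≠ 0 := Subgroup.index_ne_zero_of_finite
  have h6 : C.relIndex N * N.relIndex (N ⊔ C) = C.relIndex N * N.relIndex C := by
    rw [h2, ← h3, h4, mul_comm]
  exact Nat.eq_of_mul_eq_mul_left (Nat.pos_of_ne_zero h5) h6

/-- The second saturation axiom. `φ` is conjugation by `g`. For `r ∈ R` there is `h ∈ S` with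
`h⁻¹ g r g⁻¹ ∈ C_G(Q)` and `h ∈ N_S(Q)`. So `g R g⁻¹ ≤ H = N_S(Q) C_G(Q)`; `N_S(Q)` is a Sylow
subgroup of `H` by `index_cS` (`|H : N_S(Q)| = |C_G(Q) : C_S(Q)|`); so there is `c ∈ C_G(Q)` with
`c g R g⁻¹ c⁻¹ ≤ N_S(Q)` (Sylow: the conjugating element of `H` is `n c` with `n ∈ N_S(Q)`). Take
`ψ` = conjugation by `c g`. -/
theorem sat_extend (hS : IsPGroup p S) (hi : ¬ p ∣ S.index) (P Q R : Subgroup G) (φ : P ≃* Q)
    (hPR : P ≤ R) (hφ : φ ∈ (grpFus S).iso P Q) (hQ : (grpFus S).FullyCentralized Q) (hR : R ≤ S)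
    (h : ∀ g ∈ R, ∃ h ∈ S, ∀ x : P, ∃ hx : g * x * g⁻¹ ∈ P,
      (φ ⟨g * x * g⁻¹, hx⟩ : G) = h * φ x * h⁻¹) :
    ∃ (R' : Subgroup G) (ψ : R ≃* R'), ψ ∈ (grpFus S).iso R R' ∧
      ∀ x : P, (ψ ⟨x, mem_le hPR x.2⟩ : G) = φ x := by
  obtain ⟨hP, hQS, g, hg⟩ := hφ
  set C : Subgroup G := Subgroup.centralizer (Q : Set G) with hCdef
  set N : Subgroup G := nS S Q with hNdef
  have hNS : N ≤ S := inf_le_left
  have hmem : ∀ c : G, c ∈ C ↔ ∀ y ∈ Q, y * c = c * y := fun c =>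
    Subgroup.mem_centralizer_iff
  -- the group `H = N C` normalises `C`
  have hQC : Subgroup.normalizer (Q : Set G) ≤ Subgroup.normalizer (C : Set G) := by
    intro n hn
    rw [Subgroup.mem_normalizer_iff] at hn ⊢
    have hn' : ∀ y ∈ Q, n⁻¹ * y * n ∈ Q := by
      intro y hy
      rw [hn]
      have : n * (n⁻¹ * y * n) * n⁻¹ = y := by group
      rw [this]; exact hy
    intro c
    constructor
    · intro hc
      replace hc := (hmem _).1 hc
      refine (hmem _).2 ?_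
      intro y hy
      have h1 := hc (n⁻¹ * y * n) (hn' y hy)
      calc y * (n * c * n⁻¹) = n * ((n⁻¹ * y * n) * c) * n⁻¹ := by group
        _ = n * (c * (n⁻¹ * y * n)) * n⁻¹ := by rw [h1]
        _ = n * c * n⁻¹ * y := by group
    · intro hc
      replace hc := (hmem _).1 hc
      refine (hmem _).2 ?_
      intro y hy
      have h1 := hc (n * y * n⁻¹) ((hn y).1 hy)
      calc y * c = n⁻¹ * ((n * y * n⁻¹) * (n * c * n⁻¹)) * n := by group
        _ = n⁻¹ * ((n * c * n⁻¹) * (n * y * n⁻¹)) * n := by rw [h1]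
        _ = c * y := by group
  have hHC : N ⊔ C ≤ Subgroup.normalizer (C : Set G) :=
    sup_le ((inf_le_right : N ≤ _).trans hQC) Subgroup.le_normalizer
  -- index
  have hinf : N ⊓ C = cS S Q := by
    apply le_antisymm
    · intro x hx
      exact ⟨hx.1.1, hx.2⟩
    · intro x hx
      refine ⟨⟨hx.1, ?_⟩, hx.2⟩
      have h1 : C ≤ Subgroup.normalizer (Q : Set G) := Subgroup.centralizer_le_normalizer _
      exact h1 hx.2
  have hidx : ¬ p ∣ (N.subgroupOf (N ⊔ C)).index := by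
    have h1 := index_cS p S hS hi Q hQS hQ
    have h2 : (N.subgroupOf (N ⊔ C)).index = N.relIndex (N ⊔ C) := rfl
    rw [h2, satC_relIndex N C hHC, ← Subgroup.inf_relIndex_right, hinf]
    exact h1
  -- `g R g⁻¹ ≤ H`
  have hRH : ∀ r ∈ R, g * r * g⁻¹ ∈ N ⊔ C := by
    intro r hr
    obtain ⟨s, hs, hsx⟩ := h r hr
    have key : ∀ y ∈ Q, (g * r * g⁻¹) * y * (g * r * g⁻¹)⁻¹ = s * y * s⁻¹ ∧ s * y * s⁻¹ ∈ Q := by
      intro y hy
      obtain ⟨x', rfl⟩ : ∃ x' : P, (φ x' : G) = y :=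
        ⟨φ.symm ⟨y, hy⟩, by rw [MulEquiv.apply_symm_apply]⟩
      obtain ⟨hx, h1⟩ := hsx x'
      have h4 := hg ⟨r * x' * r⁻¹, hx⟩
      constructor
      · rw [← h1, h4, hg x']
        group
      · rw [← h1]
        exact (φ _).2
    have hsN : s ∈ N := by
      refine ⟨hs, ?_⟩
      have hle : Q.map (MulAut.conj s).toMonoidHom ≤ Q := by
        rintro _ ⟨y, hy, rfl⟩
        exact (key y hy).2
      have hcard : Nat.card (Q.map (MulAut.conj s).toMonoidHom : Subgroup G) = Nat.card Q :=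
        (Nat.card_congr (Q.equivMapOfInjective _ (MulAut.conj s).injective).toEquiv).symm
      have heq : Q.map (MulAut.conj s).toMonoidHom = Q :=
        Subgroup.eq_of_le_of_card_ge hle hcard.ge
      show s ∈ Subgroup.normalizer (Q : Set G)
      rw [Subgroup.mem_normalizer_iff]
      intro y
      constructor
      · intro hy; exact (key y hy).2
      · intro hy
        have h5 : s * y * s⁻¹ ∈ Q.map (MulAut.conj s).toMonoidHom := by rw [heq]; exact hy
        obtain ⟨z, hz, hzy⟩ := h5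
        have h6 : s * z * s⁻¹ = s * y * s⁻¹ := hzy
        have h7 : z = y := by
          have := congrArg (fun w => s⁻¹ * w * s) h6
          simpa [mul_assoc] using this
        rw [← h7]; exact hz
    have hcC : s⁻¹ * (g * r * g⁻¹) ∈ C := by
      refine (hmem _).2 ?_
      intro y hy
      have h1 := (key y hy).1
      have h2 : (g * r * g⁻¹) * y = s * y * s⁻¹ * (g * r * g⁻¹) := by
        rw [← h1]; group
      calc y * (s⁻¹ * (g * r * g⁻¹)) = s⁻¹ * (s * y * s⁻¹ * (g * r * g⁻¹)) := by group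
        _ = s⁻¹ * ((g * r * g⁻¹) * y) := by rw [h2]
        _ = s⁻¹ * (g * r * g⁻¹) * y := by group
    have h8 : g * r * g⁻¹ = s * (s⁻¹ * (g * r * g⁻¹)) := by group
    rw [h8]
    exact mul_mem (Subgroup.mem_sup_left hsN) (Subgroup.mem_sup_right hcC)
  -- Sylow in `H`
  obtain ⟨c₀, hc₀⟩ := exists_conj_le p (N.subgroupOf (N ⊔ C)) ((hS.to_le hNS).comap_subtype) hidx
    ((R.map (MulAut.conj g).toMonoidHom).subgroupOf (N ⊔ C))
    (((hS.to_le hR).map _).comap_subtype)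
  have hnor : (C.subgroupOf (N ⊔ C)).Normal :=
    (Subgroup.normal_subgroupOf_iff_le_normalizer le_sup_right).2 hHC
  have hc₀mem : c₀ ∈ N.subgroupOf (N ⊔ C) ⊔ C.subgroupOf (N ⊔ C) := by
    rw [← Subgroup.subgroupOf_sup le_sup_left le_sup_right, Subgroup.subgroupOf_self]
    exact Subgroup.mem_top _
  obtain ⟨n, hn, c, hc, hnc⟩ := Subgroup.mem_sup_of_normal_right.1 hc₀mem
  rw [Subgroup.mem_subgroupOf] at hn hc
  have hfin : ∀ r ∈ R, (c : G) * (g * r * g⁻¹) * (c : G)⁻¹ ∈ N := by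
    intro r hr
    have h1 : (⟨g * r * g⁻¹, hRH r hr⟩ : ↥(N ⊔ C)) ∈
        (R.map (MulAut.conj g).toMonoidHom).subgroupOf (N ⊔ C) := by
      rw [Subgroup.mem_subgroupOf]
      exact ⟨r, hr, rfl⟩
    have h2 := hc₀ (Subgroup.mem_map_of_mem _ h1)
    rw [Subgroup.mem_subgroupOf] at h2
    have h3 : (c₀ : G) * (g * r * g⁻¹) * (c₀ : G)⁻¹ ∈ N := h2
    have h4 : (c₀ : G) = n * c := by rw [← hnc]; rfl
    have h5 : (c : G) * (g * r * g⁻¹) * (c : G)⁻¹ =
        (n : G)⁻¹ * ((c₀ : G) * (g * r * g⁻¹) * (c₀ : G)⁻¹) * n := by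
      rw [h4]; group
    rw [h5]
    exact mul_mem (mul_mem (inv_mem hn) h3) hn
  have hcg : ∀ r ∈ R, ((c : G) * g) * r * ((c : G) * g)⁻¹ ∈ S := by
    intro r hr
    have h1 := hNS (hfin r hr)
    have h2 : ((c : G) * g) * r * ((c : G) * g)⁻¹ = (c : G) * (g * r * g⁻¹) * (c : G)⁻¹ := by group
    rw [h2]; exact h1
  refine ⟨_, conjIso ((c : G) * g) R, ⟨hR, ?_, (c : G) * g, fun x => rfl⟩, ?_⟩
  · rintro _ ⟨r, hr, rfl⟩
    exact hcg r hr
  · intro x
    rw [conjIso_apply]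
    have h1 := hg x
    have h2 : (φ x : G) ∈ Q := (φ x).2
    have h3 := (hmem _).1 hc _ h2
    calc ((c : G) * g) * x * ((c : G) * g)⁻¹ = (c : G) * (g * x * g⁻¹) * (c : G)⁻¹ := by group
      _ = (c : G) * φ x * (c : G)⁻¹ := by rw [← h1]
      _ = φ x * c * (c : G)⁻¹ := by rw [h3]
      _ = φ x := by group

end MND
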