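import Pool.Agent.W_0649c_h65.SatB
import Pool.Agent.W_0649c_h65.SatC

/-! MP_0649d4_al, disproof of Q1: the fusion system of a finite group on a Sylow subgroup is
saturated. -/

namespace MND

open MNF

variable {G : Type*} [Group G] [Finite G] (p : ℕ) [Fact p.Prime] (S : Subgroup G)

/-- The fusion system of a finite group on a Sylow `p`-subgroup is saturated. -/
theorem grpFus_saturated (hS : IsPGroup p S) (hi : ¬ p ∣ S.index) : (grpFus S).Saturated p where
  sylow P hP h := sat_sylow p S hS hi P hP h
  extend P Q R φ hPR hφ hQ hR h := sat_extend p S hS hi P Q R φ hPR hφ hQ hR h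

end MND
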