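import Pool.Agent.W_0649c_h65.Grp

/-! MP_0649d4_al, disproof of Q1: `S` is a Sylow `2`-subgroup of `G`. -/

namespace MND

variable {H : Type} [Group H] [Finite H] {Q Z : Subgroup H} {π : H →* Multiplicative (ZMod 3)}
  {i z : H}

/-- The underlying set of `S`. -/
def SylS_equiv (Q : Subgroup H) (n : ℕ) : SS Q n ≃ ((Fin n → Q) × (Fin n → Q)) × Bool where
  toFun g := ((fun j => ⟨g.1.l j, (g.2 j).1⟩, fun j => ⟨g.1.r j, (g.2 j).2⟩), g.1.s)
  invFun x := ⟨⟨fun j => x.1.1 j, fun j => x.1.2 j, x.2⟩, fun j => ⟨(x.1.1 j).2, (x.1.2 j).2⟩⟩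
  left_inv _ := rfl
  right_inv _ := rfl

/-- `|S| = 2 * 8 ^ (2 n)`. -/
theorem card_SS (h : SLData H Q Z π i z) (n : ℕ) : Nat.card (SS Q n) = 2 * 64 ^ n := by
  rw [Nat.card_congr (SylS_equiv Q n), Nat.card_prod, Nat.card_prod, Nat.card_fun, h.cardQ,
    Nat.card_fin, ← mul_pow]
  simp [mul_comm]

theorem isPGroup_SS (h : SLData H Q Z π i z) (n : ℕ) : IsPGroup 2 (SS Q n) := by
  apply IsPGroup.of_card (n := 1 + 6 * n)
  rw [card_SS h, pow_add, pow_mul]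
  norm_num

theorem SylS_cardH (h : SLData H Q Z π i z) : Nat.card H = 24 := by
  have h1 : π.ker = Q := by
    ext x
    rw [MonoidHom.mem_ker]
    exact h.ker x
  have h2 := Subgroup.card_mul_index π.ker
  rw [Subgroup.index_ker, MonoidHom.range_eq_top.2 h.surj, Subgroup.card_top, h1, h.cardQ] at h2
  have h3 : Nat.card (Multiplicative (ZMod 3)) = 3 := by
    rw [Nat.card_congr Multiplicative.toAdd, Nat.card_zmod]
  rw [h3] at h2
  exact h2.symm

/-- `|G| = 2 * 24 ^ (2 n)`, `|G : S| = 9 ^ n`. -/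
theorem index_SS (h : SLData H Q Z π i z) (n : ℕ) : ¬ 2 ∣ (SS Q n).index := by
  have h1 := Subgroup.card_mul_index (SS Q n)
  rw [card_SS h, Wr.card_wr, Nat.card_fun, SylS_cardH h, Nat.card_fin] at h1
  have h2 : (24 : ℕ) ^ n * 24 ^ n * 2 = 2 * 64 ^ n * 9 ^ n := by
    rw [← mul_pow, mul_assoc 2, ← mul_pow]
    norm_num
    ring
  rw [h2] at h1
  have h3 : 0 < 2 * 64 ^ n := by positivity
  have h4 : (SS Q n).index = 9 ^ n := Nat.eq_of_mul_eq_mul_left h3 h1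
  rw [h4, Nat.two_dvd_ne_zero]
  have : Odd ((9 : ℕ) ^ n) := Odd.pow (by decide)
  exact Nat.odd_iff.1 this

end MND
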