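import Pool.Agent.W_0649c_h65.KLow
import Pool.Agent.W_0649c_h65.MTop
import Pool.Agent.W_0649c_h65.ComS
import Pool.Agent.W_0649c_h65.SylS
import Pool.Agent.W_0649c_h65.Sat
import Pool.Agent.W_0649c_h65.Model
import Pool.Agent.W_0649d4.Trans

/-! MP_0649d4_al, disproof of Q1. -/

namespace MND

open MNF

/-- Q1 is false: for every algebraically closed field `k` of characteristic `2` there are a finite
`2`-group `S` and a saturated fusion system `F` on `S` (that of `SL₂(3)⁷ ≀ C₂`) with
`k(F, 1) > c([S, S]) m(F, 1, d)`. -/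
theorem main {k : Type*} [Field k] [IsAlgClosed k] [CharP k 2] :
    ∃ (G : Type) (_ : Group G) (_ : Finite G) (S : Subgroup G) (F : FusionSystem S),
      IsPGroup 2 S ∧ F.Saturated 2 ∧ Compatible F (trivFam F k) ∧
      (∃ (X : Finset S) (Y : S → Finset (Subgroup G)) (W : Finset (S →* ℂˣ)),
        IsElementTransversal F X ∧ (∀ x ∈ X, IsCentricTransversal (F.cent x) (Y x)) ∧
          IsLinTransversal F W) ∧
      ∀ (X : Finset S) (Y : S → Finset (Subgroup G)) (W : Finset (S →* ℂˣ)),
        IsElementTransversal F X → (∀ x ∈ X, IsCentricTransversal (F.cent x) (Y x)) →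
          IsLinTransversal F W →
          Nat.card (ConjClasses (commutator S)) * mTop F (trivFam F k) W <
            kInv F (trivFam F k) X Y := by
  obtain ⟨H, _, _, Q, Z, π, i, z, h⟩ := exists_SL
  have h2 : Fact (Nat.Prime 2) := ⟨Nat.prime_two⟩
  refine ⟨GG H 7, inferInstance, inferInstance, SS Q 7, FF Q 7, isPGroup_SS h 7,
    grpFus_saturated 2 _ (isPGroup_SS h 7) (index_SS h 7), compatible_trivFam _ k,
    exists_transversals _, fun X Y W hX hY hW => ?_⟩
  have h3 := card_classes h 7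
  have h4 := mTop_le h 7 (k := k) W hW
  have h5 := kInv_ge h 7 (k := k) X Y hX hY
  rw [h3]
  have h6 : 10 ^ 7 * mTop (FF Q 7) (trivFam (FF Q 7) k) W ≤ 10 ^ 7 * (2 * 4 ^ 7) :=
    Nat.mul_le_mul_left _ h4
  norm_num at h5 h6 ⊢
  omega

end MND
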