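import Pool.Agent.W_0649c_h65.IrrTop
import Pool.Agent.W_0649d4.COut

/-! MP_0649d4_al: `m(F, α, d)` is the sum over the linear characters of `S`. -/

namespace MND

open MNF

variable {G : Type*} [Group G] [Finite G] {k : Type*} [Field k] {S : Subgroup G}
  (F : FusionSystem S)

/-- A subgroup `F`-conjugate to `S` is `S`. -/
theorem MEq_aux1 {Q : Subgroup G} (h : F.Conj S Q) : Q = S := by
  obtain ⟨φ, hφ⟩ := h
  have h1 : Q ≤ S := F.le_left (F.symm_mem hφ)
  refine Subgroup.eq_of_le_of_card_ge h1 ?_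
  rw [Nat.card_congr φ.toEquiv]

/-- `S` is in every transversal of the centric subgroups. -/
theorem MEq_aux2 {R : Finset (Subgroup G)} (hR : IsCentricTransversal F R) : S ∈ R := by
  have h1 : F.Centric S := by
    refine ⟨le_rfl, fun Q hQ => ?_⟩
    rw [MEq_aux1 F hQ]
    exact inf_le_left
  obtain ⟨Q, ⟨hQ, hQ2⟩, _⟩ := hR.2 S h1
  rwa [MEq_aux1 F hQ2] at hQ

/-- A `p`-subgroup of a group of order prime to `p` is trivial. -/
theorem MEq_aux3 {O : Type*} [Group O] (p : ℕ) [Fact p.Prime] (hO : ¬ p ∣ Nat.card O)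
    (X : Subgroup O) (hX : IsPGroup p X) : X = ⊥ := by
  have h0 : Nat.card O ≠ 0 := fun h => hO (h ▸ dvd_zero p)
  have : Finite O := Nat.finite_of_card_ne_zero h0
  obtain ⟨n, hn⟩ := IsPGroup.iff_card.1 hX
  rcases Nat.eq_zero_or_pos n with h | h
  · rw [h, pow_zero] at hn
    exact Subgroup.card_eq_one.1 hn
  · exfalso
    apply hO
    have h1 : Nat.card X ∣ Nat.card O := Subgroup.card_subgroup_dvd_card X
    rw [hn] at h1
    exact (dvd_pow_self p h.ne').trans h1

/-- The only chain of a group of order prime to `p` is `{1}`. -/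
theorem MEq_aux4 {O : Type*} [Group O] (p : ℕ) [Fact p.Prime] (hO : ¬ p ∣ Nat.card O)
    (C : Finset (Finset (Subgroup O))) (hC : IsChainTransversal p C) : C = {{⊥}} := by
  have h1 : ∀ c : Finset (Subgroup O), IsPChain p c → c = {⊥} := by
    intro c hc
    ext X
    rw [Finset.mem_singleton]
    constructor
    · intro hX
      exact MEq_aux3 p hO X (hc.2.1 X hX)
    · rintro rfl
      exact hc.1
  have h2 : IsPChain p ({⊥} : Finset (Subgroup O)) := by
    refine ⟨Finset.mem_singleton_self _, ?_, ?_, ?_⟩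
    · intro X hX
      rw [Finset.mem_singleton.1 hX]
      exact IsPGroup.of_bot
    · intro X hX X' hX'
      rw [Finset.mem_singleton.1 hX]
      exact Or.inl bot_le
    · intro X hX X' hX' g hg x hx
      rw [Finset.mem_singleton.1 hX] at hx ⊢
      rw [Subgroup.mem_bot] at hx ⊢
      rw [hx, mul_one, mul_inv_cancel]
  obtain ⟨c', ⟨hc', _⟩, _⟩ := hC.2 {⊥} h2
  ext c
  rw [Finset.mem_singleton]
  constructor
  · intro hc
    exact h1 c (hC.1 c hc)
  · rintro rfl
    rw [← h1 c' (hC.1 c' hc')]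
    exact hc'

/-- The stabiliser of the trivial chain. -/
theorem MEq_aux5 {O : Type*} [Group O] : chainStab ({⊥} : Finset (Subgroup O)) = ⊤ := by
  rw [eq_top_iff]
  intro g _
  show ∀ X ∈ ({⊥} : Finset (Subgroup O)), ∀ x, x ∈ X ↔ g * x * g⁻¹ ∈ X
  intro X hX x
  rw [Finset.mem_singleton.1 hX, Subgroup.mem_bot, Subgroup.mem_bot, conj_eq_one_iff]

omit [Finite G] in
/-- The stabiliser of a linear character. -/
theorem MEq_aux6 (ν : S →* ℂˣ) :
    chainChStab F S {⊥} (fun y => ((ν y : ℂˣ) : ℂ)) = linStab F ν := by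
  unfold chainChStab
  rw [MEq_aux5, top_inf_eq]
  unfold chStab linStab
  congr 1
  ext a
  constructor
  · intro h y
    exact Units.ext (h y)
  · intro h y
    exact congrArg Units.val (h y)

/-- `m(F, α, d) = ∑_{μ ∈ Lin(S)/Out_F(S)} z(k_α I(μ))`: `S` is in `R` (it is centric and conjugate
only to itself); for `Q ∈ R`, `Q ≠ S`, all `M Q c` are empty (`irrE_empty`); `Out_F(S)` has order
prime to `p` (`MNF.card_out`), so `{⊥}` is the only chain, `C S = {{⊥}}`, `chainStab {⊥} = ⊤`;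
`M S {⊥}` corresponds to a set `W` of homomorphisms (`mem_irrE_iff`), and
`chStab F S μ = linStab F ν` if `μ y = ν y`. -/
theorem mInv_eq_mTop (p d : ℕ) [Fact p.Prime] (hd : Nat.card S = p ^ d) (hF : F.Saturated p)
    (α : ∀ P : Subgroup G, Cocycle (F.Out P) k) (R : Finset (Subgroup G))
    (C : ∀ Q : Subgroup G, Finset (Finset (Subgroup (F.Out Q))))
    (M : ∀ Q : Subgroup G, Finset (Subgroup (F.Out Q)) → Finset (Q → ℂ))
    (h : IsMTransversal F p d R C M) :
    ∃ W : Finset (S →* ℂˣ), IsLinTransversal F W ∧ mInv F α R C M = mTop F α W := by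
  classical
  obtain ⟨hR, h2⟩ := h
  have hSR : S ∈ R := MEq_aux2 F hR
  have hC : C S = {{⊥}} := MEq_aux4 p (MNF.card_out F p hF) (C S) (h2 S hSR).1
  have hM : IsIrrTransversal F p d S {⊥} (M S {⊥}) := (h2 S hSR).2 {⊥} (by rw [hC]; simp)
  let e : (S →* ℂˣ) → (S → ℂ) := fun ν y => ((ν y : ℂˣ) : ℂ)
  have he : Function.Injective e := by
    intro ν ν' hν
    ext y
    exact congrFun hν y
  have hrange : ∀ μ ∈ M S {⊥}, ∃ ν : S →* ℂˣ, μ = e ν := by
    intro μ hμ
    obtain ⟨ν, hν⟩ := (mem_irrE_iff p d hd μ).1 (hM.1 μ hμ)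
    exact ⟨ν, funext hν⟩
  refine ⟨(M S {⊥}).preimage e he.injOn, ?_, ?_⟩
  · intro μ
    have h3 : e μ ∈ IrrE p d S := (mem_irrE_iff p d hd (e μ)).2 ⟨μ, fun y => rfl⟩
    obtain ⟨ν', ⟨hν', a, _, ha⟩, huniq⟩ := hM.2 (e μ) h3
    obtain ⟨ν, rfl⟩ := hrange ν' hν'
    refine ⟨ν, ⟨Finset.mem_preimage.2 hν', a, fun y => Units.ext (ha y)⟩, ?_⟩
    rintro ξ ⟨hξ, b, hb⟩
    apply he
    refine huniq (e ξ) ⟨Finset.mem_preimage.1 hξ, b, ?_, fun y => congrArg Units.val (hb y)⟩
    rw [MEq_aux5]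
    exact Subgroup.mem_top _
  · have h4 : mInv F α R C M = ∑ c ∈ C S, (-1) ^ chainLen c *
        ∑ μ ∈ M S c, (zNum (TwAlg ((α S).comap (chainChStab F S c μ).subtype)) : ℤ) := by
      unfold mInv
      refine Finset.sum_eq_single_of_mem S hSR ?_
      intro Q hQ hQS
      refine Finset.sum_eq_zero fun c hc => ?_
      have hQle : Q ≤ S := (hR.1 Q hQ).1
      have hp : IsPGroup p S := IsPGroup.of_card hd
      have hlt : Nat.card Q < p ^ d := by
        rw [← hd]
        refine lt_of_le_of_ne (Subgroup.card_le_of_le hQle) fun hcard => hQS ?_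
        exact Subgroup.eq_of_le_of_card_ge hQle hcard.ge
      have hemp : M Q c = ∅ := by
        rw [Finset.eq_empty_iff_forall_notMem]
        intro μ hμ
        have h5 := ((h2 Q hQ).2 c hc).1 μ hμ
        rw [irrE_empty p d (hp.to_le hQle) hlt] at h5
        exact h5
      rw [hemp, Finset.sum_empty, mul_zero]
    rw [h4, hC, Finset.sum_singleton]
    have h5 : chainLen ({⊥} : Finset (Subgroup (F.Out S))) = 0 := by
      unfold chainLen
      rw [Finset.card_singleton]
    rw [h5, pow_zero, one_mul]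
    rw [← Finset.sum_preimage e (M S {⊥}) he.injOn
      (fun μ => (zNum (TwAlg ((α S).comap (chainChStab F S {⊥} μ).subtype)) : ℤ))
      (fun μ hμ hμ2 => by
        obtain ⟨ν, rfl⟩ := hrange μ hμ
        exact absurd ⟨ν, rfl⟩ hμ2)]
    unfold mTop
    rw [Nat.cast_sum]
    refine Finset.sum_congr rfl fun ν _ => ?_
    have h6 : ∀ K K' : Subgroup (F.Out S), K = K' →
        (zNum (TwAlg ((α S).comap K.subtype)) : ℤ) = zNum (TwAlg ((α S).comap K'.subtype)) := by
      rintro K K' rfl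
      rfl
    exact h6 _ _ (MEq_aux6 F ν)

end MND
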