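import Pool.Agent.W_0649c_h65.IrrTop
import Pool.Agent.W_0649d4.Trans

/-! MP_0649d4_al: the representatives needed for `m(F, α, d)` exist. -/

namespace MND

open MNF

theorem MEx_trans {α : Type*} (P : α → Prop) (hP : {a | P a}.Finite) (r : α → α → Prop)
    (hr : ∀ a, P a → r a a) (hs : ∀ a b, P a → P b → r a b → r b a)
    (ht : ∀ a b c, P a → P b → P c → r a b → r b c → r a c) :
    ∃ T : Finset α, (∀ a ∈ T, P a) ∧ ∀ a, P a → ∃! b, b ∈ T ∧ r a b := by
  classical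
  have : Finite {a // P a} := hP
  let s : Setoid {a // P a} := ⟨fun x y => r x.1 y.1, fun x => hr _ x.2,
    fun {x y} h => hs _ _ x.2 y.2 h, fun {x y z} h h' => ht _ _ _ x.2 y.2 z.2 h h'⟩
  have hfin : Finite (Quotient s) := Quotient.finite s
  letI := Fintype.ofFinite (Quotient s)
  refine ⟨Finset.univ.image (fun c : Quotient s => (c.out.1 : α)), ?_, ?_⟩
  · intro a ha
    rw [Finset.mem_image] at ha
    obtain ⟨c, -, rfl⟩ := ha
    exact c.out.2
  · intro a ha
    refine ⟨(Quotient.mk s ⟨a, ha⟩).out.1, ⟨Finset.mem_image_of_mem _ (Finset.mem_univ _), ?_⟩,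
      ?_⟩
    · have h1 : s (Quotient.mk s ⟨a, ha⟩).out ⟨a, ha⟩ := Quotient.exact (Quotient.out_eq _)
      exact s.symm h1
    · rintro b ⟨hb, hab⟩
      rw [Finset.mem_image] at hb
      obtain ⟨c, -, rfl⟩ := hb
      have h2 : Quotient.mk s ⟨a, ha⟩ = Quotient.mk s c.out := Quotient.sound hab
      rw [h2, Quotient.out_eq]

section Chains

variable {O : Type*} [Group O]

theorem MEx_map_conj (X : Subgroup O) (g h : O) :
    (X.map (MulAut.conj g).toMonoidHom).map (MulAut.conj h).toMonoidHom =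
      X.map (MulAut.conj (h * g)).toMonoidHom := by
  rw [Subgroup.map_map]
  congr 1
  ext x
  simp [mul_assoc]

theorem MEx_map_one (X : Subgroup O) : X.map (MulAut.conj (1 : O)).toMonoidHom = X := by
  ext x
  simp

theorem MEx_chain [Finite O] (p : ℕ) :
    ∃ C : Finset (Finset (Subgroup O)), IsChainTransversal p C := by
  have e1 : ∀ c : Finset (Subgroup O), IsPChain p c → ConjChain c c := by
    intro c _
    refine ⟨1, fun X => ?_⟩
    rw [MEx_map_one]
  have e2 : ∀ c c' : Finset (Subgroup O), IsPChain p c → IsPChain p c' → ConjChain c c' →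
      ConjChain c' c := by
    rintro c c' _ _ ⟨g, hg⟩
    refine ⟨g⁻¹, fun X => ?_⟩
    rw [hg, MEx_map_conj, mul_inv_cancel, MEx_map_one]
  have e3 : ∀ c c' c'' : Finset (Subgroup O), IsPChain p c → IsPChain p c' → IsPChain p c'' →
      ConjChain c c' → ConjChain c' c'' → ConjChain c c'' := by
    rintro c c' c'' _ _ _ ⟨g, hg⟩ ⟨h, hh⟩
    refine ⟨h * g, fun X => ?_⟩
    rw [hg, hh, MEx_map_conj]
  exact MEx_trans (fun c : Finset (Subgroup O) => IsPChain p c) (Set.toFinite _) ConjChain e1 e2 e3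

end Chains

variable {G : Type*} [Group G] [Finite G] {S : Subgroup G} (F : FusionSystem S)

theorem MEx_finite (p d : ℕ) [Fact p.Prime] (hd : Nat.card S = p ^ d) (Q : Subgroup G)
    (hQ : Q ≤ S) : {μ : Q → ℂ | μ ∈ IrrE p d Q}.Finite := by
  have hS : IsPGroup p S := IsPGroup.of_card hd
  by_cases h : Nat.card S ≤ Nat.card Q
  · have h1 : Q = S := Subgroup.eq_of_le_of_card_ge hQ h
    subst h1
    refine (Set.finite_range (fun (ν : Q →* ℂˣ) (y : Q) => (ν y : ℂ))).subset ?_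
    intro μ hμ
    obtain ⟨ν, hν⟩ := (mem_irrE_iff p d hd μ).1 hμ
    exact ⟨ν, funext fun y => (hν y).symm⟩
  · have h2 : IrrE p d Q = ∅ := irrE_empty p d (hS.to_le hQ) (by rw [← hd]; omega)
    rw [show {μ : Q → ℂ | μ ∈ IrrE p d Q} = IrrE p d Q from rfl, h2]
    exact Set.finite_empty

theorem MEx_irr (p d : ℕ) [Fact p.Prime] (hd : Nat.card S = p ^ d) (Q : Subgroup G)
    (c : Finset (Subgroup (F.Out Q))) :
    ∃ M : Finset (Q → ℂ), Q ≤ S → IsIrrTransversal F p d Q c M := by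
  by_cases hQ : Q ≤ S
  · have e1 : ∀ μ : Q → ℂ, μ ∈ IrrE p d Q → ∃ a : F.aut Q,
        (QuotientGroup.mk a : F.Out Q) ∈ chainStab c ∧ ∀ y : Q, μ y = μ ((a : MulAut Q) y) := by
      intro μ _
      exact ⟨1, one_mem (chainStab c), fun y => rfl⟩
    have e2 : ∀ μ ν : Q → ℂ, μ ∈ IrrE p d Q → ν ∈ IrrE p d Q → (∃ a : F.aut Q,
        (QuotientGroup.mk a : F.Out Q) ∈ chainStab c ∧ ∀ y : Q, ν y = μ ((a : MulAut Q) y)) →
        ∃ a : F.aut Q,
        (QuotientGroup.mk a : F.Out Q) ∈ chainStab c ∧ ∀ y : Q, μ y = ν ((a : MulAut Q) y) := by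
      rintro μ ν _ _ ⟨a, ha, h⟩
      refine ⟨a⁻¹, inv_mem (S := Subgroup (F.Out Q)) ha, fun y => ?_⟩
      rw [h]
      show μ y = μ ((a : MulAut Q) ((a : MulAut Q)⁻¹ y))
      rw [MulAut.apply_inv_self]
    have e3 : ∀ μ ν ρ : Q → ℂ, μ ∈ IrrE p d Q → ν ∈ IrrE p d Q → ρ ∈ IrrE p d Q →
        (∃ a : F.aut Q,
        (QuotientGroup.mk a : F.Out Q) ∈ chainStab c ∧ ∀ y : Q, ν y = μ ((a : MulAut Q) y)) →
        (∃ a : F.aut Q,
        (QuotientGroup.mk a : F.Out Q) ∈ chainStab c ∧ ∀ y : Q, ρ y = ν ((a : MulAut Q) y)) →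
        ∃ a : F.aut Q,
        (QuotientGroup.mk a : F.Out Q) ∈ chainStab c ∧ ∀ y : Q, ρ y = μ ((a : MulAut Q) y) := by
      rintro μ ν ρ _ _ _ ⟨a, ha, h⟩ ⟨b, hb, h'⟩
      refine ⟨a * b, mul_mem (S := Subgroup (F.Out Q)) ha hb, fun y => ?_⟩
      rw [h', h]
      rfl
    obtain ⟨M, h1, h2⟩ := MEx_trans (fun μ : Q → ℂ => μ ∈ IrrE p d Q) (MEx_finite p d hd Q hQ)
      (fun μ ν => ∃ a : F.aut Q,
        (QuotientGroup.mk a : F.Out Q) ∈ chainStab c ∧ ∀ y : Q, ν y = μ ((a : MulAut Q) y))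
      e1 e2 e3
    exact ⟨M, fun _ => ⟨h1, h2⟩⟩
  · exact ⟨∅, fun h => absurd h hQ⟩

/-- Representatives exist: `R` by `MNF.exists_centricTransversal`; the chains are a finite set and
`ConjChain` is an equivalence relation on them; `Irr^d(Q)` is finite: empty for `Q ≠ S`
(`irrE_empty`), and in bijection with the finite set of homomorphisms `S →* ℂˣ` for `Q = S`
(`mem_irrE_iff`); being conjugate under `I(σ)` is an equivalence relation on it. -/
theorem exists_mTransversal (p d : ℕ) [Fact p.Prime] (hd : Nat.card S = p ^ d) :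
    ∃ (R : Finset (Subgroup G)) (C : ∀ Q : Subgroup G, Finset (Finset (Subgroup (F.Out Q))))
      (M : ∀ Q : Subgroup G, Finset (Subgroup (F.Out Q)) → Finset (Q → ℂ)),
      IsMTransversal F p d R C M := by
  obtain ⟨R, hR⟩ := exists_centricTransversal F
  have hC : ∀ Q : Subgroup G, ∃ C : Finset (Finset (Subgroup (F.Out Q))),
      IsChainTransversal p C := fun Q => MEx_chain p
  choose C hC using hC
  choose M hM using fun (Q : Subgroup G) (c : Finset (Subgroup (F.Out Q))) => MEx_irr F p d hd Q c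
  exact ⟨R, C, M, hR, fun Q hQ => ⟨hC Q, fun c _ => hM Q c (hR.1 Q hQ).1⟩⟩

end MND
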