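import Pool.Agent.W_0649c_h65.Final
import Pool.Agent.W_0649c_h65.MEq
import Pool.Agent.W_0649c_h65.MEx

/-! MP_0649d4_al, disproof of Q1, with the full definition of `m(F, α, e)`. -/

namespace MND

open MNF

/-- Q1 is false: for every algebraically closed field `k` of characteristic `2` there are a finite
`2`-group `S` of order `2 ^ d`, a saturated fusion system `F` on `S` and an `F`-compatible family
`α` (the trivial one) with `k(F, α) > c([S, S]) m(F, α, d)`. -/
theorem mainM {k : Type*} [Field k] [IsAlgClosed k] [CharP k 2] :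
    ∃ (G : Type) (_ : Group G) (_ : Finite G) (S : Subgroup G) (d : ℕ) (F : FusionSystem S)
      (α : ∀ P : Subgroup G, Cocycle (F.Out P) k),
      Nat.card S = 2 ^ d ∧ F.Saturated 2 ∧ Compatible F α ∧
      (∃ (X : Finset S) (Y : S → Finset (Subgroup G)),
        IsElementTransversal F X ∧ ∀ x ∈ X, IsCentricTransversal (F.cent x) (Y x)) ∧
      (∃ (R : Finset (Subgroup G)) (C : ∀ Q : Subgroup G, Finset (Finset (Subgroup (F.Out Q))))
        (M : ∀ Q : Subgroup G, Finset (Subgroup (F.Out Q)) → Finset (Q → ℂ)),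
        IsMTransversal F 2 d R C M) ∧
      ∀ (X : Finset S) (Y : S → Finset (Subgroup G)) (R : Finset (Subgroup G))
        (C : ∀ Q : Subgroup G, Finset (Finset (Subgroup (F.Out Q))))
        (M : ∀ Q : Subgroup G, Finset (Subgroup (F.Out Q)) → Finset (Q → ℂ)),
        IsElementTransversal F X → (∀ x ∈ X, IsCentricTransversal (F.cent x) (Y x)) →
          IsMTransversal F 2 d R C M →
          (Nat.card (ConjClasses (commutator S)) : ℤ) * mInv F α R C M < kInv F α X Y := by
  obtain ⟨G, _, _, S, F, hS, hF, hα, hex, hlt⟩ := main (k := k)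
  have h2 : Fact (Nat.Prime 2) := ⟨Nat.prime_two⟩
  obtain ⟨d, hd⟩ := (IsPGroup.iff_card).1 hS
  refine ⟨G, inferInstance, inferInstance, S, d, F, trivFam F k, hd, hF, hα, ?_,
    exists_mTransversal F 2 d hd, ?_⟩
  · obtain ⟨X, Y, _, hX, hY, _⟩ := hex
    exact ⟨X, Y, hX, hY⟩
  · intro X Y R C M hX hY hM
    obtain ⟨W, hW, hm⟩ := mInv_eq_mTop F 2 d hd hF (trivFam F k) R C M hM
    rw [hm]
    exact_mod_cast hlt X Y W hX hY hW

end MND
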