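import Pool.Agent.W_0649c_h65.Grp

/-! MP_0649d4_al, disproof of Q1: the elements of the base group with centralizer in the base
group. -/

namespace MND

open MNF

variable {H : Type} [Group H] [Finite H] {Q Z : Subgroup H} {π : H →* Multiplicative (ZMod 3)}
  {i z : H} {n : ℕ}

/-- `x ∈ Hⁿ × Hⁿ` and `C_G(x) ≤ Hⁿ × Hⁿ`. -/
def IsGood (x : GG H n) : Prop := x.s = false ∧ ∀ g : GG H n, g * x = x * g → g.s = false

open Classical in
/-- The number of central coordinates. -/
noncomputable def cenNum (Z : Subgroup H) (x : GG H n) : ℕ :=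
  (Finset.univ.filter fun j => x.l j ∈ Z).card + (Finset.univ.filter fun j => x.r j ∈ Z).card

omit [Finite H] in
theorem GoodA_s_mul (x y : GG H n) : (x * y).s = xor x.s y.s := by
  rw [Wr.mul_def]

omit [Finite H] in
theorem GoodA_s_inv (x : GG H n) : (x⁻¹).s = x.s := by
  rw [Wr.inv_def]

omit [Finite H] in
theorem GoodA_mem_conj (hc : ∀ y ∈ Z, ∀ h : H, h * y = y * h) (a y : H) :
    a * y * a⁻¹ ∈ Z ↔ y ∈ Z := by
  constructor
  · intro h
    have h1 := hc _ h a⁻¹
    have h2 : y = a⁻¹ * (a * y * a⁻¹) * a := by group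
    rw [h2, h1, mul_assoc, inv_mul_cancel, mul_one]
    exact h
  · intro h
    have h1 := hc _ h a
    rw [h1, mul_assoc, mul_inv_cancel, mul_one]
    exact h

omit [Finite H] in
theorem IsGood.conj {x : GG H n} (h : IsGood x) (g : GG H n) : IsGood (g * x * g⁻¹) := by
  refine ⟨?_, ?_⟩
  · rw [GoodA_s_mul, GoodA_s_mul, GoodA_s_inv, h.1]
    cases g.s <;> rfl
  · intro k hk
    have h1 : (g⁻¹ * k * g) * x = x * (g⁻¹ * k * g) := by
      have h2 : (g⁻¹ * k * g) * x = g⁻¹ * (k * (g * x * g⁻¹)) * g := by group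
      rw [h2, hk]
      group
    have h3 := h.2 _ h1
    rw [GoodA_s_mul, GoodA_s_mul, GoodA_s_inv] at h3
    revert h3
    cases g.s <;> cases k.s <;> simp

omit [Finite H] in
/-- The number of central coordinates is invariant under conjugation (`Z` is central). -/
theorem cenNum_conj (h : SLData H Q Z π i z) (x g : GG H n) (hx : x.s = false) :
    cenNum Z (g * x * g⁻¹) = cenNum Z x := by
  classical
  obtain ⟨l, r, s⟩ := x
  obtain ⟨a, b, s'⟩ := g
  dsimp only at hx
  subst hx
  have key := GoodA_mem_conj (Z := Z) h.central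
  cases s'
  · rw [Wr.mul_ff, Wr.inv_ff, Wr.mul_ff]
    unfold cenNum
    simp only [Pi.mul_apply, Pi.inv_apply, key]
  · rw [Wr.mul_tt, Wr.inv_tt]
    have h1 : (⟨a * r, b * l, !false⟩ : GG H n) * ⟨b⁻¹, a⁻¹, true⟩ =
        ⟨a * r * a⁻¹, b * l * b⁻¹, false⟩ := by
      rw [Bool.not_false, Wr.mul_tt]
      rfl
    rw [h1]
    unfold cenNum
    simp only [Pi.mul_apply, Pi.inv_apply, key]
    exact add_comm _ _

end MND
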