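import Pool.Agent.W_0649c_h65.GoodA
import Pool.Agent.W_0649c_h65.CentZ

/-! MP_0649d4_al, disproof of Q1: the elements of the base group with centralizer in the base
group. -/

namespace MND

open MNF

variable {H : Type} [Group H] [Finite H] {Q Z : Subgroup H} {π : H →* Multiplicative (ZMod 3)}
  {i z : H} {n : ℕ}

private theorem GoodB_comm {g x : GG H n} (hg : g.s = false) (hx : x.s = false) :
    g * x = x * g ↔ (∀ j, g.l j * x.l j = x.l j * g.l j) ∧ ∀ j, g.r j * x.r j = x.r j * g.r j := by
  obtain ⟨a, b, s⟩ := g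
  obtain ⟨c, d, s'⟩ := x
  have hs : s = false := hg
  have hs' : s' = false := hx
  subst hs
  subst hs'
  rw [Wr.mul_ff, Wr.mul_ff]
  constructor
  · intro h
    have h1 := congrArg Wr.l h
    have h2 := congrArg Wr.r h
    exact ⟨fun j => congrFun h1 j, fun j => congrFun h2 j⟩
  · rintro ⟨h1, h2⟩
    have h3 : a * c = c * a := funext h1
    have h4 : b * d = d * b := funext h2
    rw [h3, h4]

private theorem GoodB_mul {g x : GG H n} (hg : g.s = false) :
    (g * x).l = g.l * x.l ∧ (g * x).r = g.r * x.r := by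
  obtain ⟨a, b, s⟩ := g
  obtain ⟨c, d, s'⟩ := x
  have hs : s = false := hg
  subst hs
  rw [Wr.mul_ff]
  exact ⟨rfl, rfl⟩

private theorem GoodB_mem_Q (h : SLData H Q Z π i z) {g : GG H n} :
    g ∈ SS Q n ↔ (∀ j, π (g.l j) = 1) ∧ ∀ j, π (g.r j) = 1 := by
  rw [mem_SS]
  constructor
  · intro h1
    exact ⟨fun j => (h.ker _).2 (h1 j).1, fun j => (h.ker _).2 (h1 j).2⟩
  · rintro ⟨h1, h2⟩ j
    exact ⟨(h.ker _).1 (h1 j), (h.ker _).1 (h2 j)⟩

/-- The map `(c, d) ↦ (π (c j), π (d j))_j` on a subgroup of the base group. -/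
private noncomputable def GoodB_map (π : H →* Multiplicative (ZMod 3)) (C : Subgroup (GG H n))
    (hC : ∀ g ∈ C, g.s = false) :
    C →* (Fin n → Multiplicative (ZMod 3)) × (Fin n → Multiplicative (ZMod 3)) where
  toFun g := (fun j => π ((g : GG H n).l j), fun j => π ((g : GG H n).r j))
  map_one' := by
    apply Prod.ext
    · funext j
      exact map_one π
    · funext j
      exact map_one π
  map_mul' a b := by
    have h := GoodB_mul (x := (b : GG H n)) (hC a a.2)
    apply Prod.ext
    · funext j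
      show π (((a * b : C) : GG H n).l j) = _
      rw [Subgroup.coe_mul, h.1]
      exact map_mul π _ _
    · funext j
      show π (((a * b : C) : GG H n).r j) = _
      rw [Subgroup.coe_mul, h.2]
      exact map_mul π _ _

private theorem GoodB_ker (h : SLData H Q Z π i z) (C : Subgroup (GG H n))
    (hC : ∀ g ∈ C, g.s = false) (g : C) : GoodB_map π C hC g = 1 ↔ (g : GG H n) ∈ SS Q n := by
  rw [GoodB_mem_Q h]
  constructor
  · intro h1
    exact ⟨fun j => congrFun (congrArg Prod.fst h1) j, fun j => congrFun (congrArg Prod.snd h1) j⟩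
  · rintro ⟨h1, h2⟩
    exact Prod.ext (funext h1) (funext h2)

open Classical in
private theorem GoodB_card (h : SLData H Q Z π i z) (x : GG H n) (hx : x.s = false)
    (C : Subgroup (GG H n)) (hC' : ∀ g : GG H n, g ∈ C ↔ g * x = x * g)
    (hC : ∀ g ∈ C, g.s = false) : 3 ^ cenNum Z x ≤ Nat.card (GoodB_map π C hC).range := by
  have hsurj : ∀ c : Multiplicative (ZMod 3), ∃ b : H, π b = c := h.surj
  choose σ hσ using hsurj
  let A := {j : Fin n // x.l j ∈ Z}
  let B := {j : Fin n // x.r j ∈ Z}
  let M := Multiplicative (ZMod 3)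
  have hcard : Nat.card ((A → M) × (B → M)) = 3 ^ cenNum Z x := by
    rw [Nat.card_prod, Nat.card_fun, Nat.card_fun]
    have h3 : Nat.card M = 3 := by
      show Nat.card (Multiplicative (ZMod 3)) = 3
      rw [Nat.card_eq_fintype_card, Fintype.card_multiplicative, ZMod.card]
    rw [h3, ← pow_add]
    unfold cenNum
    congr 2
    · show Nat.card {j : Fin n // x.l j ∈ Z} = _
      rw [Nat.card_eq_fintype_card, Fintype.card_subtype]
    · show Nat.card {j : Fin n // x.r j ∈ Z} = _
      rw [Nat.card_eq_fintype_card, Fintype.card_subtype]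
  rw [← hcard]
  let E : (A → M) × (B → M) → GG H n := fun u =>
    ⟨fun j => if hj : x.l j ∈ Z then σ (u.1 ⟨j, hj⟩) else 1,
      fun j => if hj : x.r j ∈ Z then σ (u.2 ⟨j, hj⟩) else 1, false⟩
  have hE : ∀ u, E u ∈ C := by
    intro u
    rw [hC', GoodB_comm rfl hx]
    constructor
    · intro j
      show (if hj : x.l j ∈ Z then σ (u.1 ⟨j, hj⟩) else 1) * x.l j =
        x.l j * (if hj : x.l j ∈ Z then σ (u.1 ⟨j, hj⟩) else 1)
      split_ifs with hj
      · exact h.central _ hj _
      · rw [one_mul, mul_one]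
    · intro j
      show (if hj : x.r j ∈ Z then σ (u.2 ⟨j, hj⟩) else 1) * x.r j =
        x.r j * (if hj : x.r j ∈ Z then σ (u.2 ⟨j, hj⟩) else 1)
      split_ifs with hj
      · exact h.central _ hj _
      · rw [one_mul, mul_one]
  refine Nat.card_le_card_of_injective
    (fun u => (⟨GoodB_map π C hC ⟨E u, hE u⟩, ⟨_, rfl⟩⟩ : (GoodB_map π C hC).range)) ?_
  intro u v huv
  have h1 : GoodB_map π C hC ⟨E u, hE u⟩ = GoodB_map π C hC ⟨E v, hE v⟩ :=
    congrArg Subtype.val huv
  apply Prod.ext
  · funext j
    have h2 : π (if hj : x.l j ∈ Z then σ (u.1 ⟨j, hj⟩) else 1) =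
        π (if hj : x.l j ∈ Z then σ (v.1 ⟨j, hj⟩) else 1) :=
      congrFun (congrArg Prod.fst h1) j.1
    rw [dif_pos j.2, dif_pos j.2, hσ, hσ] at h2
    exact h2
  · funext j
    have h2 : π (if hj : x.r j ∈ Z then σ (u.2 ⟨j, hj⟩) else 1) =
        π (if hj : x.r j ∈ Z then σ (v.2 ⟨j, hj⟩) else 1) :=
      congrFun (congrArg Prod.snd h1) j.1
    rw [dif_pos j.2, dif_pos j.2, hσ, hσ] at h2
    exact h2

/-- `C = C_G(x)`, `T = C_S(x)` satisfy the hypotheses of `relIndex_le_zNum`, and
`|C : T| ≥ 3 ^ cenNum Z x`. Elements of `C` have `s = false`; `(c, d)` is in `C` iff `c j` commutes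
with `x.l j` and `d j` with `x.r j` for all `j`, in `T` iff moreover all `c j, d j ∈ Q`. `h1`: `Q` is
normal (`ker`). `h2`: `π` has commutative image. `h3`: if `x.l j ∉ Z` then
`c j ∈ Q` by `cent`; if `x.l j ∈ Z` then `(single j i, 1) ∈ T`, so `c j` commutes with `i` and
`c j ∈ Q` by `cent`. `h4` and the index: `(c, d) ↦ (π (c j), π (d j))_j` has kernel `T` on `C`, so the
index divides a power of `3`, and every family of values which is `1` at the non-central
coordinates is in the image (`surj`, `central`). -/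
theorem good_zNum (h : SLData H Q Z π i z) {k : Type*} [Field k] [IsAlgClosed k] [CharP k 2]
    (x : SS Q n) (hx : IsGood (x : GG H n)) :
    3 ^ cenNum Z (x : GG H n) ≤ zNum (TwAlg (centFam (FF Q n) (trivFam (FF Q n) k) x
      (cS (SS Q n) (Subgroup.zpowers (x : GG H n))))) := by
  classical
  let C : Subgroup (GG H n) := Subgroup.centralizer {(x : GG H n)}
  have hC' : ∀ g : GG H n, g ∈ C ↔ g * x = x * g := fun g => by
    rw [Subgroup.mem_centralizer_singleton_iff]
  have hC : ∀ g ∈ C, g.s = false := fun g hg => hx.2 g ((hC' g).1 hg)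
  have hker : ∀ g : C, GoodB_map π C hC g = 1 ↔ (g : GG H n) ∈ SS Q n := GoodB_ker h C hC
  set T : Subgroup (GG H n) := cS (SS Q n) (Subgroup.zpowers (x : GG H n)) with hT
  have hTC : ∀ y ∈ T, y ∈ C := fun y hy => (hC' y).2 (mem_cS_zpowers.1 hy).2
  have hmem : ∀ g : C, (g : GG H n) ∈ T ↔ GoodB_map π C hC g = 1 := by
    intro g
    rw [hker]
    constructor
    · intro hg
      exact (mem_cS_zpowers.1 hg).1
    · intro hg
      exact mem_cS_zpowers.2 ⟨hg, (hC' g).1 g.2⟩
  have hkerT : (GoodB_map π C hC).ker = T.subgroupOf C := by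
    ext g
    rw [MonoidHom.mem_ker, Subgroup.mem_subgroupOf, hmem]
  have hidx : T.relIndex C = Nat.card (GoodB_map π C hC).range := by
    unfold Subgroup.relIndex
    rw [← hkerT, Subgroup.index_ker]
  have hge : 3 ^ cenNum Z (x : GG H n) ≤ T.relIndex C := by
    rw [hidx]
    exact GoodB_card h x hx.1 C hC' hC
  refine hge.trans ?_
  have hp2 : Fact (Nat.Prime 2) := ⟨Nat.prime_two⟩
  refine relIndex_le_zNum 2 (SS Q n) x T C hT hC' ?_ ?_ ?_ ?_
  · intro g hg y hy
    have h1 := (hmem ⟨y, hTC y hy⟩).1 hy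
    refine (hmem (⟨g, hg⟩ * ⟨y, hTC y hy⟩ * (⟨g, hg⟩ : C)⁻¹)).2 ?_
    rw [map_mul, map_mul, h1, mul_one, map_inv, mul_inv_cancel]
  · intro g hg g' hg'
    refine (hmem (⟨g, hg⟩ * ⟨g', hg'⟩ * (⟨g, hg⟩ : C)⁻¹ * (⟨g', hg'⟩ : C)⁻¹)).2 ?_
    rw [map_mul, map_mul, map_mul, map_inv, map_inv, mul_comm (GoodB_map π C hC ⟨g, hg⟩),
      mul_inv_cancel_right, mul_inv_cancel]
  · intro g hg hy
    refine mem_cS_zpowers.2 ⟨?_, (hC' g).1 hg⟩
    have hgc := (GoodB_comm (hC g hg) hx.1).1 ((hC' g).1 hg)
    rw [mem_SS]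
    intro j
    have hxQ := (mem_SS Q n).1 x.2 j
    constructor
    · by_cases hj : (x : GG H n).l j ∈ Z
      · have hyT : (⟨Pi.mulSingle j i, 1, false⟩ : GG H n) ∈ T := by
          refine mem_cS_zpowers.2 ⟨?_, ?_⟩
          · rw [mem_SS]
            intro j'
            refine ⟨?_, one_mem _⟩
            show (Pi.mulSingle j i : Fin n → H) j' ∈ Q
            by_cases hjj : j' = j
            · subst hjj
              rw [Pi.mulSingle_eq_same]
              exact h.i_mem
            · rw [Pi.mulSingle_eq_of_ne hjj]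
              exact one_mem _
          · rw [GoodB_comm rfl hx.1]
            constructor
            · intro j'
              show (Pi.mulSingle j i : Fin n → H) j' * _ = _ * (Pi.mulSingle j i : Fin n → H) j'
              by_cases hjj : j' = j
              · subst hjj
                exact h.central _ hj _
              · rw [Pi.mulSingle_eq_of_ne hjj, one_mul, mul_one]
            · intro j'
              show (1 : H) * _ = _ * (1 : H)
              rw [one_mul, mul_one]
        have h1 := ((GoodB_comm (hC g hg) rfl).1 (hy _ hyT)).1 j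
        have h2 : g.l j * (Pi.mulSingle j i : Fin n → H) j =
          (Pi.mulSingle j i : Fin n → H) j * g.l j := h1
        rw [Pi.mulSingle_eq_same] at h2
        exact h.cent i h.i_mem h.i_not _ h2
      · exact h.cent _ hxQ.1 hj _ (hgc.1 j)
    · by_cases hj : (x : GG H n).r j ∈ Z
      · have hyT : (⟨1, Pi.mulSingle j i, false⟩ : GG H n) ∈ T := by
          refine mem_cS_zpowers.2 ⟨?_, ?_⟩
          · rw [mem_SS]
            intro j'
            refine ⟨one_mem _, ?_⟩
            show (Pi.mulSingle j i : Fin n → H) j' ∈ Q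
            by_cases hjj : j' = j
            · subst hjj
              rw [Pi.mulSingle_eq_same]
              exact h.i_mem
            · rw [Pi.mulSingle_eq_of_ne hjj]
              exact one_mem _
          · rw [GoodB_comm rfl hx.1]
            constructor
            · intro j'
              show (1 : H) * _ = _ * (1 : H)
              rw [one_mul, mul_one]
            · intro j'
              show (Pi.mulSingle j i : Fin n → H) j' * _ = _ * (Pi.mulSingle j i : Fin n → H) j'
              by_cases hjj : j' = j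
              · subst hjj
                exact h.central _ hj _
              · rw [Pi.mulSingle_eq_of_ne hjj, one_mul, mul_one]
        have h1 := ((GoodB_comm (hC g hg) rfl).1 (hy _ hyT)).2 j
        have h2 : g.r j * (Pi.mulSingle j i : Fin n → H) j =
          (Pi.mulSingle j i : Fin n → H) j * g.r j := h1
        rw [Pi.mulSingle_eq_same] at h2
        exact h.cent i h.i_mem h.i_not _ h2
      · exact h.cent _ hxQ.2 hj _ (hgc.2 j)
  · rw [hidx]
    intro h2
    have h3 : Nat.card (GoodB_map π C hC).range ∣ Nat.card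
        ((Fin n → Multiplicative (ZMod 3)) × (Fin n → Multiplicative (ZMod 3))) :=
      Subgroup.card_subgroup_dvd_card _
    have h4 : Nat.card ((Fin n → Multiplicative (ZMod 3)) × (Fin n → Multiplicative (ZMod 3))) =
        3 ^ (n + n) := by
      have h5 : Nat.card (Multiplicative (ZMod 3)) = 3 := by
        rw [Nat.card_eq_fintype_card, Fintype.card_multiplicative, ZMod.card]
      rw [Nat.card_prod, Nat.card_fun, h5, ← pow_add, Nat.card_eq_fintype_card, Fintype.card_fin]
    rw [h4] at h3
    have h5 := (h2.trans h3)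
    have h6 := Nat.prime_two.dvd_of_dvd_pow h5
    omega

end MND
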