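import Pool.Agent.W_0649c_h65.Wr
import Pool.Agent.W_0649c_h65.GrpFus

/-! MP_0649d4_al, disproof of Q1: the properties of `SL₂(3)` which are used, and the group
`SL₂(3)ⁿ ≀ C₂`. -/

namespace MND

open MNF

/-- The properties of `H = SL₂(3)`, `Q = O₂(H)` (quaternion of order 8), `Z = Z(H)`,
`π : H → C₃` with kernel `Q`, `i ∈ Q` of order `4`, `z` the element of order `2`. -/
structure SLData (H : Type) [Group H] (Q Z : Subgroup H) (π : H →* Multiplicative (ZMod 3))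
    (i z : H) : Prop where
  surj : Function.Surjective π
  ker : ∀ h, π h = 1 ↔ h ∈ Q
  cardQ : Nat.card Q = 8
  cardZ : Nat.card Z = 2
  Z_le : Z ≤ Q
  z_mem : z ∈ Z
  z_ne : z ≠ 1
  central : ∀ y ∈ Z, ∀ h : H, h * y = y * h
  comm_mem : ∀ x ∈ Q, ∀ y ∈ Q, x * y * x⁻¹ * y⁻¹ ∈ Z
  sq_mem : ∀ x ∈ Q, x * x ∈ Z
  comm_eq : ∀ c ∈ Z, ∃ x ∈ Q, ∃ y ∈ Q, x * y * x⁻¹ * y⁻¹ = c
  cent : ∀ x ∈ Q, x ∉ Z → ∀ h : H, h * x = x * h → h ∈ Q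
  i_mem : i ∈ Q
  i_not : i ∉ Z
  classes : Nat.card (ConjClasses Q) = 5
  lin_trans : ∀ μ ν : Q →* ℂˣ, μ ≠ 1 → ν ≠ 1 →
    ∃ h : H, ∀ x y : Q, (y : H) = h * x * h⁻¹ → ν x = μ y
  lin_stab : ∀ μ : Q →* ℂˣ, μ ≠ 1 → ∀ h : H,
    (∀ x y : Q, (y : H) = h * x * h⁻¹ → μ y = μ x) → h ∈ Q

variable {H : Type} [Group H] (Q Z : Subgroup H) (n : ℕ)

/-- The group `G = Hⁿ ≀ C₂`. -/
abbrev GG (H : Type) (n : ℕ) : Type := Wr (Fin n → H)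

/-- The Sylow `2`-subgroup `S = Qⁿ ≀ C₂` of `G`. -/
def SS : Subgroup (GG H n) where
  carrier := {g | ∀ j, g.l j ∈ Q ∧ g.r j ∈ Q}
  one_mem' := fun j => ⟨one_mem _, one_mem _⟩
  mul_mem' := by
    rintro ⟨a, b, s⟩ ⟨c, d, s'⟩ h h'
    cases s
    · rw [Wr.mul_ff]
      exact fun j => ⟨mul_mem (h j).1 (h' j).1, mul_mem (h j).2 (h' j).2⟩
    · rw [Wr.mul_tt]
      exact fun j => ⟨mul_mem (h j).1 (h' j).2, mul_mem (h j).2 (h' j).1⟩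
  inv_mem' := by
    rintro ⟨a, b, s⟩ h
    cases s
    · rw [Wr.inv_ff]
      exact fun j => ⟨inv_mem (h j).1, inv_mem (h j).2⟩
    · rw [Wr.inv_tt]
      exact fun j => ⟨inv_mem (h j).2, inv_mem (h j).1⟩

theorem mem_SS {g : GG H n} : g ∈ SS Q n ↔ ∀ j, g.l j ∈ Q ∧ g.r j ∈ Q := Iff.rfl

/-- The swap `t`, an element of `S`. -/
def tt : SS Q n := ⟨⟨1, 1, true⟩, fun _ => ⟨one_mem _, one_mem _⟩⟩

/-- The fusion system `F = F_S(G)`. -/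
abbrev FF : FusionSystem (SS Q n) := grpFus (SS Q n)

end MND
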