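import Pool.Agent.W_0649c_h65.MDefs
import Pool.Agent.W_0649c_h65.DegOne

/-! MP_0649d4_al: the characters in `Irr^d(Q)`, `|S| = p ^ d`. -/

namespace MND

open MNF

/-- `Irr^d(Q) = ∅` if `Q` is a `p`-group of order less than `p ^ d`. -/
theorem irrE_empty (p d : ℕ) [Fact p.Prime] {Q : Type*} [Group Q] [Finite Q] (hQ : IsPGroup p Q)
    (hc : Nat.card Q < p ^ d) : IrrE p d Q = ∅ := by
  have hpp : p.Prime := Fact.out
  rw [Set.eq_empty_iff_forall_notMem]
  rintro μ ⟨_, n, _, hv⟩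
  obtain ⟨k, hk⟩ := IsPGroup.iff_card.1 hQ
  rw [hk] at hv hc
  rw [padicValNat.prime_pow] at hv
  have h1 : k < d := (Nat.pow_lt_pow_iff_right hpp.one_lt).1 hc
  omega

/-- The determinant and the trace agree in dimension one. -/
theorem IrrTop_aux1 (f : (Fin 1 → ℂ) →ₗ[ℂ] (Fin 1 → ℂ)) :
    LinearMap.trace ℂ (Fin 1 → ℂ) f = LinearMap.det f := by
  rw [LinearMap.trace_eq_matrix_trace ℂ (Pi.basisFun ℂ (Fin 1)),
    ← LinearMap.det_toMatrix (Pi.basisFun ℂ (Fin 1)), Matrix.trace_fin_one, Matrix.det_fin_one]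

/-- A subspace of `ℂ¹` is `0` or everything. -/
theorem IrrTop_aux2 (W : Submodule ℂ (Fin 1 → ℂ)) : W = ⊥ ∨ W = ⊤ := by
  have h1 : IsSimpleModule ℂ (Fin 1 → ℂ) := by
    rw [isSimpleModule_iff_finrank_eq_one]
    simp
  exact eq_bot_or_eq_top W

/-- If `|S| = p ^ d` then `Irr^d(S)` consists of the linear characters: `v_p(n) = 0`, `n ≥ 1` (the
value `μ 1` is the degree `n`), so `n = 1` by `degree_one`; a one-dimensional representation is a
homomorphism to `ℂˣ`. Conversely a homomorphism gives a representation on `ℂ¹`. -/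
theorem mem_irrE_iff (p d : ℕ) [Fact p.Prime] {S : Type*} [Group S] [Finite S]
    (hc : Nat.card S = p ^ d) (μ : S → ℂ) :
    μ ∈ IrrE p d S ↔ ∃ ν : S →* ℂˣ, ∀ y, μ y = ν y := by
  have hpp : p.Prime := Fact.out
  have hS : IsPGroup p S := IsPGroup.of_card hc
  constructor
  · rintro ⟨⟨n, ρ, hn, hirr, hμ⟩, m, hm, hv⟩
    -- the degree
    have h1 : μ 1 = n := by
      rw [hμ, map_one]
      show LinearMap.trace ℂ (Fin n → ℂ) LinearMap.id = n
      rw [LinearMap.trace_id, Module.finrank_fin_fun]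
    have hmn : m = n := by
      have h2 : (m : ℂ) = n := by rw [← hm, h1]
      exact_mod_cast h2
    rw [hmn, hc, padicValNat.prime_pow] at hv
    have hv0 : padicValNat p n = 0 := by omega
    have hpn : ¬ p ∣ n := by
      rcases padicValNat.eq_zero_iff.1 hv0 with h | h | h
      · exact absurd h hpp.one_lt.ne'
      · exact absurd h hn.ne'
      · exact h
    have hn1 : n = 1 := degree_one p hS n ρ hn hirr hpn
    subst hn1
    let f : S →* ℂ := (LinearMap.det : ((Fin 1 → ℂ) →ₗ[ℂ] (Fin 1 → ℂ)) →* ℂ).comp ρ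
    refine ⟨f.toHomUnits, fun y => ?_⟩
    rw [hμ, IrrTop_aux1]
    rfl
  · rintro ⟨ν, hν⟩
    let ρ : S →* ((Fin 1 → ℂ) →ₗ[ℂ] (Fin 1 → ℂ)) :=
      { toFun := fun g => ((ν g : ℂˣ) : ℂ) • LinearMap.id
        map_one' := by
          rw [map_one, Units.val_one, one_smul]
          rfl
        map_mul' := by
          intro a b
          refine LinearMap.ext fun w => ?_
          rw [map_mul, Units.val_mul]
          show (((ν a : ℂˣ) : ℂ) * ((ν b : ℂˣ) : ℂ)) • w = ((ν a : ℂˣ) : ℂ) • (((ν b : ℂˣ) : ℂ) • w)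
          rw [mul_smul] }
    refine ⟨⟨1, ρ, one_pos, fun W _ => IrrTop_aux2 W, fun g => ?_⟩, 1, ?_, ?_⟩
    · show μ g = LinearMap.trace ℂ (Fin 1 → ℂ) (((ν g : ℂˣ) : ℂ) • LinearMap.id)
      rw [map_smul, LinearMap.trace_id, Module.finrank_fin_fun, hν]
      simp
    · rw [hν, map_one]
      simp
    · rw [hc, padicValNat.prime_pow]
      simp

end MND
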