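import Pool.Agent.W_0649c_h65.GrpFus

/-! MP_0649d4_al, disproof of Q1: the contribution of `C_S(x)` to `w(C_F(x), α(x))`. -/

namespace MND

open MNF

variable {G : Type*} [Group G] [Finite G]

/-- A subgroup that is `C_F(x)`-conjugate to `C_S(x)` is `C_S(x)`. -/
theorem TopW_aux1 {S : Subgroup G} (F : FusionSystem S) (x : S) {Q : Subgroup G}
    (h : (F.cent x).Conj (cS S (Subgroup.zpowers (x : G))) Q) :
    Q = cS S (Subgroup.zpowers (x : G)) := by
  obtain ⟨φ, hφ⟩ := h
  exact Subgroup.eq_of_le_of_card_ge hφ.2.1 (Nat.card_congr φ.toEquiv).le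

/-- `C_S(x)` is centric in `C_F(x)`. -/
theorem TopW_aux2 {S : Subgroup G} (F : FusionSystem S) (x : S) :
    (F.cent x).Centric (cS S (Subgroup.zpowers (x : G))) := by
  refine ⟨le_rfl, fun Q hQ => ?_⟩
  rw [TopW_aux1 F x hQ]
  exact inf_le_left

/-- `T = C_S(x)` is the full group of the system `C_F(x)`: it is centric and conjugate only to
itself, so it is in the transversal `R`. -/
theorem zNum_le_wInv {k : Type*} [Field k] {S : Subgroup G} (F : FusionSystem S)
    (α : ∀ P : Subgroup G, Cocycle (F.Out P) k) (x : S) (R : Finset (Subgroup G))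
    (hR : IsCentricTransversal (F.cent x) R) :
    zNum (TwAlg (centFam F α x (cS S (Subgroup.zpowers (x : G))))) ≤
      wInv (F.cent x) (centFam F α x) R := by
  obtain ⟨Q, ⟨hQ, hc⟩, -⟩ := hR.2 _ (TopW_aux2 F x)
  rw [TopW_aux1 F x hc] at hQ
  exact Finset.single_le_sum (f := fun Q => zNum (TwAlg (centFam F α x Q)))
    (fun _ _ => Nat.zero_le _) hQ

end MND
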