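import Pool.Agent.W_0649c_h65.PtsB
import Pool.Agent.W_0649c_h65.GoodB
import Pool.Agent.W_0649c_h65.TopW

/-! MP_0649d4_al, disproof of Q1: the lower bound for `k(F, 1)`. -/

namespace MND

open MNF

variable {H : Type} [Group H] [Finite H] {Q Z : Subgroup H} {π : H →* Multiplicative (ZMod 3)}
  {i z : H}

/-- The term of an element of `X` which is `F`-conjugate to `(u, v)`. -/
theorem KLow_aux1 (h : SLData H Q Z π i z) (n : ℕ) {k : Type*} [Field k] [IsAlgClosed k]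
    [CharP k 2] (x : SS Q n) (R : Finset (Subgroup (GG H n)))
    (hR : IsCentricTransversal ((FF Q n).cent x) R) (u v : Fin n → Fin 3) (huv : u ≠ v)
    (hx : (FF Q n).ConjEl (pt i z u v) (x : GG H n)) :
    3 ^ cenNum Z (pt i z u v) ≤
      wInv ((FF Q n).cent x) (centFam (FF Q n) (trivFam (FF Q n) k) x) R := by
  obtain ⟨g, hg⟩ := (grpFus_conjEl (pt_mem h u v) x.2).1 hx
  have h1 : IsGood (x : GG H n) := by
    rw [← hg]
    exact IsGood.conj (pt_good h u v huv) g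
  have h2 : cenNum Z (x : GG H n) = cenNum Z (pt i z u v) := by
    rw [← hg]
    exact cenNum_conj h _ g (pt_good h u v huv).1
  rw [← h2]
  exact (good_zNum h (k := k) x h1).trans (zNum_le_wInv (FF Q n) (trivFam (FF Q n) k) x R hR)

/-- Two pairs with a common conjugate are equal up to the swap. -/
theorem KLow_aux2 (h : SLData H Q Z π i z) (n : ℕ) (x : SS Q n) (w w' : (Fin n → Fin 3) × (Fin n → Fin 3))
    (hw : (FF Q n).ConjEl (pt i z w.1 w.2) (x : GG H n))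
    (hw' : (FF Q n).ConjEl (pt i z w'.1 w'.2) (x : GG H n)) : w' = w ∨ w' = w.swap := by
  obtain ⟨g, hg⟩ := (grpFus_conjEl (pt_mem h w.1 w.2) x.2).1 hw
  obtain ⟨g', hg'⟩ := (grpFus_conjEl (pt_mem h w'.1 w'.2) x.2).1 hw'
  have h1 : (g'⁻¹ * g) * pt i z w.1 w.2 * (g'⁻¹ * g)⁻¹ = pt i z w'.1 w'.2 := by
    have h2 : pt i z w'.1 w'.2 = g'⁻¹ * (g' * pt i z w'.1 w'.2 * g'⁻¹) * g' := by group
    rw [h2, hg', ← hg]
    group
  rcases pt_conj h _ _ _ _ _ h1 with ⟨ha, hb⟩ | ⟨ha, hb⟩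
  · exact Or.inl (Prod.ext ha hb)
  · exact Or.inr (Prod.ext ha hb)

/-- `2 k(F, 1) ≥ 49 ^ n - 19 ^ n`. For `u ≠ v` let `f (u, v)` be the element of `X` which is
`F`-conjugate to `(u, v)` (`pt_mem`, `grpFus_conjEl`); by `pt_good`, `IsGood.conj`, `cenNum_conj`,
`good_zNum`, `zNum_le_wInv` the term of `f (u, v)` is at least `3 ^ cenNum Z (pt u v)`, and `f` is at
most two-to-one (`pt_conj`), so (`Finset.sum_fiberwise_of_maps_to` ..)
`∑_{u ≠ v} 3 ^ cenNum ≤ 2 ∑_{x ∈ X} w(x)`; `pow_cenNum`, `sum_wt`, `sum_wt_sq`. -/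
theorem kInv_ge (h : SLData H Q Z π i z) (n : ℕ) {k : Type*} [Field k] [IsAlgClosed k] [CharP k 2]
    (X : Finset (SS Q n)) (Y : SS Q n → Finset (Subgroup (GG H n)))
    (hX : IsElementTransversal (FF Q n) X)
    (hY : ∀ x ∈ X, IsCentricTransversal ((FF Q n).cent x) (Y x)) :
    49 ^ n ≤ 2 * kInv (FF Q n) (trivFam (FF Q n) k) X Y + 19 ^ n := by
  classical
  have hf : ∀ w : (Fin n → Fin 3) × (Fin n → Fin 3), ∃ x, x ∈ X ∧
      (FF Q n).ConjEl (pt i z w.1 w.2) (x : GG H n) := fun w => by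
    obtain ⟨x, hx, _⟩ := hX.2 ⟨pt i z w.1 w.2, pt_mem h w.1 w.2⟩
    exact ⟨x, hx⟩
  choose f hfX hfc using hf
  let W : Finset ((Fin n → Fin 3) × (Fin n → Fin 3)) := Finset.univ.filter fun w => w.1 ≠ w.2
  let g : (Fin n → Fin 3) × (Fin n → Fin 3) → ℕ := fun w => (∏ j, wt (w.1 j)) * ∏ j, wt (w.2 j)
  let T : SS Q n → ℕ := fun x =>
    wInv ((FF Q n).cent x) (centFam (FF Q n) (trivFam (FF Q n) k) x) (Y x)
  have h1 : ∑ w ∈ W, g w ≤ 2 * ∑ x ∈ X, T x := by
    rw [← Finset.sum_fiberwise_of_maps_to (fun w _ => hfX w) g, Finset.mul_sum]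
    refine Finset.sum_le_sum fun x hx => ?_
    have h2 : ∑ w ∈ W with f w = x, g w ≤ (W.filter fun w => f w = x).card • T x := by
      refine Finset.sum_le_card_nsmul _ _ _ fun w hw => ?_
      rw [Finset.mem_filter] at hw
      have h3 : w.1 ≠ w.2 := (Finset.mem_filter.1 hw.1).2
      have h4 := KLow_aux1 h n (k := k) x (Y x) (hY x hx) w.1 w.2 h3 (hw.2 ▸ hfc w)
      rw [pow_cenNum h] at h4
      exact h4
    refine h2.trans ?_
    rw [smul_eq_mul]
    refine Nat.mul_le_mul_right _ ?_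
    rcases (W.filter fun w => f w = x).eq_empty_or_nonempty with h5 | ⟨w, hw⟩
    · rw [h5]; simp
    · refine (Finset.card_le_card (t := {w, w.swap}) fun w' hw' => ?_).trans Finset.card_le_two
      rw [Finset.mem_filter] at hw hw'
      have h6 := KLow_aux2 h n x w w' (hw.2 ▸ hfc w) (hw'.2 ▸ hfc w')
      rw [Finset.mem_insert, Finset.mem_singleton]
      exact h6
  have h2 : ∑ w ∈ Finset.univ.filter (fun w : (Fin n → Fin 3) × (Fin n → Fin 3) => ¬ w.1 ≠ w.2), g w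
      = 19 ^ n := by
    rw [← sum_wt_sq n]
    symm
    refine Finset.sum_bij (fun u _ => (u, u)) ?_ ?_ ?_ ?_
    · intro u _
      rw [Finset.mem_filter]
      exact ⟨Finset.mem_univ _, fun h => h rfl⟩
    · intro u _ u' _ h
      exact (Prod.ext_iff.1 h).1
    · intro w hw
      rw [Finset.mem_filter, not_not] at hw
      exact ⟨w.1, Finset.mem_univ _, Prod.ext rfl hw.2⟩
    · intro u _
      rfl
  have h3 := Finset.sum_filter_add_sum_filter_not Finset.univ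
    (fun w : (Fin n → Fin 3) × (Fin n → Fin 3) => w.1 ≠ w.2) g
  have h4 : ∑ w : (Fin n → Fin 3) × (Fin n → Fin 3), g w = 49 ^ n := sum_wt n
  rw [h4, h2] at h3
  rw [← h3]
  exact Nat.add_le_add_right h1 _

end MND
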