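import Pool.Agent.W_0649c_h65.Grp

/-! MP_0649d4_al, disproof of Q1: the linear characters of `S`. -/

namespace MND

open MNF

variable {H : Type} [Group H] {Q Z : Subgroup H} {n : ℕ}

/-- The element `(single j q, 1)` of `S`. -/
def incl (j : Fin n) : Q →* SS Q n where
  toFun q := ⟨⟨Pi.mulSingle j (q : H), 1, false⟩, fun m => by
    refine ⟨?_, one_mem _⟩
    show (Pi.mulSingle j (q : H) : Fin n → H) m ∈ Q
    by_cases hm : m = j
    · subst hm; rw [Pi.mulSingle_eq_same]; exact q.2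
    · rw [Pi.mulSingle_eq_of_ne hm]; exact one_mem _⟩
  map_one' := by
    apply Subtype.ext
    show (⟨Pi.mulSingle j ((1 : Q) : H), 1, false⟩ : GG H n) = ⟨1, 1, false⟩
    rw [Subgroup.coe_one, Pi.mulSingle_one]
  map_mul' a b := by
    apply Subtype.ext
    show (⟨Pi.mulSingle j ((a * b : Q) : H), 1, false⟩ : GG H n) =
      ⟨Pi.mulSingle j (a : H), 1, false⟩ * ⟨Pi.mulSingle j (b : H), 1, false⟩
    rw [Wr.mul_ff, Subgroup.coe_mul, Pi.mulSingle_mul, one_mul]

/-- The components `μ_j : Q → ℂˣ` of a linear character of `S`. -/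
def comp (μ : SS Q n →* ℂˣ) (j : Fin n) : Q →* ℂˣ := μ.comp (incl j)

/-- The inclusion `x ↦ (x, 1, 1)` of `Qⁿ` into `S`. -/
def LinA_left : (Fin n → Q) →* SS Q n where
  toFun x := ⟨⟨fun j => (x j : H), 1, false⟩, fun m => ⟨(x m).2, one_mem _⟩⟩
  map_one' := Subtype.ext rfl
  map_mul' a b := by
    apply Subtype.ext
    show (⟨fun j => ((a * b) j : H), 1, false⟩ : GG H n) =
      ⟨fun j => (a j : H), 1, false⟩ * ⟨fun j => (b j : H), 1, false⟩
    rw [Wr.mul_ff, one_mul]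
    rfl

theorem LinA_aux1 (j : Fin n) (q : Q) :
    LinA_left (Pi.mulSingle j q : Fin n → Q) = incl j q := by
  apply Subtype.ext
  show (⟨fun m => ((Pi.mulSingle j q : Fin n → Q) m : H), 1, false⟩ : GG H n) =
    ⟨Pi.mulSingle j (q : H), 1, false⟩
  congr 1
  funext m
  by_cases hm : m = j
  · subst hm
    rw [Pi.mulSingle_eq_same, Pi.mulSingle_eq_same]
  · rw [Pi.mulSingle_eq_of_ne hm, Pi.mulSingle_eq_of_ne hm]
    rfl

theorem LinA_aux2 (μ : SS Q n →* ℂˣ) (x : Fin n → Q) :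
    μ (LinA_left x) = ∏ j, comp μ j (x j) := by
  have h1 : μ.comp LinA_left = ∏ j, (comp μ j).comp (Pi.evalMonoidHom (fun _ : Fin n => Q) j) := by
    apply MonoidHom.pi_ext
    intro i q
    rw [MonoidHom.finsetProd_apply]
    rw [Finset.prod_eq_single i]
    · show μ (LinA_left (Pi.mulSingle i q : Fin n → Q)) =
        comp μ i ((Pi.mulSingle i q : Fin n → Q) i)
      rw [LinA_aux1, Pi.mulSingle_eq_same]
      rfl
    · intro j _ hj
      show comp μ j ((Pi.mulSingle i q : Fin n → Q) j) = 1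
      rw [Pi.mulSingle_eq_of_ne hj, map_one]
    · intro h
      exact absurd (Finset.mem_univ i) h
  have h2 := DFunLike.congr_fun h1 x
  rw [MonoidHom.finsetProd_apply] at h2
  exact h2

theorem LinA_tt_mul : tt Q n * tt Q n = 1 := by
  apply Subtype.ext
  show (⟨1, 1, true⟩ : GG H n) * ⟨1, 1, true⟩ = ⟨1, 1, false⟩
  rw [Wr.mul_tt, one_mul]
  rfl

theorem LinA_aux3 (μ : SS Q n →* ℂˣ) : μ (tt Q n) * μ (tt Q n) = 1 := by
  rw [← map_mul, LinA_tt_mul, map_one]

theorem LinA_aux4 (x y : Fin n → Q) (s : Bool)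
    (h : (⟨fun j => (x j : H), fun j => (y j : H), s⟩ : GG H n) ∈ SS Q n) :
    (⟨_, h⟩ : SS Q n) = LinA_left x * (tt Q n * LinA_left y * tt Q n) *
      (if s then tt Q n else 1) := by
  apply Subtype.ext
  have h1 : ((tt Q n * LinA_left y * tt Q n : SS Q n) : GG H n) =
      ⟨1, fun j => (y j : H), false⟩ := by
    show (⟨1, 1, true⟩ : GG H n) * ⟨fun j => (y j : H), 1, false⟩ * ⟨1, 1, true⟩ = _
    rw [Wr.mul_tt]
    show (⟨1 * 1, 1 * fun j => (y j : H), true⟩ : GG H n) * ⟨1, 1, true⟩ = _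
    rw [Wr.mul_tt, one_mul, one_mul, mul_one, one_mul]
    rfl
  cases s
  · rw [Subgroup.coe_mul, Subgroup.coe_mul, h1]
    show (⟨fun j => (x j : H), fun j => (y j : H), false⟩ : GG H n) =
      ⟨fun j => (x j : H), 1, false⟩ * ⟨1, fun j => (y j : H), false⟩ *
        (((if false = true then tt Q n else 1 : SS Q n)) : GG H n)
    have h2 : (((if false = true then tt Q n else 1 : SS Q n)) : GG H n) = 1 := by
      simp
    rw [h2, mul_one, Wr.mul_ff, mul_one, one_mul]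
  · rw [Subgroup.coe_mul, Subgroup.coe_mul, h1]
    show (⟨fun j => (x j : H), fun j => (y j : H), true⟩ : GG H n) =
      ⟨fun j => (x j : H), 1, false⟩ * ⟨1, fun j => (y j : H), false⟩ *
        (((if true = true then tt Q n else 1 : SS Q n)) : GG H n)
    have h2 : (((if true = true then tt Q n else 1 : SS Q n)) : GG H n) = ⟨1, 1, true⟩ := by
      simp [tt]
    rw [h2, Wr.mul_ff, Wr.mul_ff, mul_one, one_mul, mul_one, mul_one]

/-- `μ(l, r, s) = ∏ μ_j(l_j) ∏ μ_j(r_j) μ(t) ^ s`: `(l, r, s) = (l, 1) (1, r) t ^ s`, `(1, r)` is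
conjugate by `t` to `(r, 1)`, `(l, 1)` is the product of the `(single j l_j, 1)`. -/
theorem lin_formula (μ : SS Q n →* ℂˣ) (g : SS Q n) :
    μ g = (∏ j, comp μ j ⟨(g : GG H n).l j, (g.2 j).1⟩) *
      (∏ j, comp μ j ⟨(g : GG H n).r j, (g.2 j).2⟩) *
        (if (g : GG H n).s then μ (tt Q n) else 1) := by
  obtain ⟨⟨l, r, s⟩, hg⟩ := g
  have h1 := LinA_aux4 (fun j => (⟨l j, (hg j).1⟩ : Q)) (fun j => (⟨r j, (hg j).2⟩ : Q)) s hg
  have h2 : μ (⟨⟨l, r, s⟩, hg⟩ : SS Q n) = μ (LinA_left (fun j => (⟨l j, (hg j).1⟩ : Q)) *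
      (tt Q n * LinA_left (fun j => (⟨r j, (hg j).2⟩ : Q)) * tt Q n) *
        (if s then tt Q n else 1)) := by
    rw [← h1]
  rw [h2, map_mul, map_mul, map_mul, map_mul, LinA_aux2, LinA_aux2]
  have h3 : μ (if s then tt Q n else 1) = if s then μ (tt Q n) else 1 := by
    cases s
    · simp
    · simp
  rw [h3]
  have h4 : μ (tt Q n) * (∏ j, comp μ j ⟨r j, (hg j).2⟩) * μ (tt Q n) =
      ∏ j, comp μ j ⟨r j, (hg j).2⟩ := by
    rw [mul_right_comm, LinA_aux3, one_mul]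
  rw [h4]

/-- `μ(t) = ± 1`. -/
theorem lin_tt (μ : SS Q n →* ℂˣ) : μ (tt Q n) = 1 ∨ μ (tt Q n) = -1 := by
  have h := LinA_aux3 μ
  have h1 : ((μ (tt Q n) : ℂˣ) : ℂ) * (μ (tt Q n) : ℂˣ) = 1 := by
    rw [← Units.val_mul, h, Units.val_one]
  rcases mul_self_eq_one_iff.mp h1 with h2 | h2
  · left
    exact Units.ext h2
  · right
    exact Units.ext h2

open Classical in
/-- The support of a linear character. -/
noncomputable def supp (μ : SS Q n →* ℂˣ) : Finset (Fin n) := Finset.univ.filter (comp μ · ≠ 1)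

end MND
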