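import Pool.Agent.W_0649c_h65.LinA

/-! MP_0649d4_al, disproof of Q1: the orbits of `Out_F(S)` on the linear characters of `S`. -/

namespace MND

open MNF

variable {H : Type} [Group H] [Finite H] {Q Z : Subgroup H} {π : H →* Multiplicative (ZMod 3)}
  {i z : H} {n : ℕ}

/-- Conjugation by a normalizing element. -/
def LinB_conj {G : Type*} [Group G] (S : Subgroup G) (g : G) (h : ∀ y ∈ S, g * y * g⁻¹ ∈ S)
    (h' : ∀ y ∈ S, g⁻¹ * y * g ∈ S) : MulAut S where
  toFun y := ⟨g * y * g⁻¹, h y y.2⟩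
  invFun y := ⟨g⁻¹ * y * g, h' y y.2⟩
  left_inv y := Subtype.ext (by show g⁻¹ * (g * (y : G) * g⁻¹) * g = y; group)
  right_inv y := Subtype.ext (by show g * (g⁻¹ * (y : G) * g) * g⁻¹ = y; group)
  map_mul' x y := Subtype.ext (by
    show g * ((x : G) * (y : G)) * g⁻¹ = (g * x * g⁻¹) * (g * y * g⁻¹)
    group)

omit [Finite H] in
theorem LinB_wr (h : Fin n → H) (y : GG H n) :
    (⟨h, h, false⟩ : GG H n) * y * (⟨h, h, false⟩ : GG H n)⁻¹ =
      ⟨h * y.l * h⁻¹, h * y.r * h⁻¹, y.s⟩ := by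
  obtain ⟨l, r, s⟩ := y
  cases s
  · rw [Wr.mul_ff, Wr.inv_ff, Wr.mul_ff]
  · rw [Wr.mul_ff, Wr.inv_ff, Wr.mul_tt]
    rfl

omit [Finite H] in
theorem LinB_normal (hd : SLData H Q Z π i z) (h x : H) (hx : x ∈ Q) : h * x * h⁻¹ ∈ Q := by
  rw [← hd.ker] at hx ⊢
  rw [map_mul, map_mul, hx, map_inv, mul_one, mul_inv_cancel]

omit [Finite H] in
theorem LinB_mem (hd : SLData H Q Z π i z) (h : Fin n → H) :
    ∀ y ∈ SS Q n, (⟨h, h, false⟩ : GG H n) * y * (⟨h, h, false⟩ : GG H n)⁻¹ ∈ SS Q n := by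
  intro y hy
  rw [LinB_wr, mem_SS]
  intro j
  exact ⟨LinB_normal hd _ _ (hy j).1, LinB_normal hd _ _ (hy j).2⟩

omit [Finite H] in
theorem LinB_mem' (hd : SLData H Q Z π i z) (h : Fin n → H) :
    ∀ y ∈ SS Q n, (⟨h, h, false⟩ : GG H n)⁻¹ * y * (⟨h, h, false⟩ : GG H n) ∈ SS Q n := by
  intro y hy
  have h1 := LinB_mem hd h⁻¹ y hy
  have h2 : (⟨h⁻¹, h⁻¹, false⟩ : GG H n) = (⟨h, h, false⟩ : GG H n)⁻¹ := rfl
  rw [h2, inv_inv] at h1
  exact h1

/-- Linear characters with the same support and the same value at `t` are conjugate: for `j` in the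
support choose `h_j` with `ν_j(x) = μ_j(h_j x h_j⁻¹)` (`lin_trans`), and `h_j = 1` for the other
`j`; `a` = conjugation by `(h, h, 1)` (it normalizes `S`: `Q` is normal, `ker`); use
`lin_formula`. -/
theorem exists_aut (h : SLData H Q Z π i z) (μ ν : SS Q n →* ℂˣ) (hs : supp μ = supp ν)
    (ht : μ (tt Q n) = ν (tt Q n)) :
    ∃ a : (FF Q n).aut (SS Q n), ∀ y : SS Q n, ν y = μ ((a : MulAut (SS Q n)) y) := by
  classical
  have hex : ∀ j : Fin n, ∃ g : H, ∀ x y : Q, (y : H) = g * x * g⁻¹ → comp ν j x = comp μ j y := by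
    intro j
    by_cases hj : comp μ j = 1
    · have hj' : comp ν j = 1 := by
        by_contra hne
        have h1 : j ∈ supp ν := by
          unfold supp
          exact Finset.mem_filter.2 ⟨Finset.mem_univ j, hne⟩
        rw [← hs] at h1
        unfold supp at h1
        exact (Finset.mem_filter.1 h1).2 hj
      exact ⟨1, fun x y _ => by rw [hj, hj']; rfl⟩
    · have hj' : comp ν j ≠ 1 := by
        have h1 : j ∈ supp μ := by
          unfold supp
          exact Finset.mem_filter.2 ⟨Finset.mem_univ j, hj⟩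
        rw [hs] at h1
        unfold supp at h1
        exact (Finset.mem_filter.1 h1).2
      exact h.lin_trans _ _ hj hj'
  choose g hg using hex
  have hiso : LinB_conj (SS Q n) ⟨g, g, false⟩ (LinB_mem h g) (LinB_mem' h g) ∈
      (FF Q n).aut (SS Q n) := Or.inr ⟨le_rfl, le_rfl, ⟨g, g, false⟩, fun x => rfl⟩
  refine ⟨⟨_, hiso⟩, fun y => ?_⟩
  rw [lin_formula ν y, lin_formula μ]
  have hy : (((LinB_conj (SS Q n) ⟨g, g, false⟩ (LinB_mem h g) (LinB_mem' h g) y : SS Q n)) :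
      GG H n) = ⟨g * (y : GG H n).l * g⁻¹, g * (y : GG H n).r * g⁻¹, (y : GG H n).s⟩ := LinB_wr g y
  have e1 : ∀ j, comp ν j ⟨(y : GG H n).l j, (y.2 j).1⟩ = comp μ j
      ⟨((LinB_conj (SS Q n) ⟨g, g, false⟩ (LinB_mem h g) (LinB_mem' h g) y : SS Q n) :
        GG H n).l j, ((LinB_conj (SS Q n) ⟨g, g, false⟩ (LinB_mem h g) (LinB_mem' h g) y :
          SS Q n).2 j).1⟩ := by
    intro j
    apply hg
    show ((LinB_conj (SS Q n) ⟨g, g, false⟩ (LinB_mem h g) (LinB_mem' h g) y : SS Q n) :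
        GG H n).l j = _
    rw [hy]
    rfl
  have e2 : ∀ j, comp ν j ⟨(y : GG H n).r j, (y.2 j).2⟩ = comp μ j
      ⟨((LinB_conj (SS Q n) ⟨g, g, false⟩ (LinB_mem h g) (LinB_mem' h g) y : SS Q n) :
        GG H n).r j, ((LinB_conj (SS Q n) ⟨g, g, false⟩ (LinB_mem h g) (LinB_mem' h g) y :
          SS Q n).2 j).2⟩ := by
    intro j
    apply hg
    show ((LinB_conj (SS Q n) ⟨g, g, false⟩ (LinB_mem h g) (LinB_mem' h g) y : SS Q n) :
        GG H n).r j = _
    rw [hy]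
    rfl
  have e3 : ((LinB_conj (SS Q n) ⟨g, g, false⟩ (LinB_mem h g) (LinB_mem' h g) y : SS Q n) :
        GG H n).s = (y : GG H n).s := by
    rw [hy]
  rw [Finset.prod_congr rfl fun j _ => e1 j, Finset.prod_congr rfl fun j _ => e2 j, e3, ht]

end MND
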