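import Pool.Agent.W_0649d4.Defs

/-! MP_0649d4_al: the invariants `m(F, α, e)` of the problem, in full. -/

namespace MND

open MNF

section Characters

/-- The irreducible complex characters of a finite group `Q`: the functions
`g ↦ tr ρ(g)` for the irreducible representations `ρ` of `Q` on `ℂⁿ`, `n ≥ 1`. -/
def IrrC (Q : Type*) [Group Q] : Set (Q → ℂ) :=
  {μ | ∃ (n : ℕ) (ρ : Q →* ((Fin n → ℂ) →ₗ[ℂ] (Fin n → ℂ))), 0 < n ∧
    (∀ W : Submodule ℂ (Fin n → ℂ), (∀ g, ∀ w ∈ W, ρ g w ∈ W) → W = ⊥ ∨ W = ⊤) ∧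
    ∀ g, μ g = LinearMap.trace ℂ (Fin n → ℂ) (ρ g)}

/-- `Irr^e(Q)`: the irreducible characters `μ` of `Q` with `v_p(|Q| / μ(1)) = e`, that is
`v_p(|Q|) = v_p(μ(1)) + e`. -/
def IrrE (p e : ℕ) (Q : Type*) [Group Q] : Set (Q → ℂ) :=
  {μ | μ ∈ IrrC Q ∧ ∃ n : ℕ, μ 1 = n ∧ padicValNat p (Nat.card Q) = padicValNat p n + e}

end Characters

section Chains

variable {O : Type*} [Group O]

/-- The chains `1 = X_0 < X_1 < .. < X_m` of `p`-subgroups of `O`, every `X_i` normal in `X_m`,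
given by the set `{X_0, .., X_m}`: a finite totally ordered set of `p`-subgroups containing `1`,
every member of which is normalized by every member (so by the largest one). -/
def IsPChain (p : ℕ) (c : Finset (Subgroup O)) : Prop :=
  ⊥ ∈ c ∧ (∀ X ∈ c, IsPGroup p X) ∧ (∀ X ∈ c, ∀ X' ∈ c, X ≤ X' ∨ X' ≤ X) ∧
    ∀ X ∈ c, ∀ X' ∈ c, ∀ g ∈ X', ∀ x ∈ X, g * x * g⁻¹ ∈ X

/-- The length `|σ| = m` of the chain `X_0 < .. < X_m`. -/
def chainLen (c : Finset (Subgroup O)) : ℕ := c.card - 1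

/-- Conjugate chains. -/
def ConjChain (c c' : Finset (Subgroup O)) : Prop :=
  ∃ g : O, ∀ X : Subgroup O, X ∈ c ↔ X.map (MulAut.conj g).toMonoidHom ∈ c'

/-- Representatives of the chains under conjugation by `O`. -/
def IsChainTransversal (p : ℕ) (C : Finset (Finset (Subgroup O))) : Prop :=
  (∀ c ∈ C, IsPChain p c) ∧ ∀ c : Finset (Subgroup O), IsPChain p c → ∃! c', c' ∈ C ∧ ConjChain c c'

/-- The stabiliser `I(σ)` of a chain: the elements normalizing all members. -/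
def chainStab (c : Finset (Subgroup O)) : Subgroup O where
  carrier := {g | ∀ X ∈ c, ∀ x, x ∈ X ↔ g * x * g⁻¹ ∈ X}
  one_mem' := fun X _ x => by simp
  mul_mem' := fun {a b} ha hb X hX x => by
    rw [hb X hX x, ha X hX (b * x * b⁻¹)]
    have h : a * b * x * (a * b)⁻¹ = a * (b * x * b⁻¹) * a⁻¹ := by group
    rw [h]
  inv_mem' := fun {a} ha X hX x => by
    rw [ha X hX (a⁻¹ * x * a⁻¹⁻¹)]
    have h : a * (a⁻¹ * x * a⁻¹⁻¹) * a⁻¹ = x := by group
    rw [h]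

end Chains

section Inv

variable {G : Type*} [Group G] {k : Type*} [Field k] {S : Subgroup G} (F : FusionSystem S)

/-- The stabiliser in `Out_F(Q)` of a class function `μ` of `Q`. -/
def chStab (Q : Subgroup G) (μ : Q → ℂ) : Subgroup (F.Out Q) :=
  Subgroup.map (QuotientGroup.mk' (F.inn Q))
    { carrier := {a | ∀ y : Q, μ ((a : MulAut Q) y) = μ y}
      one_mem' := fun y => rfl
      mul_mem' := fun {a b} ha hb y => by
        show μ ((a : MulAut Q) ((b : MulAut Q) y)) = μ y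
        rw [ha, hb]
      inv_mem' := fun {a} ha y => by
        show μ ((a : MulAut Q)⁻¹ y) = μ y
        rw [← ha ((a : MulAut Q)⁻¹ y), MulAut.apply_inv_self] }

/-- `I(σ, μ)`. -/
def chainChStab (Q : Subgroup G) (c : Finset (Subgroup (F.Out Q))) (μ : Q → ℂ) :
    Subgroup (F.Out Q) := chainStab c ⊓ chStab F Q μ

/-- Representatives of `Irr^e(Q)` under the action of `I(σ)`. -/
def IsIrrTransversal (p e : ℕ) (Q : Subgroup G) (c : Finset (Subgroup (F.Out Q)))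
    (M : Finset (Q → ℂ)) : Prop :=
  (∀ μ ∈ M, μ ∈ IrrE p e Q) ∧ ∀ μ ∈ IrrE p e Q, ∃! ν, ν ∈ M ∧ ∃ a : F.aut Q,
    (QuotientGroup.mk a : F.Out Q) ∈ chainStab c ∧ ∀ y : Q, ν y = μ ((a : MulAut Q) y)

/-- `m(F, α, e) = ∑_{Q ∈ F^c/F} ∑_{σ ∈ N_Q/Out_F(Q)} (-1)^|σ| ∑_{μ ∈ Irr^e(Q)/I(σ)} z(k_α I(σ, μ))`,
computed with representatives `R` of the centric subgroups, `C Q` of the chains and `M Q σ` of the
characters (which depend on `e`). -/
noncomputable def mInv (α : ∀ P : Subgroup G, Cocycle (F.Out P) k) (R : Finset (Subgroup G))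
    (C : ∀ Q : Subgroup G, Finset (Finset (Subgroup (F.Out Q))))
    (M : ∀ Q : Subgroup G, Finset (Subgroup (F.Out Q)) → Finset (Q → ℂ)) : ℤ :=
  ∑ Q ∈ R, ∑ c ∈ C Q, (-1) ^ chainLen c *
    ∑ μ ∈ M Q c, (zNum (TwAlg ((α Q).comap (chainChStab F Q c μ).subtype)) : ℤ)

/-- `R`, `C`, `M` are representatives as needed for `m(F, α, e)`. -/
def IsMTransversal (p e : ℕ) (R : Finset (Subgroup G))
    (C : ∀ Q : Subgroup G, Finset (Finset (Subgroup (F.Out Q))))
    (M : ∀ Q : Subgroup G, Finset (Subgroup (F.Out Q)) → Finset (Q → ℂ)) : Prop :=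
  IsCentricTransversal F R ∧ ∀ Q ∈ R, IsChainTransversal p (C Q) ∧
    ∀ c ∈ C Q, IsIrrTransversal F p e Q c (M Q c)

end Inv

end MND
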