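import Pool.Agent.W_0649c_h65.GoodA

/-! MP_0649d4_al, disproof of Q1: the elements `(u, v)`. -/

namespace MND

variable {H : Type} [Group H] [Finite H] {Q Z : Subgroup H} {π : H →* Multiplicative (ZMod 3)}
  {i z : H} {n : ℕ}

/-- `0 ↦ 1`, `1 ↦ z`, `2 ↦ i`. -/
def tau (i z : H) : Fin 3 → H := ![1, z, i]

/-- The element `(u, v)` of `G`. -/
def pt (i z : H) (u v : Fin n → Fin 3) : GG H n := ⟨fun j => tau i z (u j), fun j => tau i z (v j), false⟩

theorem PtsA_mem (h : SLData H Q Z π i z) (a : Fin 3) : tau i z a ∈ Q := by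
  fin_cases a
  · exact one_mem Q
  · exact h.Z_le h.z_mem
  · exact h.i_mem

theorem pt_mem (h : SLData H Q Z π i z) (u v : Fin n → Fin 3) : pt i z u v ∈ SS Q n :=
  fun _ => ⟨PtsA_mem h _, PtsA_mem h _⟩

theorem PtsA_memZ (h : SLData H Q Z π i z) (a : Fin 3) (ha : a ≠ 2) : tau i z a ∈ Z := by
  fin_cases a
  · exact one_mem Z
  · exact h.z_mem
  · exact absurd rfl ha

theorem PtsA_inj (h : SLData H Q Z π i z) (a b : Fin 3) (hab : tau i z a = tau i z b) : a = b := by
  have hz1 : z ≠ 1 := h.z_ne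
  have hi1 : i ≠ 1 := fun e => h.i_not (e ▸ one_mem Z)
  have hiz : i ≠ z := fun e => h.i_not (e ▸ h.z_mem)
  fin_cases a <;> fin_cases b
  · rfl
  · exact absurd (Eq.symm hab : z = 1) hz1
  · exact absurd (Eq.symm hab : i = 1) hi1
  · exact absurd (hab : z = 1) hz1
  · rfl
  · exact absurd (Eq.symm hab : i = z) hiz
  · exact absurd (hab : i = 1) hi1
  · exact absurd (hab : i = z) hiz
  · rfl

/-- `1, z, i` are pairwise not conjugate in `H`. -/
theorem tau_conj (h : SLData H Q Z π i z) (a b : Fin 3) (g : H)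
    (hg : g * tau i z a * g⁻¹ = tau i z b) : a = b := by
  by_cases ha : a = 2
  · by_cases hb : b = 2
    · rw [ha, hb]
    · have h1 := h.central _ (PtsA_memZ h b hb) g
      apply PtsA_inj h
      have h2 : g * tau i z a = g * tau i z b := by
        rw [h1, ← hg]
        group
      exact mul_left_cancel h2
  · have h1 := h.central _ (PtsA_memZ h a ha) g
    apply PtsA_inj h
    rw [← hg, h1, mul_inv_cancel_right]

theorem PtsA_ff (h : SLData H Q Z π i z) (u v u' v' : Fin n → Fin 3) (a b : Fin n → H)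
    (hg : (⟨a, b, false⟩ : GG H n) * pt i z u v * (⟨a, b, false⟩ : GG H n)⁻¹ = pt i z u' v') :
    u' = u ∧ v' = v := by
  unfold pt at hg
  rw [Wr.mul_ff, Wr.inv_ff, Wr.mul_ff] at hg
  have h1 := congrArg Wr.l hg
  have h2 := congrArg Wr.r hg
  constructor
  · funext j
    exact (tau_conj h _ _ _ (congrFun h1 j)).symm
  · funext j
    exact (tau_conj h _ _ _ (congrFun h2 j)).symm

theorem PtsA_tt (h : SLData H Q Z π i z) (u v u' v' : Fin n → Fin 3) (a b : Fin n → H)
    (hg : (⟨a, b, true⟩ : GG H n) * pt i z u v * (⟨a, b, true⟩ : GG H n)⁻¹ = pt i z u' v') :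
    u' = v ∧ v' = u := by
  unfold pt at hg
  rw [Wr.mul_tt, Wr.inv_tt] at hg
  have hg' : (⟨a * (fun j => tau i z (v j)) * a⁻¹, b * (fun j => tau i z (u j)) * b⁻¹, false⟩ : GG H n) =
      ⟨fun j => tau i z (u' j), fun j => tau i z (v' j), false⟩ := by
    rw [← hg]
    simp only [Bool.not_false, Wr.mul_tt, Bool.not_true]
  have h1 := congrArg Wr.l hg'
  have h2 := congrArg Wr.r hg'
  constructor
  · funext j
    exact (tau_conj h _ _ _ (congrFun h1 j)).symm
  · funext j
    exact (tau_conj h _ _ _ (congrFun h2 j)).symm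

/-- `(u, v)` and `(u', v')` are conjugate only if they are equal up to the swap. -/
theorem pt_conj (h : SLData H Q Z π i z) (u v u' v' : Fin n → Fin 3) (g : GG H n)
    (hg : g * pt i z u v * g⁻¹ = pt i z u' v') : (u' = u ∧ v' = v) ∨ (u' = v ∧ v' = u) := by
  obtain ⟨a, b, s⟩ := g
  cases s
  · exact Or.inl (PtsA_ff h u v u' v' a b hg)
  · exact Or.inr (PtsA_tt h u v u' v' a b hg)

theorem pt_good (h : SLData H Q Z π i z) (u v : Fin n → Fin 3) (huv : u ≠ v) :
    IsGood (pt i z u v) := by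
  refine ⟨rfl, fun g hg => ?_⟩
  obtain ⟨a, b, s⟩ := g
  cases s
  · rfl
  · exfalso
    have h1 : (⟨a, b, true⟩ : GG H n) * pt i z u v * (⟨a, b, true⟩ : GG H n)⁻¹ = pt i z u v := by
      rw [hg, mul_inv_cancel_right]
    exact huv (PtsA_tt h u v u v a b h1).1

end MND
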