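import Pool.Agent.W_0649c_h65.PtsA

/-! MP_0649d4_al, disproof of Q1: the elements `(u, v)`. -/

namespace MND

variable {H : Type} [Group H] [Finite H] {Q Z : Subgroup H} {π : H →* Multiplicative (ZMod 3)}
  {i z : H} {n : ℕ}

/-- The weights `3, 3, 1`. -/
def wt : Fin 3 → ℕ := ![3, 3, 1]

open Classical in
theorem PtsB_wt (h : SLData H Q Z π i z) (a : Fin 3) :
    wt a = if tau i z a ∈ Z then 3 else 1 := by
  match a with
  | 0 => exact (if_pos (show (1 : H) ∈ Z from one_mem _)).symm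
  | 1 => exact (if_pos (show z ∈ Z from h.z_mem)).symm
  | 2 => exact (if_neg (show i ∉ Z from h.i_not)).symm

/-- `3 ^ cenNum (u, v) = ∏ wt (u j) * ∏ wt (v j)`. -/
theorem pow_cenNum (h : SLData H Q Z π i z) (u v : Fin n → Fin 3) :
    3 ^ cenNum Z (pt i z u v) = (∏ j, wt (u j)) * ∏ j, wt (v j) := by
  classical
  have key : ∀ w : Fin n → Fin 3,
      (∏ j, wt (w j)) = 3 ^ (Finset.univ.filter fun j => tau i z (w j) ∈ Z).card := by
    intro w
    rw [Finset.prod_congr rfl (fun j _ => PtsB_wt h (w j)), Finset.prod_ite]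
    simp
  unfold cenNum
  rw [pow_add, key u, key v]
  congr! 1

/-- `∑_{u, v} ∏ wt (u j) ∏ wt (v j) = 49 ^ n`. -/
theorem sum_wt (n : ℕ) : ∑ w : (Fin n → Fin 3) × (Fin n → Fin 3),
    ((∏ j, wt (w.1 j)) * ∏ j, wt (w.2 j)) = 49 ^ n := by
  rw [Fintype.sum_prod_type]
  have h1 : ∑ u : Fin n → Fin 3, ∏ j, wt (u j) = 7 ^ n := by
    rw [← Fintype.sum_pow wt n]
    congr 1
  have h2 : ∀ u : Fin n → Fin 3,
      ∑ v : Fin n → Fin 3, ((∏ j, wt (u j)) * ∏ j, wt (v j)) = (∏ j, wt (u j)) * 7 ^ n := by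
    intro u
    rw [← Finset.mul_sum, h1]
  rw [Finset.sum_congr rfl (fun u _ => h2 u), ← Finset.sum_mul, h1, ← mul_pow]
  norm_num

/-- `∑_u (∏ wt (u j)) ^ 2 = 19 ^ n`. -/
theorem sum_wt_sq (n : ℕ) : ∑ u : Fin n → Fin 3, ((∏ j, wt (u j)) * ∏ j, wt (u j)) = 19 ^ n := by
  have h1 : ∑ u : Fin n → Fin 3, ∏ j, (fun a => wt a * wt a) (u j) = 19 ^ n := by
    rw [← Fintype.sum_pow (fun a => wt a * wt a) n]
    congr 1
  rw [← h1]
  refine Finset.sum_congr rfl (fun u _ => ?_)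
  rw [← Finset.prod_mul_distrib]

end MND
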