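import Pool.Agent.W_0649c_h65.GrpFus

/-! MP_0649d4_al, disproof of Q1: the fusion system of a finite group on a Sylow subgroup is
saturated. -/

namespace MND

open MNF

variable {G : Type*} [Group G] [Finite G] (p : ℕ) [Fact p.Prime] (S : Subgroup G)

/-- If `T` is a `p`-subgroup, some conjugate of it is contained in `S`. -/
theorem exists_conj_le (hS : IsPGroup p S) (hi : ¬ p ∣ S.index) (T : Subgroup G)
    (hT : IsPGroup p T) : ∃ g : G, T.map (MulAut.conj g).toMonoidHom ≤ S := by
  obtain ⟨Q, hQ⟩ := hT.exists_le_sylow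
  obtain ⟨g, hg⟩ := MulAction.exists_smul_eq G Q (hS.toSylow hi)
  refine ⟨g, ?_⟩
  rintro _ ⟨x, hx, rfl⟩
  have h1 : (MulAut.conj g).toMonoidHom x ∈ (g • Q : Sylow p G) := ⟨x, hQ hx, rfl⟩
  rw [hg] at h1
  exact h1

/-- `C_S(Q)` is a Sylow subgroup of `C_G(Q)` if `Q` is fully centralized: let `T` be a Sylow
subgroup of `C_G(Q)`; `Q ⊔ T` is a `p`-group, so `g (Q ⊔ T) g⁻¹ ≤ S` for some `g`; `Q' = g Q g⁻¹` is
conjugate to `Q` and `g T g⁻¹ ≤ C_S(Q')`. -/
theorem index_cS (hS : IsPGroup p S) (hi : ¬ p ∣ S.index) (Q : Subgroup G) (hQ : Q ≤ S)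
    (h : (grpFus S).FullyCentralized Q) :
    ¬ p ∣ (cS S Q).relIndex (Subgroup.centralizer (Q : Set G)) := by
  set C : Subgroup G := Subgroup.centralizer (Q : Set G) with hC
  obtain ⟨T0⟩ : Nonempty (Sylow p C) := inferInstance
  set T : Subgroup G := (T0 : Subgroup C).map C.subtype with hTdef
  have hTC : T ≤ C := by
    rintro _ ⟨x, _, rfl⟩
    exact x.2
  have hTp : IsPGroup p T := T0.isPGroup'.map C.subtype
  have hTi : ¬ p ∣ T.relIndex C := by
    have h1 : T.relIndex C = (T0 : Subgroup C).index := by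
      unfold Subgroup.relIndex
      congr 1
      rw [hTdef]
      exact Subgroup.comap_map_eq_self_of_injective C.subtype_injective _
    rw [h1]
    exact T0.not_dvd_index
  have hQp : IsPGroup p Q := hS.to_le hQ
  have hQT : IsPGroup p (Q ⊔ T : Subgroup G) := by
    apply IsPGroup.to_sup_of_normal_left' hQp hTp
    intro t ht
    have ht2 := hTC ht
    rw [hC, Subgroup.mem_centralizer_iff] at ht2
    rw [Subgroup.mem_normalizer_iff]
    intro x
    constructor
    · intro hx
      have h2 := ht2 x hx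
      rw [← h2, mul_assoc, mul_inv_cancel, mul_one]
      exact hx
    · intro hx
      have h2 := ht2 _ hx
      have h3 : x = t * x * t⁻¹ := by
        have h4 : t * x * t⁻¹ * t = t * (t * x * t⁻¹) := h2
        have h5 : t * x = t * (t * x * t⁻¹) := by
          rw [← h4]; group
        exact mul_left_cancel h5
      rw [h3]
      exact hx
  obtain ⟨g, hg⟩ := exists_conj_le p S hS hi _ hQT
  have hQ' : Q.map (MulAut.conj g).toMonoidHom ≤ S :=
    (Subgroup.map_mono le_sup_left).trans hg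
  have hT' : T.map (MulAut.conj g).toMonoidHom ≤ cS S (Q.map (MulAut.conj g).toMonoidHom) := by
    rintro _ ⟨t, ht, rfl⟩
    refine ⟨hg ⟨t, (le_sup_right : T ≤ Q ⊔ T) ht, rfl⟩, ?_⟩
    show _ ∈ Subgroup.centralizer _
    rw [Subgroup.mem_centralizer_iff]
    rintro _ ⟨x, hx, rfl⟩
    have ht2 := hTC ht
    rw [hC, Subgroup.mem_centralizer_iff] at ht2
    have h2 := ht2 x hx
    rw [← map_mul, ← map_mul, h2]
  have h1 := h _ ⟨conjIso g Q, ⟨hQ, hQ', g, fun x => rfl⟩⟩
  have h2 : Nat.card T ≤ Nat.card (cS S Q) := by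
    refine le_trans ?_ h1
    rw [← Subgroup.card_map_of_injective (K := T) (f := (MulAut.conj g).toMonoidHom)
      (MulAut.conj g).injective]
    exact Nat.card_le_card_of_injective _ (Subgroup.inclusion_injective hT')
  have hcC : cS S Q ≤ C := inf_le_right
  have hcp : IsPGroup p (cS S Q) := hS.to_le inf_le_left
  obtain ⟨a, ha⟩ := IsPGroup.iff_card.1 hcp
  obtain ⟨b, hb⟩ := IsPGroup.iff_card.1 hTp
  have e0 : ∀ K : Subgroup G, K ≤ C → Nat.card K * K.relIndex C = Nat.card C := by
    intro K hK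
    have := Subgroup.relIndex_mul_relIndex ⊥ K C bot_le hK
    rwa [Subgroup.relIndex_bot_left, Subgroup.relIndex_bot_left] at this
  have e1 : Nat.card (cS S Q) * (cS S Q).relIndex C = Nat.card C := e0 _ hcC
  have e2 : Nat.card T * T.relIndex C = Nat.card C := e0 _ hTC
  have hp := (Fact.out : p.Prime)
  have hab : p ^ a ∣ p ^ b := by
    have h3 : p ^ a ∣ p ^ b * T.relIndex C := by
      rw [← hb, e2, ← e1, ha]
      exact dvd_mul_right _ _
    exact (Nat.Coprime.pow_left a ((Nat.Prime.coprime_iff_not_dvd hp).2 hTi)).dvd_of_dvd_mul_right h3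
  have hle : p ^ a ≤ p ^ b := Nat.le_of_dvd (pow_pos hp.pos _) hab
  have heq : Nat.card (cS S Q) = Nat.card T := by omega
  have h4 : (cS S Q).relIndex C = T.relIndex C := by
    have h5 : Nat.card T * (cS S Q).relIndex C = Nat.card T * T.relIndex C := by
      rw [e2, ← e1, heq]
    exact Nat.eq_of_mul_eq_mul_left Nat.card_pos h5
  rw [h4]
  exact hTi

end MND
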