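import Pool.Agent.W_0649c_h65.SatA

/-! MP_0649d4_al, disproof of Q1: the fusion system of a finite group on a Sylow subgroup is
saturated. -/

namespace MND

open MNF

variable {G : Type*} [Group G] [Finite G] (p : ℕ) [Fact p.Prime] (S : Subgroup G)

/-- A `p`-subgroup whose order is at least that of some Sylow subgroup has index prime to `p`. -/
theorem SatB_aux1 {N : Type*} [Group N] [Finite N] {p : ℕ} [Fact p.Prime] (K : Subgroup N)
    (hK : IsPGroup p K) (T : Sylow p N) (h : Nat.card (T : Subgroup N) ≤ Nat.card K) :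
    ¬ p ∣ K.index := by
  obtain ⟨T', hT'⟩ := hK.exists_le_sylow
  have h1 : Nat.card (T' : Subgroup N) ≤ Nat.card K := by
    rw [Sylow.card_eq_multiplicity, ← Sylow.card_eq_multiplicity T]
    exact h
  have h2 : K = (T' : Subgroup N) := Subgroup.eq_of_le_of_card_ge hT' h1
  rw [h2]
  exact T'.not_dvd_index

omit [Finite G] in
theorem SatB_aux2 {S P Q : Subgroup G} (h : (grpFus S).Conj P Q) :
    ∃ g : G, P.map (MulAut.conj g).toMonoidHom = Q ∧ Q ≤ S := by
  obtain ⟨φ, hP, hQ, g, hg⟩ := h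
  refine ⟨g, ?_, hQ⟩
  apply le_antisymm
  · rintro _ ⟨x, hx, rfl⟩
    have h1 := hg ⟨x, hx⟩
    show g * x * g⁻¹ ∈ Q
    rw [← h1]
    exact (φ _).2
  · intro y hy
    refine ⟨φ.symm ⟨y, hy⟩, (φ.symm ⟨y, hy⟩).2, ?_⟩
    have h1 := hg (φ.symm ⟨y, hy⟩)
    rw [MulEquiv.apply_symm_apply] at h1
    exact h1.symm

omit [Finite G] in
theorem SatB_aux3 {S P : Subgroup G} (g : G) (hP : P ≤ S)
    (hQ : P.map (MulAut.conj g).toMonoidHom ≤ S) :
    (grpFus S).Conj P (P.map (MulAut.conj g).toMonoidHom) :=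
  ⟨conjIso g P, hP, hQ, g, fun _ => rfl⟩

/-- `N_S(P)` is a Sylow subgroup of `N_G(P)`. -/
theorem SatB_aux4 (hS : IsPGroup p S) (hi : ¬ p ∣ S.index) (P : Subgroup G) (hP : P ≤ S)
    (h : (grpFus S).FullyNormalized P) :
    ¬ p ∣ ((nS S P).subgroupOf (Subgroup.normalizer (P : Set G))).index := by
  have hle : nS S P ≤ Subgroup.normalizer (P : Set G) := inf_le_right
  have hPN : P ≤ Subgroup.normalizer (P : Set G) := Subgroup.le_normalizer
  have hcard : Nat.card ((nS S P).subgroupOf (Subgroup.normalizer (P : Set G))) =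
      Nat.card (nS S P) := Nat.card_congr (Subgroup.subgroupOfEquivOfLe hle).toEquiv
  have hPp : IsPGroup p (P.subgroupOf (Subgroup.normalizer (P : Set G))) :=
    (hS.to_le hP).of_injective (Subgroup.subgroupOfEquivOfLe hPN).toMonoidHom
      (Subgroup.subgroupOfEquivOfLe hPN).injective
  obtain ⟨T, hT⟩ := hPp.exists_le_sylow
  have hKp : IsPGroup p ((nS S P).subgroupOf (Subgroup.normalizer (P : Set G))) :=
    (hS.to_le (inf_le_left : nS S P ≤ S)).of_injective
      (Subgroup.subgroupOfEquivOfLe hle).toMonoidHom (Subgroup.subgroupOfEquivOfLe hle).injective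
  refine SatB_aux1 _ hKp T ?_
  rw [hcard]
  obtain ⟨g, hg⟩ := exists_conj_le p S hS hi
    ((T : Subgroup (Subgroup.normalizer (P : Set G))).map (Subgroup.subtype _)) (T.isPGroup'.map _)
  have hPT : P ≤ (T : Subgroup (Subgroup.normalizer (P : Set G))).map (Subgroup.subtype _) := by
    intro x hx
    exact ⟨⟨x, hPN hx⟩, hT (Subgroup.mem_subgroupOf.2 hx), rfl⟩
  have hQ : P.map (MulAut.conj g).toMonoidHom ≤ S := (Subgroup.map_mono hPT).trans hg
  have h1 := h _ (SatB_aux3 g hP hQ)
  refine le_trans ?_ h1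
  have h2 : ((T : Subgroup (Subgroup.normalizer (P : Set G))).map (Subgroup.subtype _)).map
      (MulAut.conj g).toMonoidHom ≤ nS S (P.map (MulAut.conj g).toMonoidHom) := by
    refine le_inf hg ?_
    rw [← Subgroup.map_equiv_normalizer_eq]
    refine Subgroup.map_mono ?_
    rintro _ ⟨x, _, rfl⟩
    exact x.2
  have h3 := Subgroup.card_le_of_le h2
  rw [Subgroup.card_map_of_injective (MulAut.conj g).injective,
    Subgroup.card_map_of_injective (Subgroup.subtype_injective _)] at h3
  exact h3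

/-- The subgroups `D` of `C_G(P)` which are `p`-groups are conjugate to subgroups of `C_S(P)`. -/
theorem SatB_aux5 (P D : Subgroup G)
    (hS : IsPGroup p S)
    (h : ¬ p ∣ ((nS S P).subgroupOf (Subgroup.normalizer (P : Set G))).index)
    (hD : IsPGroup p D) (hDP : D ≤ Subgroup.centralizer (P : Set G)) :
    Nat.card D ≤ Nat.card (cS S P) := by
  have hCN : Subgroup.centralizer (P : Set G) ≤ Subgroup.normalizer (P : Set G) :=
    Subgroup.centralizer_le_normalizer _
  have hle : nS S P ≤ Subgroup.normalizer (P : Set G) := inf_le_right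
  have hKp : IsPGroup p ((nS S P).subgroupOf (Subgroup.normalizer (P : Set G))) :=
    (hS.to_le (inf_le_left : nS S P ≤ S)).of_injective
      (Subgroup.subgroupOfEquivOfLe hle).toMonoidHom (Subgroup.subgroupOfEquivOfLe hle).injective
  have hDN : D ≤ Subgroup.normalizer (P : Set G) := hDP.trans hCN
  have hTp : IsPGroup p (D.subgroupOf (Subgroup.normalizer (P : Set G))) :=
    hD.of_injective
      (Subgroup.subgroupOfEquivOfLe hDN).toMonoidHom (Subgroup.subgroupOfEquivOfLe hDN).injective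
  obtain ⟨n, hn⟩ := exists_conj_le p _ hKp h (D.subgroupOf (Subgroup.normalizer (P : Set G))) hTp
  have h1 : (D.subgroupOf (Subgroup.normalizer (P : Set G))).map (MulAut.conj n).toMonoidHom ≤
      (cS S P).subgroupOf (Subgroup.normalizer (P : Set G)) := by
    rintro _ ⟨t, ht, rfl⟩
    have h2 := hn ⟨t, ht, rfl⟩
    rw [Subgroup.mem_subgroupOf] at h2 ⊢
    refine Subgroup.mem_inf.2 ⟨h2.1, ?_⟩
    rw [Subgroup.mem_centralizer_iff]
    intro x hx
    have ht' : (t : G) ∈ Subgroup.centralizer (P : Set G) := hDP (Subgroup.mem_subgroupOf.1 ht)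
    rw [Subgroup.mem_centralizer_iff] at ht'
    have hn' := n.2
    have hn2 : (n : G)⁻¹ ∈ Subgroup.normalizer (P : Set G) := inv_mem hn'
    rw [Subgroup.mem_normalizer_iff] at hn2
    have hx2 := (hn2 x).1 hx
    rw [inv_inv] at hx2
    have h3 := ht' _ hx2
    show x * ((n : G) * t * (n : G)⁻¹) = (n : G) * t * (n : G)⁻¹ * x
    calc x * ((n : G) * t * (n : G)⁻¹) = (n : G) * (((n : G)⁻¹ * x * n) * t) * (n : G)⁻¹ := by group
      _ = (n : G) * (t * ((n : G)⁻¹ * x * n)) * (n : G)⁻¹ := by rw [h3]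
      _ = (n : G) * t * (n : G)⁻¹ * x := by group
  have hCS : cS S P ≤ Subgroup.normalizer (P : Set G) := fun x hx => hCN hx.2
  have h2 := Subgroup.card_le_of_le h1
  rw [Subgroup.card_map_of_injective (MulAut.conj n).injective,
    Nat.card_congr (Subgroup.subgroupOfEquivOfLe hDN).toEquiv,
    Nat.card_congr (Subgroup.subgroupOfEquivOfLe hCS).toEquiv] at h2
  exact h2

/-- The image of `N_G(P)` in `Aut_F(P)`. -/
noncomputable def SatB_hom (P : Subgroup G) (hP : P ≤ S) :
    Subgroup.normalizer (P : Set G) →* (grpFus S).aut P :=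
  MonoidHom.codRestrict P.normalizerMonoidHom ((grpFus S).aut P)
    (fun n => Or.inr ⟨hP, hP, (n : G), fun _ => rfl⟩)

/-- The first saturation axiom. `P` fully normalized. Let `T` be a Sylow subgroup of `N_G(P)`
(it contains `P`), `g T g⁻¹ ≤ S`, `Q = g P g⁻¹ ≤ S`; `g T g⁻¹ ≤ N_S(Q)`, so
`|N_S(P)| ≥ |N_S(Q)| ≥ |T|` and `N_S(P)` is a Sylow subgroup of `N_G(P)`. `C_S(P)` is its
intersection with the normal subgroup `C_G(P)`, so a Sylow subgroup of `C_G(P)` (so
`|C_S(P)| = |C_G(P)|_p ≥ |C_S(Q)|` for all conjugates `Q`), and `Aut_S(P)` is the image of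
`N_S(P)` in `Aut_F(P)` = image of `N_G(P)`. -/
theorem sat_sylow (hS : IsPGroup p S) (hi : ¬ p ∣ S.index) (P : Subgroup G) (hP : P ≤ S)
    (h : (grpFus S).FullyNormalized P) :
    (grpFus S).FullyCentralized P ∧ ¬ p ∣ (autS S P).relIndex ((grpFus S).aut P) := by
  have h0 := SatB_aux4 p S hS hi P hP h
  constructor
  · intro Q hQ
    obtain ⟨g, hg, hQS⟩ := SatB_aux2 hQ
    have h1 : (cS S Q).map (MulAut.conj g⁻¹).toMonoidHom ≤ Subgroup.centralizer (P : Set G) := by
      rintro _ ⟨d, hd, rfl⟩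
      rw [Subgroup.mem_centralizer_iff]
      intro x hx
      have hd2 : d ∈ Subgroup.centralizer (Q : Set G) := hd.2
      rw [Subgroup.mem_centralizer_iff] at hd2
      have hx2 : g * x * g⁻¹ ∈ Q := by
        rw [← hg]
        exact ⟨x, hx, rfl⟩
      have h3 := hd2 _ hx2
      show x * (g⁻¹ * d * g⁻¹⁻¹) = g⁻¹ * d * g⁻¹⁻¹ * x
      calc x * (g⁻¹ * d * g⁻¹⁻¹) = g⁻¹ * ((g * x * g⁻¹) * d) * g := by group
        _ = g⁻¹ * (d * (g * x * g⁻¹)) * g := by rw [h3]
        _ = g⁻¹ * d * g⁻¹⁻¹ * x := by group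
    have h2 := SatB_aux5 p S P _ hS h0 ((hS.to_le (inf_le_left : cS S Q ≤ S)).map _) h1
    rwa [Subgroup.card_map_of_injective (MulAut.conj g⁻¹).injective] at h2
  · intro hd
    apply h0
    have hsurj : Function.Surjective (SatB_hom S P hP) := by
      rintro ⟨φ, hφ⟩
      rcases hφ with h1 | ⟨_, _, g, hg⟩
      · refine ⟨1, ?_⟩
        rw [map_one]
        exact Subtype.ext h1.symm
      · have hgN : g ∈ Subgroup.normalizer (P : Set G) := by
          rw [Subgroup.mem_normalizer_iff]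
          intro x
          constructor
          · intro hx
            rw [← hg ⟨x, hx⟩]
            exact (φ _).2
          · intro hx
            have h2 := hg (φ.symm ⟨_, hx⟩)
            rw [MulEquiv.apply_symm_apply] at h2
            have h3 : x = (φ.symm ⟨g * x * g⁻¹, hx⟩ : P) := by
              have h4 : g * x * g⁻¹ = g * (φ.symm ⟨g * x * g⁻¹, hx⟩ : P) * g⁻¹ := h2
              exact mul_left_cancel (mul_right_cancel h4)
            rw [h3]
            exact (φ.symm _).2
        refine ⟨⟨g, hgN⟩, ?_⟩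
        apply Subtype.ext
        apply MulEquiv.ext
        intro x
        apply Subtype.ext
        exact (hg x).symm
    have hmap : ((nS S P).subgroupOf (Subgroup.normalizer (P : Set G))).map (SatB_hom S P hP) ≤
        (autS S P).subgroupOf ((grpFus S).aut P) := by
      rintro _ ⟨n, hn, rfl⟩
      rw [Subgroup.mem_subgroupOf]
      exact ⟨(n : G), (Subgroup.mem_subgroupOf.1 hn).1, fun _ => rfl⟩
    exact (hd.trans (Subgroup.index_dvd_of_le hmap)).trans (Subgroup.index_map_dvd _ hsurj)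

end MND
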