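import Mathlib

/-! MP_0649d4_al, disproof of Q1: the wreath product `Y ≀ C₂`. -/

namespace MND

/-- The wreath product `Y ≀ C₂`: `(l, r, s)` stands for `(l, r) t ^ s`,
`t (a, b) t⁻¹ = (b, a)`. -/
@[ext] structure Wr (Y : Type*) where
  l : Y
  r : Y
  s : Bool

namespace Wr

variable {Y : Type*} [Group Y]

instance : Mul (Wr Y) :=
  ⟨fun x y => ⟨x.l * (bif x.s then y.r else y.l), x.r * (bif x.s then y.l else y.r),
    xor x.s y.s⟩⟩

instance : One (Wr Y) := ⟨⟨1, 1, false⟩⟩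

instance : Inv (Wr Y) :=
  ⟨fun x => ⟨bif x.s then x.r⁻¹ else x.l⁻¹, bif x.s then x.l⁻¹ else x.r⁻¹, x.s⟩⟩

theorem mul_def (x y : Wr Y) : x * y = ⟨x.l * (bif x.s then y.r else y.l),
    x.r * (bif x.s then y.l else y.r), xor x.s y.s⟩ := rfl

theorem one_def : (1 : Wr Y) = ⟨1, 1, false⟩ := rfl

theorem inv_def (x : Wr Y) : x⁻¹ = ⟨bif x.s then x.r⁻¹ else x.l⁻¹,
    bif x.s then x.l⁻¹ else x.r⁻¹, x.s⟩ := rfl

instance : Group (Wr Y) :=
  Group.ofLeftAxioms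
    (by
      rintro ⟨a, b, s⟩ ⟨c, d, s'⟩ ⟨e, f, s''⟩
      cases s <;> cases s' <;> cases s'' <;> simp [mul_def, mul_assoc])
    (by
      rintro ⟨a, b, s⟩
      cases s <;> simp [mul_def, one_def])
    (by
      rintro ⟨a, b, s⟩
      cases s <;> simp [mul_def, one_def, inv_def])

@[simp] theorem mul_ff (a b c d : Y) (s : Bool) :
    (⟨a, b, false⟩ : Wr Y) * ⟨c, d, s⟩ = ⟨a * c, b * d, s⟩ := by
  simp [mul_def]

@[simp] theorem mul_tt (a b c d : Y) (s : Bool) :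
    (⟨a, b, true⟩ : Wr Y) * ⟨c, d, s⟩ = ⟨a * d, b * c, !s⟩ := by
  simp [mul_def]

@[simp] theorem inv_ff (a b : Y) : (⟨a, b, false⟩ : Wr Y)⁻¹ = ⟨a⁻¹, b⁻¹, false⟩ := rfl

@[simp] theorem inv_tt (a b : Y) : (⟨a, b, true⟩ : Wr Y)⁻¹ = ⟨b⁻¹, a⁻¹, true⟩ := rfl

@[simp] theorem one_l : (1 : Wr Y).l = 1 := rfl

@[simp] theorem one_r : (1 : Wr Y).r = 1 := rfl

@[simp] theorem one_s : (1 : Wr Y).s = false := rfl

/-- The underlying set. -/
def equivProd : Wr Y ≃ (Y × Y) × Bool where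
  toFun x := ((x.l, x.r), x.s)
  invFun x := ⟨x.1.1, x.1.2, x.2⟩
  left_inv _ := rfl
  right_inv _ := rfl

instance [Finite Y] : Finite (Wr Y) := Finite.of_equiv _ (equivProd (Y := Y)).symm

theorem card_wr : Nat.card (Wr Y) = Nat.card Y * Nat.card Y * 2 := by
  rw [Nat.card_congr (equivProd (Y := Y)), Nat.card_prod, Nat.card_prod]
  simp

end Wr

end MND
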