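import Pool.Agent.W_0649d4.AMaschke
import Pool.Agent.W_0649c_h65.GrpFus

/-! MP_0649d4_al, disproof of Q1: the numbers `z(k E)`. -/

namespace MND

open MNF

variable {k : Type*} [Field k]

/-- A linear character gives an algebra homomorphism. -/
theorem ZAbA_aux1 {E : Type*} [Group E] (β : Cocycle E k) (hβ : ∀ a b, β a b = 1)
    (χ : E →* kˣ) : ∃ F : TwAlg β →ₐ[k] k, ∀ a, F (TwAlg.of β a) = ((χ a : kˣ) : k) := by
  apply TwAlg.exists_algHom
  · rw [hβ, map_one]
    simp
  · intro a b
    rw [hβ, map_mul]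
    simp

/-- For an abelian group `E` of order prime to the characteristic `z(k E) ≥ |E|`: every
`χ : E →* kˣ` gives an algebra homomorphism `k E → k` (`TwAlg.exists_algHom`), its kernel `m_χ` is a
maximal left ideal, `k E / m_χ` is projective (`semisimple_of_card`,
`Module.projective_of_isSemisimpleRing`), the quotients are pairwise non-isomorphic (they have
different annihilators), and there are `|E|` homomorphisms
(`CommGroup.card_monoidHom_of_hasEnoughRootsOfUnity`). Or: `zNum_eq_lNum`. -/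
theorem card_le_zNum [IsAlgClosed k] {E : Type*} [Group E] [Finite E]
    (hE : (Nat.card E : k) ≠ 0) (hab : ∀ a b : E, a * b = b * a) (β : Cocycle E k)
    (hβ : ∀ a b, β a b = 1) : Nat.card E ≤ zNum (TwAlg β) := by
  rw [zNum_eq_lNum β hE]
  let _ : CommGroup E := { (inferInstance : Group E) with mul_comm := hab }
  have hexp : NeZero ((Monoid.exponent E : ℕ) : k) := by
    refine ⟨fun h => hE ?_⟩
    obtain ⟨c, hc⟩ := Group.exponent_dvd_nat_card (G := E)
    rw [hc, Nat.cast_mul, h, zero_mul]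
  have hcard : Nat.card (E →* kˣ) = Nat.card E :=
    CommGroup.card_monoidHom_of_hasEnoughRootsOfUnity E k
  choose F hF using fun χ : E →* kˣ => ZAbA_aux1 β hβ χ
  have hsurj : ∀ χ, Function.Surjective (F χ) := by
    intro χ c
    refine ⟨algebraMap k (TwAlg β) c, ?_⟩
    rw [AlgHom.commutes]
    rfl
  have hmax : ∀ χ, IsCoatom (RingHom.ker (F χ) : Submodule (TwAlg β) (TwAlg β)) := fun χ =>
    (RingHom.ker_isMaximal_of_surjective (F χ) (hsurj χ)).out
  have hfin : Finite (Quotient (simpleSetoid (TwAlg β))) := finite_simple k (TwAlg β)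
  rw [← hcard]
  unfold lNum
  refine Nat.card_le_card_of_injective
    (fun χ => Quotient.mk (simpleSetoid (TwAlg β)) ⟨RingHom.ker (F χ), hmax χ⟩) ?_
  intro χ χ' h
  have h1 := Quotient.exact h
  obtain ⟨e⟩ : Nonempty ((TwAlg β ⧸ (RingHom.ker (F χ) : Submodule (TwAlg β) (TwAlg β))) ≃ₗ[TwAlg β]
    (TwAlg β ⧸ (RingHom.ker (F χ') : Submodule (TwAlg β) (TwAlg β)))) := h1
  have key : ∀ x : TwAlg β, F χ x = 0 → F χ' x = 0 := by
    intro x hx
    have h2 : ∀ y : TwAlg β ⧸ (RingHom.ker (F χ) : Submodule (TwAlg β) (TwAlg β)), x • y = 0 := by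
      intro y
      obtain ⟨z, rfl⟩ := Submodule.Quotient.mk_surjective _ y
      rw [← Submodule.Quotient.mk_smul, Submodule.Quotient.mk_eq_zero]
      show F χ (x • z) = 0
      rw [smul_eq_mul, map_mul, hx, zero_mul]
    have h3 : x • (Submodule.Quotient.mk (1 : TwAlg β) :
        TwAlg β ⧸ (RingHom.ker (F χ') : Submodule (TwAlg β) (TwAlg β))) = 0 := by
      rw [← e.apply_symm_apply (Submodule.Quotient.mk (1 : TwAlg β)), ← map_smul, h2, map_zero]
    rw [← Submodule.Quotient.mk_smul, Submodule.Quotient.mk_eq_zero] at h3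
    have h4 : F χ' (x • (1 : TwAlg β)) = 0 := h3
    rwa [smul_eq_mul, mul_one] at h4
  ext a
  have h5 : F χ (TwAlg.of β a - algebraMap k (TwAlg β) ((χ a : kˣ) : k)) = 0 := by
    rw [map_sub, hF, AlgHom.commutes]
    exact sub_self _
  have h6 := key _ h5
  rw [map_sub, hF, AlgHom.commutes] at h6
  exact (sub_eq_zero.1 h6).symm

end MND
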